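import Pool.Agent.Lib.DK.E.SpecB

/-!
# Theorem DK, part E: complex conjugation (module `Cj`)
-/

set_option autoImplicit false

open scoped Pointwise nonZeroDivisors

noncomputable section

namespace Pool.Agent.DK.Eb

open Pool.Agent.MuZ Pool.Agent.FW NumberField IsDedekindDomain Pool.Agent.DK
open Pool.Agent.DI (io ofC io_inj exists_io io_ofC ofC_io VP MP UP TP ex sqr sqr_sq kap)

variable {k : ℕ}

section cj

variable {c : Gal(Om/ℚ)} (hc : ∀ x : Om, io (c x) = (starRingEnd ℂ) (io x))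

include hc

private lemma Cj_cc (x : Om) : c (c x) = x := by
  apply io_inj
  rw [hc, hc, Complex.conj_conj]

private lemma Cj_inv : c⁻¹ = c := by
  have h : c * c = 1 := AlgEquiv.ext fun x => Cj_cc hc x
  exact inv_eq_of_mul_eq_one_left h

private lemma Cj_w (k : ℕ) [SqK k] : c (wO k) = 1 - wO k := by
  apply io_inj
  rw [hc, io_wO, conj_wC, map_sub, map_one, io_wO]

private lemma Cj_GK [SqK k] {τ : Gal(Om/ℚ)} (hτ : τ ∈ GK k) : c * τ * c⁻¹ ∈ GK k := by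
  rw [mem_GK_iff, Cj_inv hc, AlgEquiv.mul_apply, AlgEquiv.mul_apply, Cj_w hc k, map_sub, map_one,
    mem_GK_iff.1 hτ, map_sub, map_one, Cj_w hc k, sub_sub_cancel]

private lemma Cj_or (k : ℕ) [SqK k] (g : Gal(Om/ℚ)) : g ∈ GK k ∨ c * g ∈ GK k := by
  have h1 : (g (wO k)) ^ 2 = g (wO k) - 2 * k := by
    rw [← map_pow, wO_sq, map_sub, map_mul, map_ofNat, map_natCast]
  have h2 : (g (wO k) - wO k) * (g (wO k) - (1 - wO k)) = 0 := by
    linear_combination h1 - wO_sq (k := k)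
  rcases mul_eq_zero.1 h2 with h | h
  · left
    rw [mem_GK_iff]
    exact sub_eq_zero.1 h
  · right
    rw [mem_GK_iff, AlgEquiv.mul_apply, sub_eq_zero.1 h, map_sub, map_one, Cj_w hc k,
      sub_sub_cancel]

private lemma Cj_psi [SqK k] (hB1 : S_B1) (hL2 : S_L2) (hL5 : S_L5) (hO3 : S_O3) (hR1 : S_R1)
    (hio : ∀ (k : ℕ) [SqK k] (b : Ideal (OO k)), b ≠ ⊥ → ∀ z : ℂ, Tor k z → io (xO b z) = XC b z)
    (hcc : ∀ (k : ℕ) [SqK k] (b : Ideal (OO k)), b ≠ ⊥ →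
      c (dO b) = (1 - 16 * dO (cjI b)) / 16 ∧
      ∀ z : ℂ, Tor k z → z ∉ Lam b → c (xO b z) = -xO (cjI b) ((starRingEnd ℂ) z) - 1 / 4)
    {τ : Gal(Om/ℚ)} {N : ℕ} (hN : 0 < N) {a : Ideal (OO k)} (ha : Psi τ N a) :
    Psi (c * τ * c⁻¹) N (cjI a) := by
  obtain ⟨o1, o2, o3, -, o5, -⟩ := hO3 k
  have hne : ∀ a : Ideal (OO k), a ≠ ⊥ → cjI a ≠ ⊥ := by
    intro a ha h
    obtain ⟨v, hv, hv0⟩ := Submodule.exists_mem_ne_zero_of_ne_bot ha
    have h1 : cjO v ∈ cjI a := (o1 a _).2 (by rwa [cjO_cjO])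
    rw [h, Ideal.mem_bot] at h1
    apply hv0
    rw [← cjO_cjO v, h1, cjO_zero]
  have happ : ∀ x : Om, (c * τ * c⁻¹) x = c (τ (c x)) := by
    intro x
    rw [Cj_inv hc, AlgEquiv.mul_apply, AlgEquiv.mul_apply]
  have hcj : ∀ b : Ideal (OO k), cjI (a * cjI b) = cjI a * b := by
    intro b
    rw [o2, (o3 b).1]
  have hdd : ∀ b : Ideal (OO k), b ≠ ⊥ → (c * τ * c⁻¹) (dO b) = dO (cjI a * b) := by
    intro b hb
    rw [happ, (hcc k b hb).1]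
    simp only [map_div₀, map_sub, map_mul, map_one, map_ofNat]
    rw [ha.dd (cjI b) (hne b hb), (hcc k (a * cjI b) (ne_mul ha.ne (hne b hb))).1, hcj]
    ring
  refine ⟨hne a ha.ne, (o5 a N).2 ha.cop, hdd, ?_⟩
  intro b hb z hz
  have hab : cjI a * b ≠ ⊥ := ne_mul (hne a ha.ne) hb
  by_cases hzb : z ∈ Lam b
  · have hx : ∀ b' : Ideal (OO k), b' ≠ ⊥ → z ∈ Lam b' → xO b' z = -(1 + 16 * dO b') / 12 := by
      intro b' hb' hz'
      apply io_inj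
      rw [hio k b' hb' z (tor_lam hb' hz'), ((hB1 k b' hb').2.2.2.2.2.2.2.2.1 z hz').1]
      simp only [map_div₀, map_neg, map_add, map_mul, map_one, map_ofNat]
      rw [(hR1 k b' hb').1]
    rw [hx b hb hzb, hx _ hab (lam_mono hzb)]
    simp only [map_div₀, map_neg, map_add, map_mul, map_one, map_ofNat]
    rw [hdd b hb]
  · set z' : ℂ := (starRingEnd ℂ) z with hz'
    have hzz : (starRingEnd ℂ) z' = z := Complex.conj_conj z
    obtain ⟨-, -, -, -, -, -, l7, l8⟩ := hL2 k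
    have hb' := hne b hb
    have h1 : z' ∉ Lam (cjI b) := by
      rw [l7 b z' hb, hzz]
      exact hzb
    have h2 : (N : ℂ) * z' ∈ Lam (cjI b) := by
      rw [l7 b _ hb, map_mul, map_natCast, hzz]
      exact hz
    have t1 : Tor k z := (l8 b z hb).2 ⟨N, hN, hz⟩
    have t2 : Tor k z' := (l8 (cjI b) z' hb').2 ⟨N, hN, h2⟩
    have h3 : z' ∉ Lam (a * cjI b) := fun h => h1 ((hL5 k a (cjI b) N ha.ne hb' hN ha.cop).1 z' h2 h)
    rw [happ, (hcc k b hb).2 z t1 hzb]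
    simp only [map_div₀, map_sub, map_neg, map_one, map_ofNat]
    rw [← hz', ha.xx (cjI b) hb' z' h2, (hcc k (a * cjI b) (ne_mul ha.ne hb')).2 z' t2 h3, hzz, hcj]
    ring

private lemma Cj_fix [SqK k] {N : ℕ} {H : Ideal (OO k) → Prop}
    (hpsi : ∀ (τ : Gal(Om/ℚ)) (a : Ideal (OO k)), Psi τ N a → Psi (c * τ * c⁻¹) N (cjI a))
    (hH : ∀ a, H a → H (cjI a)) {x : Om} (hx : x ∈ FixI N H) : c x ∈ FixI N H := by
  intro τ hτ a ha h
  have h1 := hx _ (Cj_GK hc hτ) _ (hpsi τ a ha) (hH a h)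
  rw [Cj_inv hc, AlgEquiv.mul_apply, AlgEquiv.mul_apply] at h1
  have h2 := congrArg c h1
  rwa [Cj_cc hc] at h2

end cj

/-- **Complex conjugation.** -/
theorem tCj : S_Ab → S_B1 → S_L2 → S_L5 → S_O3 → S_R1 → S_R4 → S_Cj := by
  rintro hAb hB1 hL2 hL5 hO3 hR1 ⟨hio, c, hc, hcc⟩
  refine ⟨c, hc, fun k _ => ?_⟩
  have hcc' : ∀ (k : ℕ) [SqK k] (b : Ideal (OO k)), b ≠ ⊥ →
      c (dO b) = (1 - 16 * dO (cjI b)) / 16 ∧
      ∀ z : ℂ, Tor k z → z ∉ Lam b → c (xO b z) = -xO (cjI b) ((starRingEnd ℂ) z) - 1 / 4 :=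
    fun k _ b hb => ⟨(hcc k b hb).1, (hcc k b hb).2.1⟩
  have hpsi : ∀ (N : ℕ), 0 < N → ∀ (τ : Gal(Om/ℚ)) (a : Ideal (OO k)), Psi τ N a →
      Psi (c * τ * c⁻¹) N (cjI a) :=
    fun N hN τ a ha => Cj_psi hc hB1 hL2 hL5 hO3 hR1 hio hcc' hN ha
  refine ⟨fun τ hτ => ⟨Cj_GK hc hτ, fun N a hN ha => hpsi N hN τ a ha⟩, Cj_or hc k, ?_⟩
  intro N H hN hray hcj g x hx
  rcases Cj_or hc k g with hg | hg
  · exact hAb k N H hN hray g hg x hx
  · have h6 := hAb k N H hN hray _ hg x hx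
    have h7 := Cj_fix hc (hpsi N hN) hcj h6
    rwa [AlgEquiv.mul_apply, Cj_cc hc] at h7

end Pool.Agent.DK.Eb
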