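import Pool.Agent.Lib.DK.E.SpecA

/-!
# Theorem DK, part E, module E10 (helper47): `S_E10`, assembly
-/

set_option autoImplicit false

noncomputable section

namespace Pool.Agent.DK

open Pool.Agent.MuZ Pool.Agent.FW NumberField IsDedekindDomain
open Pool.Agent.DI (io ofC io_inj exists_io io_ofC ofC_io VP MP UP TP ex sqr sqr_sq kap)

theorem sE10 (_hPsK : S_PsK) (hE10t : S_E10t) (hE10r : S_E10r) (hE10v : S_E10v) (hE10T : S_E10T) :
    S_E10 := by
  intro k _ τ N a hN hτ
  refine ⟨fun b hb => hE10t k τ N a hτ b hb, ?_, ?_⟩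
  · intro f hf h3 hfN
    refine ⟨fun b c hb hbf hc hcf => hE10r k τ N a hN hτ f hf h3 hfN b c hb hbf hc hcf, ?_, ?_⟩
    · exact (hE10v k τ N a hN hτ f hf h3 hfN).1
    · exact (hE10v k τ N a hN hτ f hf h3 hfN).2
  · exact hE10T k τ N a hN hτ

end Pool.Agent.DK
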