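import Pool.Agent.Lib.DK.E.SpecA

/-!
# E10T: the Galois action on `Theta` (helper50)
-/

set_option autoImplicit false

noncomputable section

namespace Pool.Agent.DK

open Pool.Agent.MuZ Pool.Agent.FW

/-- The Galois action on `Theta`. -/
theorem sE10T (_hO6 : S_O6) (_hL5 : S_L5) (hB14 : S_B14) (hD8 : S_D8) (hSyA : S_SyA) : S_E10T := by
  intro k _ τ N a hN hP m b hm hb hm2 hmN z hz
  have hab : a * b ≠ ⊥ := mul_ne_zero hP.ne hb
  obtain ⟨-, hNu, -, hHalf⟩ := hSyA k a b m N hP.ne hb hm hN hP.cop hmN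
  have hh := (hB14 k m b hm hb hm2).1
  rw [← (hD8 k m (a * b) hm hab hm2).1 (hs m b) (hHalf (hs m b) hh) z]
  unfold Theta
  rw [map_prod]
  refine Finset.prod_congr rfl (fun u hu => ?_)
  have hu1 : τ (xO b u) = xO (a * b) u := hP.xx b hb u (hNu u (hh.mem u hu).1)
  have hz1 : τ (xO b z) = xO (a * b) z := hP.xx b hb z hz
  unfold W2
  simp only [map_pow, map_mul, map_inv₀, map_sub, map_add, map_one, map_ofNat, hu1, hz1, hP.dd b hb]

end Pool.Agent.DK
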