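import Pool.Agent.Lib.DK.E.SpecA

/-!
# Theorem DK, part E, module `E10r`: Galois action on the quotient of the framings
-/

set_option autoImplicit false

open scoped Pointwise

noncomputable section

namespace Pool.Agent.DK

open Pool.Agent.MuZ Pool.Agent.FW NumberField
open Pool.Agent.DI (io ofC io_inj exists_io io_ofC ofC_io VP MP UP TP ex sqr sqr_sq kap)

private theorem E10r_quot {k : ℕ} [SqK k] (hR5 : S_R5) (f : ℕ) (hf : Odd f) (h3 : 3 ≤ f)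
    {b c d : Ideal (OO k)} (hb : b ≠ ⊥) (hc : c ≠ ⊥) (hd : d ≠ ⊥) (pb : PrI b f) (pc : PrI c f)
    (pd : PrI d f) : rO f b c = rO f b d / rO f c d := by
  have ht2 : PrI (⊤ : Ideal (OO k)) 2 := top_sup_eq _
  have htf : PrI (⊤ : Ideal (OO k)) f := top_sup_eq _
  obtain ⟨h1, h2, -⟩ := hR5 k f ⊤ b c hf h3 top_ne_bot hb hc ht2 htf pb pc
  obtain ⟨-, h4, -⟩ := hR5 k f ⊤ b d hf h3 top_ne_bot hb hd ht2 htf pb pd
  obtain ⟨h5, h6, -⟩ := hR5 k f ⊤ c d hf h3 top_ne_bot hc hd ht2 htf pc pd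
  obtain ⟨h7, -⟩ := hR5 k f ⊤ d d hf h3 top_ne_bot hd hd ht2 htf pd pd
  apply io_inj
  rw [map_div₀, h2, h4, h6]
  field_simp

theorem sE10r (hO2 : S_O2) (hO6 : S_O6) (hO7 : S_O7) (hR5 : S_R5) (hE1 : S_E1) (hPsK : S_PsK)
    (hEfr : S_Efr) (hEro : S_Ero) : S_E10r := by
  intro k _ τ N a hN hψ f hf h3 hfN b c hb pb hc pc
  obtain ⟨-, -, -, -, n5, n6, -⟩ := hO2 k
  obtain ⟨q1, q2, -⟩ := hO6 k
  have hne : ∀ x y : Ideal (OO k), x ≠ ⊥ → y ≠ ⊥ → x * y ≠ ⊥ := by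
    intro x y hx hy h
    have h0 := (n6 (x * y)).2 h
    rw [n5] at h0
    rcases mul_eq_zero.1 h0 with h0 | h0
    · exact hx ((n6 x).1 h0)
    · exact hy ((n6 y).1 h0)
  have hf0 : 0 < f := hf.pos
  have hNb : 0 < NI b := Nat.pos_of_ne_zero fun h => hb ((n6 b).1 h)
  have hNc : 0 < NI c := Nat.pos_of_ne_zero fun h => hc ((n6 c).1 h)
  set M : ℕ := 2 * f * NI b * NI c * N with hMdef
  have hM : 0 < M := by positivity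
  have hτ : τ ∈ GK k := hPsK k τ N a hψ
  obtain ⟨e1, -, -, -, e5⟩ := hE1 k M hM
  obtain ⟨a₁, ha₁⟩ := e1 τ hτ
  have hNM : N ∣ M := dvd_mul_left _ _
  have ha₁N : Psi τ N a₁ := e5 τ N a₁ ha₁ hNM
  have ha₁f : Psi τ f a₁ := e5 τ f a₁ ha₁ (hfN.trans hNM)
  obtain ⟨-, e2, -⟩ := hE1 k N hN
  have hray : Ray N a₁ a := e2 τ a₁ a ha₁N hψ
  obtain ⟨-, -, -, -, -, -, o7, -⟩ := hO7 k N hN
  have hrayf : Ray f a₁ a := o7 f a₁ a hfN hray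
  have paf : PrI a f := by
    obtain ⟨g, hg⟩ := hfN
    have h := hψ.cop
    rw [hg] at h
    exact ((q2 f g a).1 h).1
  have pa₁f : PrI a₁ f := ha₁f.cop
  have pcb : PrI (c * b) f := (q1 f c b).2 ⟨pc, pb⟩
  have hcb : c * b ≠ ⊥ := hne c b hc hb
  have hbM : 2 * f * NI c ∣ M := ⟨NI b * N, by rw [hMdef]; ring⟩
  have hcM : 2 * f * NI b ∣ M := ⟨NI c * N, by rw [hMdef]; ring⟩
  have t1 := hEro k f hf h3 τ M a₁ hM ha₁ b c hb hc pb pc hbM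
  have t2 := hEro k f hf h3 τ M a₁ hM ha₁ c b hc hb pc pb hcM
  rw [mul_comm b c] at t2
  have hab : a₁ * b ≠ ⊥ := hne _ _ ha₁.ne hb
  have hac : a₁ * c ≠ ⊥ := hne _ _ ha₁.ne hc
  have hacb : a₁ * (c * b) ≠ ⊥ := hne _ _ ha₁.ne hcb
  rw [E10r_quot hR5 f hf h3 hb hc hcb pb pc pcb, map_div₀, t1, t2,
    ← E10r_quot hR5 f hf h3 hab hac hacb ((q1 f _ _).2 ⟨pa₁f, pb⟩) ((q1 f _ _).2 ⟨pa₁f, pc⟩)
      ((q1 f _ _).2 ⟨pa₁f, pcb⟩)]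
  exact hEfr k f a₁ a hf h3 ha₁.ne hψ.ne pa₁f paf hrayf b c hb hc pb pc

end Pool.Agent.DK
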