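import Pool.Agent.Lib.DK.E.SpecA

/-!
# Theorem DK, module E10t: Galois action on the numbers `θ`
-/

set_option autoImplicit false

open scoped Pointwise nonZeroDivisors

noncomputable section

namespace Pool.Agent.DK

open Pool.Agent.MuZ Pool.Agent.FW NumberField IsDedekindDomain
open Pool.Agent.DI (io ofC io_inj exists_io io_ofC ofC_io VP MP UP TP ex sqr sqr_sq kap)

variable {k : ℕ}

private theorem E10t_ne [SqK k] (hA : S_AbQ) (h4 : S_O4) (hU : S_DUn) {b : Ideal (OO k)} (hb : b ≠ ⊥) :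
    1 + 16 * dO b ≠ 0 := by
  obtain ⟨-, -, hpp, -, -, -, -, hp0, -⟩ := h4 k
  obtain ⟨-, hex, -, -, hab, -⟩ := hA k
  obtain ⟨Q, hQ, hQp⟩ := hex (pp k) hpp hp0
  have hQ1 : AbP k Q := (hab Q).1.2 ⟨hQ, hQp⟩
  have hQ2 : ¬ AbPb k Q := fun h => (hab Q).2.2.1 ⟨hQ1, h⟩
  have : Q.IsPrime := hQ.1
  have hd : UP Q (dO b) := (hU k b hb Q hQ hQ2).1
  have h2 : MP Q (2 : Om) := hQ1.2.1
  intro h0
  have h8 : VP Q ((8 : ℕ) : Om) := DI.VP.nat 8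
  have h3 : MP Q (2 * (((8 : ℕ) : Om) * dO b)) := DI.MP.mul_right h2 (DI.VP.mul h8 hd.1)
  have h4 : (1 : Om) = -(2 * (((8 : ℕ) : Om) * dO b)) := by
    push_cast
    linear_combination h0
  apply DI.MP.one_not (P := Q)
  rw [h4]
  exact DI.MP.neg h3

private theorem E10t_eq [SqK k] (hA : S_AbQ) (h4 : S_O4) (hX : S_XOm) (hU : S_DUn) {b : Ideal (OO k)}
    (hb : b ≠ ⊥) : 1 - 8 * dO (ppb k * b) ≠ 0 ∧
      tO b = dO (ppb k * b) * (1 + 16 * dO b) / (1 - 8 * dO (ppb k * b)) := by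
  have hne := E10t_ne hA h4 hU hb
  obtain ⟨-, -, -, -, -, -, -, -, hpb0, -⟩ := h4 k
  have hbb : ppb k * b ≠ ⊥ := mul_ne_zero hpb0 hb
  obtain ⟨⟨-, -, -, -, -, -, ht, -, -⟩, -, -, -, -, -, ⟨-, hd, -⟩, -⟩ := hX k b hb
  have hd0 : dO (ppb k * b) ≠ 0 := (hX k (ppb k * b) hbb).1.2.2.2.2.2.2.2.1
  have e1 : tO b * (1 - 8 * dO (ppb k * b)) = dO (ppb k * b) * (1 + 16 * dO b) := by
    linear_combination (16 * dO (ppb k * b)) * ht - hd
  have e2 : 1 - 8 * dO (ppb k * b) ≠ 0 := by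
    intro h
    rw [h, mul_zero] at e1
    exact mul_ne_zero hd0 hne e1.symm
  exact ⟨e2, (eq_div_iff e2).2 e1⟩

theorem sE10t (hA : S_AbQ) (h4 : S_O4) (hX : S_XOm) (hU : S_DUn) : S_E10t := by
  intro k _ τ N a hP b hb
  obtain ⟨-, -, -, -, -, -, -, -, hpb0, -⟩ := h4 k
  have hbb : ppb k * b ≠ ⊥ := mul_ne_zero hpb0 hb
  have hab : a * b ≠ ⊥ := mul_ne_zero hP.ne hb
  obtain ⟨-, e1⟩ := E10t_eq hA h4 hX hU hb
  obtain ⟨-, e2⟩ := E10t_eq hA h4 hX hU hab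
  have e3 : ppb k * (a * b) = a * (ppb k * b) := mul_left_comm _ _ _
  rw [e1, e2, map_div₀, map_mul, map_sub, map_add, map_mul, map_mul, map_one, map_ofNat, map_ofNat,
    hP.dd b hb, hP.dd _ hbb, e3]

end Pool.Agent.DK
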