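import Pool.Agent.Lib.DK.E.SpecA

/-!
# Theorem DK, part E, module E10v: Galois action on `vO` and `gO`
-/

set_option autoImplicit false

open scoped Pointwise nonZeroDivisors

noncomputable section

namespace Pool.Agent.DK

open Pool.Agent.MuZ Pool.Agent.FW NumberField IsDedekindDomain
open Pool.Agent.DI (io ofC io_inj exists_io io_ofC ofC_io VP MP UP TP ex sqr sqr_sq kap)

variable {k : ℕ}

/-- Sums over half systems. -/
private theorem E10v_sum_half {m b : Ideal (OO k)} {S S' : Finset ℂ} (hS : IsHalf m b S)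
    (hS' : IsHalf m b S') (F : ℂ → Om)
    (hF : ∀ z ∈ Lam (m * b), F (-z) = F z ∧ ∀ l ∈ Lam b, F (z + l) = F z)
    (hneg : ∀ z ∈ Lam (m * b), -z ∈ Lam (m * b)) : ∑ u ∈ S, F u = ∑ u ∈ S', F u := by
  classical
  have hex : ∀ u ∈ S, ∃ u' ∈ S', u - u' ∈ Lam b ∨ u + u' ∈ Lam b := fun u hu =>
    hS'.ex u (hS.mem u hu).1 (hS.mem u hu).2
  choose! g hg1 hg2 using hex
  refine Finset.sum_bij (fun u _ => g u) (fun u hu => hg1 u hu) ?_ ?_ ?_
  · intro u hu v hv huv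
    have h1 := hg2 u hu
    have h2 := hg2 v hv
    rw [huv] at h1
    apply hS.uni u hu v hv
    rcases h1 with h1 | h1 <;> rcases h2 with h2 | h2
    · left
      have := lam_sub h1 h2
      rwa [sub_sub_sub_cancel_right] at this
    · right
      have := lam_add h1 h2
      have e : u - g v + (v + g v) = u + v := by ring
      rwa [e] at this
    · right
      have := lam_add h1 h2
      have e : u + g v + (v - g v) = u + v := by ring
      rwa [e] at this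
    · left
      have := lam_sub h1 h2
      have e : u + g v - (v + g v) = u - v := by ring
      rwa [e] at this
  · intro v hv
    obtain ⟨u, hu, h1⟩ := hS.ex v (hS'.mem v hv).1 (hS'.mem v hv).2
    refine ⟨u, hu, ?_⟩
    have h2 := hg2 u hu
    apply hS'.uni _ (hg1 u hu) v hv
    rcases h1 with h1 | h1 <;> rcases h2 with h2 | h2
    · left
      have := lam_neg (lam_add h1 h2)
      have e : -(v - u + (u - g u)) = g u - v := by ring
      rwa [e] at this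
    · right
      have := lam_add h1 h2
      have e : v - u + (u + g u) = g u + v := by ring
      rwa [e] at this
    · right
      have := lam_sub h1 h2
      have e : v + u - (u - g u) = g u + v := by ring
      rwa [e] at this
    · left
      have := lam_sub h2 h1
      have e : u + g u - (v + u) = g u - v := by ring
      rwa [e] at this
  · intro u hu
    have hm := (hS'.mem _ (hg1 u hu)).1
    rcases hg2 u hu with h | h
    · have e : u = g u + (u - g u) := by ring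
      conv_lhs => rw [e]
      exact (hF _ hm).2 _ h
    · have e : u = -g u + (u + g u) := by ring
      conv_lhs => rw [e]
      rw [(hF _ (hneg _ hm)).2 _ h, (hF _ hm).1]

/-- `dO b` and `DC b`. -/
private theorem E10v_io_dO [SqK k] (hB1 : S_B1) (hR4 : S_R4) (b : Ideal (OO k)) (hb : b ≠ ⊥) :
    io (dO b) = DC b := by
  have h1 := hR4.1 k b hb 0 tor_zero
  have h2 := ((hB1 k b hb).2.2.2.2.2.2.2.2.1 0 (lam_zero b)).1
  rw [h2] at h1
  have h3 : DC b = io ((-12 * xO b 0 - 1) / 16) := by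
    rw [map_div₀, map_sub, map_mul, map_neg, map_one, map_ofNat, map_ofNat, h1]
    ring
  unfold dO
  rw [h3, ofC_io]

/-- The value of `nO`. -/
private theorem E10v_nO [SqK k] (hB1 : S_B1) (hB12 : S_B12) (hR4 : S_R4) (f : ℕ) (b : Ideal (OO k))
    (hf : Odd f) (hf3 : 3 ≤ f) (hb : b ≠ ⊥) (hbf : PrI b f) :
    fr f b * wdC b (1 / f) = s2 b ^ 2 * io (nO f b) := by
  have hp : Tor k (1 / f : ℂ) := ⟨1, f, by omega, by rw [toC_one]⟩
  rw [(hB12 k f b hf hf3 hb hbf).2.1]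
  unfold nO
  simp only [map_add, map_mul, map_pow, map_one, map_ofNat]
  rw [hR4.1 k b hb _ hp, E10v_io_dO hB1 hR4 b hb]

/-- The square of `wdC` at `1 / f`. -/
private theorem E10v_W2 [SqK k] (hB1 : S_B1) (hB2 : S_B2) (hR4 : S_R4) (hR5b : S_R5b) (f : ℕ)
    (b : Ideal (OO k)) (hf : Odd f) (hf3 : 3 ≤ f) (hb : b ≠ ⊥) (hbf : PrI b f) :
    wdC b (1 / f) ^ 2 = s2 b ^ 3 * io (W2 b (1 / f)) := by
  have hp : Tor k (1 / f : ℂ) := ⟨1, f, by omega, by rw [toC_one]⟩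
  have h2 : (1 / f : ℂ) ∉ Lam b := by
    intro h
    apply (hR5b k f b hf hf3 hb hbf).1
    rw [two_mul]
    exact lam_add h h
  rw [(hB2 k b hb _ h2).1]
  unfold W2
  simp only [map_add, map_mul, map_one, map_ofNat]
  rw [hR4.1 k b hb _ hp, E10v_io_dO hB1 hR4 b hb]

/-- `vO` in terms of `EWO`. -/
private theorem E10v_vO [SqK k] (hB1 : S_B1) (hB2 : S_B2) (hB12 : S_B12) (hR4 : S_R4) (hR5 : S_R5)
    (hR5b : S_R5b) (hEWg : S_EWg) (f : ℕ) (b : Ideal (OO k)) (hf : Odd f) (hf3 : 3 ≤ f) (hb : b ≠ ⊥)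
    (hbf : PrI b f) (z : ℂ) (hz : Tor k z) :
    vO f b z = EWO f b z * W2 b (1 / f) / nO f b ^ 3 := by
  have htop : ∀ n : ℕ, PrI (⊤ : Ideal (OO k)) n := fun n => top_sup_eq _
  have h1 := ((hR5 k f ⊤ b b hf hf3 top_ne_bot hb hb (htop 2) (htop f) hbf hbf).2.2 z hz).1
  have h2 := (hEWg k f hf hf3).1 b z hb hbf hz
  have h3 := E10v_nO hB1 hB12 hR4 f b hf hf3 hb hbf
  have h4 := E10v_W2 hB1 hB2 hR4 hR5b f b hf hf3 hb hbf
  have hfr : fr f b ≠ 0 := (hR5b k f b hf hf3 hb hbf).2.2.2.1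
  have hwd : wdC b (1 / f) ≠ 0 := (hB12 k f b hf hf3 hb hbf).1
  have hs2 : s2 b ≠ 0 := (hB1 k b hb).2.2.1
  have hn : io (nO f b) = fr f b * wdC b (1 / f) / s2 b ^ 2 := by
    rw [h3]
    field_simp
  have hW : io (W2 b (1 / f)) = wdC b (1 / f) ^ 2 / s2 b ^ 3 := by
    rw [h4]
    field_simp
  apply io_inj
  rw [h1, map_div₀, map_mul, map_pow, h2, hn, hW]
  field_simp

/-- `gO` in terms of `EWO`. -/
private theorem E10v_gO [SqK k] (hB1 : S_B1) (hB11 : S_B11) (hB12 : S_B12)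
    (hB14 : S_B14) (hR4 : S_R4) (hR5 : S_R5) (hR5b : S_R5b) (hEWg : S_EWg) (f : ℕ)
    (m b : Ideal (OO k)) (hf : Odd f) (hf3 : 3 ≤ f) (hm : m ≠ ⊥) (hb : b ≠ ⊥) (hm2 : PrI m 2)
    (hmf : PrI m f) (hbf : PrI b f) (z : ℂ) (hz : Tor k z) (hzm : z ∉ Lam (m * b)) :
    gO f m b z = ∑ u ∈ hs m b, EWO f b z / nO f b * (xO b z - xO b u)⁻¹ := by
  have h1 := ((hR5 k f m b b hf hf3 hm hb hb hm2 hmf hbf hbf).2.2 z hz).2 hzm
  have h2 := (hEWg k f hf hf3).1 b z hb hbf hz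
  have h3 := E10v_nO hB1 hB12 hR4 f b hf hf3 hb hbf
  have hfr : fr f b ≠ 0 := (hR5b k f b hf hf3 hb hbf).2.2.2.1
  have hwd : wdC b (1 / f) ≠ 0 := (hB12 k f b hf hf3 hb hbf).1
  have hs2 : s2 b ≠ 0 := (hB1 k b hb).2.2.1
  have hn : io (nO f b) = fr f b * wdC b (1 / f) / s2 b ^ 2 := by
    rw [h3]
    field_simp
  apply io_inj
  rw [h1, hB11 k f m b hf hf3 hm hb hm2 hbf z hzm, map_sum]
  refine Finset.sum_congr rfl fun u hu => ?_
  have hu' : Tor k u := tor_lam (mul_ne_zero hm hb) ((hB14 k m b hm hb hm2).1.mem u hu).1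
  rw [map_mul, map_div₀, map_inv₀, map_sub, h2, hn, hR4.1 k b hb z hz, hR4.1 k b hb u hu']
  field_simp

theorem sE10v (hO2 : S_O2) (hO6 : S_O6) (hL5 : S_L5) (hB1 : S_B1) (hB2 : S_B2) (hB11 : S_B11)
    (hB12 : S_B12) (hB14 : S_B14) (hR4 : S_R4) (hR5 : S_R5) (hR5b : S_R5b) (hXOm : S_XOm)
    (hHsP : S_HsP) (hSyA : S_SyA) (hEWg : S_EWg) : S_E10v := by
  intro k _ τ N a hN hψ f hf hf3 hfN
  have hNpos : N ≠ 0 := hN.ne'
  have haf : PrI a f := by
    obtain ⟨n', hn'⟩ := hfN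
    exact (((hO6 k).2.1 f n' a).1 (by rw [← hn']; exact hψ.cop)).1
  have hab : ∀ b : Ideal (OO k), b ≠ ⊥ → a * b ≠ ⊥ := fun b hb => mul_ne_zero hψ.ne hb
  have habf : ∀ b : Ideal (OO k), PrI b f → PrI (a * b) f := fun b hbf =>
    ((hO6 k).1 f a b).2 ⟨haf, hbf⟩
  have htor : ∀ (b : Ideal (OO k)) (z : ℂ), b ≠ ⊥ → (N : ℂ) * z ∈ Lam b → Tor k z :=
    fun b z hb hz => (tor_iff hb).2 ⟨N, hN, hz⟩
  refine ⟨?_, ?_⟩
  · intro b hb hbf z hz
    have ht := htor b z hb hz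
    rw [E10v_vO hB1 hB2 hB12 hR4 hR5 hR5b hEWg f b hf hf3 hb hbf z ht,
      E10v_vO hB1 hB2 hB12 hR4 hR5 hR5b hEWg f (a * b) hf hf3 (hab b hb) (habf b hbf) z ht]
    obtain ⟨h1, h2, h3⟩ := (hEWg k f hf hf3).2 τ N a hN hψ hfN b hb hbf
    rw [map_div₀, map_mul, map_pow, h1 z hz, h2, h3]
  · intro m b hm hb hm2 hmf hbf hmN z hz hzm
    have ht := htor b z hb hz
    have hzm' : z ∉ Lam (m * (a * b)) := by
      intro h
      apply hzm
      rw [mul_left_comm] at h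
      exact (hL5 k a (m * b) N hψ.ne (mul_ne_zero hm hb) hN hψ.cop).1 z (lam_mono hz) h
    rw [E10v_gO hB1 hB11 hB12 hB14 hR4 hR5 hR5b hEWg f m b hf hf3 hm hb hm2 hmf hbf z ht hzm,
      E10v_gO hB1 hB11 hB12 hB14 hR4 hR5 hR5b hEWg f m (a * b) hf hf3 hm (hab b hb) hm2 hmf
        (habf b hbf) z ht hzm']
    obtain ⟨h1, h2, -⟩ := (hEWg k f hf hf3).2 τ N a hN hψ hfN b hb hbf
    obtain ⟨-, hsy, -, hsy'⟩ := hSyA k a b m N hψ.ne hb hm hN hψ.cop hmN
    have hh := (hB14 k m b hm hb hm2).1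
    have hh' := (hB14 k m (a * b) hm (hab b hb) hm2).1
    rw [map_sum]
    have e1 : ∑ u ∈ hs m b, τ (EWO f b z / nO f b * (xO b z - xO b u)⁻¹) =
        ∑ u ∈ hs m b, EWO f (a * b) z / nO f (a * b) * (xO (a * b) z - xO (a * b) u)⁻¹ := by
      refine Finset.sum_congr rfl fun u hu => ?_
      rw [map_mul, map_div₀, map_inv₀, map_sub, h1 z hz, h2, hψ.xx b hb z hz,
        hψ.xx b hb u (hsy u (hh.mem u hu).1)]
    rw [e1]
    obtain ⟨⟨hper, heven, -⟩, -⟩ := hXOm k (a * b) (hab b hb)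
    refine E10v_sum_half (hsy' _ hh) hh' _ ?_ fun z hz => lam_neg hz
    intro y _
    refine ⟨by rw [heven], fun l hl => by rw [hper y l hl]⟩

end Pool.Agent.DK
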