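import Pool.Agent.Lib.DK.E.SpecA

/-!
# Theorem DK, part E: Frobenius elements at almost all degree one primes (`S_E2`)

Let `A` be the finite set of all conjugates of the numbers `dO b`, `xO b z` (`N z ∈ Lam b`). Modulo a prime `Q`
above an odd degree one prime `q` which does not divide `N` and at which the elements of `A` are incongruent, the
Frobenius congruence and Kronecker congruence give `τ (dO b) = dO (q b)` and `τ (xO b z) = xO (q b) z`.
-/

set_option autoImplicit false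

open scoped Pointwise nonZeroDivisors

noncomputable section

namespace Pool.Agent.DK

open Pool.Agent.MuZ Pool.Agent.FW NumberField IsDedekindDomain
open Pool.Agent.DI (io ofC io_inj exists_io io_ofC ofC_io VP MP UP TP ex sqr sqr_sq kap)

/-- The conjugates of the elements of a finite set: a finite set, stable under the Galois group. -/
private theorem E2_conj (A : Set Om) (hA : A.Finite) :
    ∃ A' : Set Om, A'.Finite ∧ A ⊆ A' ∧ ∀ (τ : Gal(Om/ℚ)), ∀ x ∈ A, τ x ∈ A' := by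
  have hx0 : ∀ x : Om, minpoly ℚ x ≠ 0 := fun x =>
    minpoly.ne_zero (Algebra.IsAlgebraic.isAlgebraic x).isIntegral
  refine ⟨⋃ x ∈ A, (minpoly ℚ x).rootSet Om, hA.biUnion fun x _ => (minpoly ℚ x).rootSet_finite Om,
    ?_, ?_⟩
  · intro x hx
    rw [Set.mem_iUnion₂]
    refine ⟨x, hx, ?_⟩
    rw [Polynomial.mem_rootSet]
    exact ⟨hx0 x, minpoly.aeval ℚ x⟩
  · intro τ x hx
    rw [Set.mem_iUnion₂]
    refine ⟨x, hx, ?_⟩
    rw [Polynomial.mem_rootSet]
    refine ⟨hx0 x, ?_⟩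
    have h1 : Polynomial.aeval (τ x) (minpoly ℚ x) = τ (Polynomial.aeval x (minpoly ℚ x)) :=
      Polynomial.aeval_algHom_apply (τ : Om →ₐ[ℚ] Om) x (minpoly ℚ x)
    rw [h1, minpoly.aeval, map_zero]

/-- **Frobenius elements at almost all degree one primes.** -/
theorem sE2 (hO6 : S_O6) (hX : S_XOm) (hQ : S_AbQ) (hD1 : S_D1) (hD3 : S_D3) (hFN : S_FN)
    (hInc : S_Inc) : S_E2 := by
  intro k _ N hN
  obtain ⟨A₀, hA₀, hAd, hAx⟩ := hFN k N hN
  obtain ⟨A, hA, hsub, hstab⟩ := E2_conj A₀ hA₀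
  obtain ⟨B', hB', hI⟩ := hInc A hA
  refine ⟨2 * N * B', Nat.mul_pos (Nat.mul_pos two_pos hN) hB', ?_⟩
  intro q l hq hl Q hNQ hab τ _ hFr
  have hpr : Q.IsPrime := hNQ.1
  have hl1 : l.Coprime (2 * N) := Nat.Coprime.coprime_mul_right_right hl
  have hlB : l.Coprime B' := Nat.Coprime.coprime_mul_left_right hl
  have hlN : l.Coprime N := Nat.Coprime.coprime_mul_left_right hl1
  have hl2c : l.Coprime 2 := Nat.Coprime.coprime_mul_right_right hl1
  have hlp : l.Prime := hq.2.2.1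
  have hl2 : l ≠ 2 := by
    rintro rfl
    exact absurd hl2c (by decide)
  obtain ⟨hMl, hUn⟩ := (hQ k).2.2.2.2.2 Q q l hNQ hq hab
  have hnd : ∀ n : ℕ, l.Coprime n → UP Q (n : Om) := by
    intro n hn
    have h1 : ¬ (l : ℤ) ∣ (n : ℤ) := by
      intro h
      have h2 : l ∣ n := by exact_mod_cast h
      exact hlp.one_lt.ne' (Nat.Coprime.eq_one_of_dvd hn h2)
    have h3 := hUn n h1
    rwa [Int.cast_natCast] at h3
  have hPb : ¬ AbPb k Q := by
    intro h
    have h2 : MP Q 2 := h.2.1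
    have h3 := (hnd 2 hl2c).2
    rw [Nat.cast_ofNat] at h3
    exact h3 h2
  obtain ⟨hV, hE⟩ := hI Q l hNQ hMl hlB
  have hqb : ∀ b : Ideal (OO k), b ≠ ⊥ → q * b ≠ ⊥ := fun b hb => mul_ne_zero hq.2.1 hb
  -- the common argument
  have key : ∀ x ∈ A₀, ∀ y ∈ A₀, MP Q (y - x ^ l) → τ x = y := by
    intro x hx y hy h
    refine hE (τ x) (hstab τ x hx) y (hsub hy) ?_
    have h1 : MP Q (τ x - x ^ l) := DI.VP.frob hFr (hV x (hsub hx))
    have h2 := DI.MP.sub h1 h
    have e : τ x - y = τ x - x ^ l - (y - x ^ l) := by ring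
    rw [e]
    exact h2
  have hdd : ∀ b : Ideal (OO k), b ≠ ⊥ → τ (dO b) = dO (q * b) := fun b hb =>
    key _ (hAd b hb) _ (hAd _ (hqb b hb)) (hD3 k q l hq hl2 Q hNQ hab b hb).2.1
  refine ⟨hq.2.1, ?_, hdd, ?_⟩
  · rw [(hO6 k).2.2.1 N q hN, hq.2.2.2]
    exact hlN
  · intro b hb z hz
    by_cases hzb : z ∈ Lam b
    · have h1 := (hX k b hb).1.2.2.1 z hzb
      have h2 := (hX k (q * b) (hqb b hb)).1.2.2.1 z (lam_mono hzb)
      rw [h1, h2, ← hdd b hb, map_div₀, map_neg, map_add, map_mul, map_one, map_ofNat, map_ofNat]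
    · have hTz : Tor k z := (tor_iff hb).2 ⟨N, hN, hz⟩
      have hK : ¬ IK Q b z := by
        intro h
        have h1 : Qp Q b z := (hD1 k b hb Q hNQ hPb).2.2.2.2.1 z h
        have h2 : toC (1 : OO k) * z ∈ Lam b := by
          refine h1 (N : OO k) 1 ?_ ?_
          · rw [toO_nat]
            exact (hnd N hlN).2
          · rw [mul_one, toC_nat]
            exact hz
        rw [toC_one, one_mul] at h2
        exact hzb h2
      exact key _ (hAx b hb z hz) _ (hAx _ (hqb b hb) z (lam_mono hz))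
        ((hD3 k q l hq hl2 Q hNQ hab b hb).2.2 z hTz hK).2

end Pool.Agent.DK
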