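import Pool.Agent.Lib.DK.E.SpecA

/-!
# Theorem DK, part E, module E3: Frobenius elements above `2`
-/

set_option autoImplicit false

open scoped Pointwise nonZeroDivisors

noncomputable section

namespace Pool.Agent.DK

open Pool.Agent.MuZ Pool.Agent.FW NumberField IsDedekindDomain
open Pool.Agent.DI (io ofC io_inj exists_io io_ofC ofC_io VP MP UP TP ex sqr sqr_sq kap)

variable {k : ℕ}

/-- An odd number is a unit above `2`. -/
private theorem E3_odd {P : Ideal ZZ} [hP : P.IsPrime] (h2 : MP P 2) {N : ℕ} (hN : Odd N) :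
    ¬ MP P (N : Om) := by
  intro h
  obtain ⟨j, rfl⟩ := hN
  have h1 : MP P (2 * (j : Om)) := DI.MP.mul_right h2 (DI.VP.nat j)
  have h3 : MP P (1 : Om) := by
    have h4 := h.sub h1
    push_cast at h4
    rwa [add_sub_cancel_left] at h4
  exact DI.MP.one_not h3

/-- A torsion point of odd order is not in the kernel of reduction. -/
private theorem E3_not_IK (hD1 : S_D1) [SqK k] {P : Ideal ZZ} (hP : AbP k P) (hPb : ¬ AbPb k P)
    {b : Ideal (OO k)} (hb : b ≠ ⊥) {N : ℕ} (hN : Odd N) {z : ℂ} (hz : (N : ℂ) * z ∈ Lam b)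
    (hzb : z ∉ Lam b) : ¬ IK P b z := by
  intro h
  have := hP.1.1
  have h1 : Qp P b z := (hD1 k b hb P hP.1 hPb).2.2.2.2.1 z h
  have h2 : ¬ MP P (toO (N : OO k)) := by
    rw [toO_nat]
    exact E3_odd hP.2.1 hN
  have h3 := h1 (N : OO k) 1 h2 (by rw [mul_one, toC_nat]; exact hz)
  rw [toC_one, one_mul] at h3
  exact hzb h3

/-- The case of a prime above `pp`. -/
private theorem E3_core (hO4 : S_O4) (hO6 : S_O6) (hR2 : S_R2) (hD1 : S_D1) (hD2 : S_D2)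
    (hExA : S_ExA) (hE34 : S_E34) [SqK k] {P : Ideal ZZ} (hP : AbP k P) (hPb : ¬ AbPb k P)
    {τ : Gal(Om/ℚ)} (hτ : τ ∈ GK k) (hF : Fro P 2 τ) {N : ℕ} (hN : Odd N) : Psi τ N (pp k) := by
  have := hP.1.1
  have hN0 : 0 < N := hN.pos
  obtain ⟨a, ha⟩ := hExA k N hN0 τ hτ
  have hpp : pp k ≠ ⊥ := (hO4 k).2.2.2.2.2.2.2.1
  have hNI : NI (pp k) = 2 := (hO4 k).2.2.2.2.1
  have hpr : PrI (pp k) N := by
    rw [(hO6 k).2.2.1 N (pp k) hN0, hNI]
    exact (Nat.coprime_two_left).2 hN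
  obtain ⟨h1, h2⟩ := hE34 k P hP a (pp k) N ha.ne hpp hN ha.cop hpr
    (fun b hb => by
      obtain ⟨-, hR, -⟩ := hR2 k b hb P hP.1
      obtain ⟨hu, -, -, hd⟩ := hR hP
      have h3 : MP P (τ (dO b) - dO b ^ 2) := DI.VP.frob hF hu.1
      have h4 := h3.sub hd
      rw [← ha.dd b hb]
      have e : τ (dO b) - dO (pp k * b) = τ (dO b) - dO b ^ 2 - (dO (pp k * b) - dO b ^ 2) := by ring
      rw [e]
      exact h4)
    (fun b hb z hz hzb => by
      have htor : Tor k z := (tor_iff hb).2 ⟨N, hN0, hz⟩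
      have hik : ¬ IK P b z := E3_not_IK hD1 hP hPb hb hN hz hzb
      have hv : VP P (xO b z) := by
        by_contra h
        exact hik ⟨htor, Or.inr h⟩
      have h3 : MP P (τ (xO b z) - xO b z ^ 2) := DI.VP.frob hF hv
      have h4 := h3.sub ((hD2 k b hb P hP).2.2.2.1 z htor hik).2
      rw [← ha.xx b hb z hz]
      have e : τ (xO b z) - xO (pp k * b) z =
          τ (xO b z) - xO b z ^ 2 - (xO (pp k * b) z - xO b z ^ 2) := by ring
      rw [e]
      exact h4)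
  exact
    { ne := hpp
      cop := hpr
      dd := fun b hb => (ha.dd b hb).trans (h1 b hb)
      xx := fun b hb z hz => (ha.xx b hb z hz).trans (h2 b hb z hz) }

theorem sE3 (_hO3 : S_O3) (hO4 : S_O4) (hO6 : S_O6) (hR2 : S_R2) (hR4 : S_R4) (hAbQ : S_AbQ)
    (_hXOm : S_XOm) (hD1 : S_D1) (hD2 : S_D2) (_hQpC : S_QpC) (hExA : S_ExA) (hE34 : S_E34)
    (hPsC : S_PsC) : S_E3 := by
  intro k _ P τ hτ hF N hN
  refine ⟨fun h => ?_, fun h => ?_⟩
  · exact E3_core hO4 hO6 hR2 hD1 hD2 hExA hE34 h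
      (fun h' => ((hAbQ k).2.2.2.2.1 P).2.2.1 ⟨h, h'⟩) hτ hF hN
  · obtain ⟨-, c, hc, hc2⟩ := hR4
    have hcQ : AbP k (c • P) := (hc2 k ⊤ top_ne_bot).2.2.2 P h
    have hcQb : ¬ AbPb k (c • P) := fun h' => ((hAbQ k).2.2.2.2.1 (c • P)).2.2.1 ⟨hcQ, h'⟩
    obtain ⟨p1, p2, -, p4⟩ := hPsC k c hc
    have h1 : Psi (c * τ * c⁻¹) N (pp k) :=
      E3_core hO4 hO6 hR2 hD1 hD2 hExA hE34 hcQ hcQb (p4 τ hτ) (p2 P 2 τ hF) hN
    have h2 := p1 _ N (pp k) hN.pos h1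
    have hcc : c * c = 1 := by
      ext x
      apply io_inj
      rw [AlgEquiv.mul_apply, hc, hc, Complex.conj_conj]
      rfl
    have h3 : c * (c * τ * c⁻¹) * c⁻¹ = τ := by
      have hci : c⁻¹ = c := inv_eq_of_mul_eq_one_left hcc
      rw [hci, ← mul_assoc, ← mul_assoc, hcc, one_mul, mul_assoc, hcc, mul_one]
    rwa [h3, (hO4 k).2.1] at h2

end Pool.Agent.DK
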