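import Pool.Agent.Lib.DK.E.SpecA

/-!
# Theorem DK, part E, module E4: assembly of `S_E4`
-/

set_option autoImplicit false

noncomputable section

namespace Pool.Agent.DK

theorem sE4 (h1 : S_E4a) (h2 : S_E4b) : S_E4 := fun k _ Q hQ τ hτ hi =>
  ⟨fun h2Q => h1 k Q hQ h2Q τ hτ hi, h2 k Q hQ τ hτ hi⟩

end Pool.Agent.DK
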