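import Pool.Agent.Lib.DK.E.SpecA

/-!
# Theorem DK, part E, module E4a: inertia above `2`
-/

set_option autoImplicit false

open scoped Pointwise nonZeroDivisors

noncomputable section

namespace Pool.Agent.DK

open Pool.Agent.MuZ Pool.Agent.FW NumberField IsDedekindDomain
open Pool.Agent.DI (io ofC io_inj exists_io io_ofC ofC_io VP MP UP TP ex sqr sqr_sq kap)

variable {k : ℕ}

/-- An odd number is a unit above `2`. -/
private theorem E4a_odd {P : Ideal ZZ} [hP : P.IsPrime] (h2 : MP P 2) {N : ℕ} (hN : Odd N) :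
    ¬ MP P (N : Om) := by
  intro h
  obtain ⟨j, rfl⟩ := hN
  have h1 : MP P (2 * (j : Om)) := DI.MP.mul_right h2 (DI.VP.nat j)
  have h3 : MP P (1 : Om) := by
    have h4 := h.sub h1
    push_cast at h4
    rwa [add_sub_cancel_left] at h4
  exact DI.MP.one_not h3

/-- A torsion point of odd order is not in the kernel of reduction. -/
private theorem E4a_not_IK (hD1 : S_D1) [SqK k] {P : Ideal ZZ} (hP : AbP k P) (hPb : ¬ AbPb k P)
    {b : Ideal (OO k)} (hb : b ≠ ⊥) {N : ℕ} (hN : Odd N) {z : ℂ} (hz : (N : ℂ) * z ∈ Lam b)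
    (hzb : z ∉ Lam b) : ¬ IK P b z := by
  intro h
  have := hP.1.1
  have h1 : Qp P b z := (hD1 k b hb P hP.1 hPb).2.2.2.2.1 z h
  have h2 : ¬ MP P (toO (N : OO k)) := by
    rw [toO_nat]
    exact E4a_odd hP.2.1 hN
  have h3 := h1 (N : OO k) 1 h2 (by rw [mul_one, toC_nat]; exact hz)
  rw [toC_one, one_mul] at h3
  exact hzb h3

/-- The case of a prime above `pp`. -/
private theorem E4a_core (hDUn : S_DUn) (hD1 : S_D1) (hExA : S_ExA) (hE34 : S_E34) [SqK k]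
    {P : Ideal ZZ} (hP : AbP k P) (hPb : ¬ AbPb k P) {τ : Gal(Om/ℚ)} (hτ : τ ∈ GK k)
    (hι : τ ∈ P.inertia Gal(Om/ℚ)) {N : ℕ} (hN : Odd N) : Psi τ N (⊤ : Ideal (OO k)) := by
  have := hP.1.1
  have hN0 : 0 < N := hN.pos
  obtain ⟨a, ha⟩ := hExA k N hN0 τ hτ
  have htop : (⊤ : Ideal (OO k)) ≠ ⊥ := top_ne_bot
  have hptop : PrI (⊤ : Ideal (OO k)) N := top_sup_eq _
  obtain ⟨h1, h2⟩ := hE34 k P hP a ⊤ N ha.ne htop hN ha.cop hptop
    (fun b hb => by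
      rw [← ha.dd b hb, Ideal.top_mul]
      exact DI.VP.inertia hι (hDUn k b hb P hP.1 hPb).1.1)
    (fun b hb z hz hzb => by
      rw [← ha.xx b hb z hz, Ideal.top_mul]
      refine DI.VP.inertia hι ?_
      by_contra h
      exact E4a_not_IK hD1 hP hPb hb hN hz hzb ⟨(tor_iff hb).2 ⟨N, hN0, hz⟩, Or.inr h⟩)
  exact
    { ne := htop
      cop := hptop
      dd := fun b hb => (ha.dd b hb).trans (h1 b hb)
      xx := fun b hb z hz => (ha.xx b hb z hz).trans (h2 b hb z hz) }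

theorem sE4a (hO3 : S_O3) (_hR2 : S_R2) (hR4 : S_R4) (hAbQ : S_AbQ) (_hXOm : S_XOm) (hDUn : S_DUn)
    (hD1 : S_D1) (_hQpC : S_QpC) (hExA : S_ExA) (hE34 : S_E34) (hPsC : S_PsC) : S_E4a := by
  intro k _ Q hQ hQ2 τ hτ hι N hN
  obtain ⟨hA, hB, hAB, hor⟩ := (hAbQ k).2.2.2.2.1 Q
  rcases hor hQ hQ2 with h | h
  · exact E4a_core hDUn hD1 hExA hE34 h (fun h' => hAB ⟨h, h'⟩) hτ hι hN
  · obtain ⟨-, c, hc, hc2⟩ := hR4
    have hcQ : AbP k (c • Q) := (hc2 k ⊤ top_ne_bot).2.2.2 Q h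
    have hcQb : ¬ AbPb k (c • Q) := fun h' => ((hAbQ k).2.2.2.2.1 (c • Q)).2.2.1 ⟨hcQ, h'⟩
    obtain ⟨p1, -, p3, p4⟩ := hPsC k c hc
    have h1 : Psi (c * τ * c⁻¹) N (⊤ : Ideal (OO k)) :=
      E4a_core hDUn hD1 hExA hE34 hcQ hcQb (p4 τ hτ) (p3 Q τ hι) hN
    have h2 := p1 _ N ⊤ hN.pos h1
    have hcc : c * c = 1 := by
      ext x
      apply io_inj
      rw [AlgEquiv.mul_apply, hc, hc, Complex.conj_conj]
      rfl
    have h3 : c * (c * τ * c⁻¹) * c⁻¹ = τ := by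
      have hci : c⁻¹ = c := inv_eq_of_mul_eq_one_left hcc
      rw [hci, ← mul_assoc, ← mul_assoc, hcc, one_mul, mul_assoc, hcc, mul_one]
    have h4 : cjI (⊤ : Ideal (OO k)) = ⊤ := by
      rw [eq_top_iff]
      intro v _
      exact ((hO3 k).1 ⊤ v).2 trivial
    rwa [h3, h4] at h2

end Pool.Agent.DK
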