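import Pool.Agent.Lib.DK.E.SpecA

/-!
# Theorem DK, part E, module E4b: inertia and the torsion prime to `Q`
-/

set_option autoImplicit false

open scoped Pointwise nonZeroDivisors

noncomputable section

namespace Pool.Agent.DK

open Pool.Agent.MuZ Pool.Agent.FW NumberField IsDedekindDomain
open Pool.Agent.DI (io ofC io_inj exists_io io_ofC ofC_io VP MP UP TP ex sqr sqr_sq kap)

private theorem E4b_bot {k : ℕ} [SqK k] (hO3 : S_O3) {b : Ideal (OO k)} (hb : b ≠ ⊥) : cjI b ≠ ⊥ := by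
  intro h
  obtain ⟨v, hv, hv0⟩ := Submodule.exists_mem_ne_zero_of_ne_bot hb
  have h1 : cjO v ∈ cjI b := by
    rw [(hO3 k).1, cjO_cjO]
    exact hv
  rw [h, Submodule.mem_bot] at h1
  apply hv0
  rw [← cjO_cjO v, h1, cjO_zero]

private theorem E4b_mul {k : ℕ} [SqK k] {a b : Ideal (OO k)} (ha : a ≠ ⊥) (hb : b ≠ ⊥) : a * b ≠ ⊥ :=
  fun h => (Ideal.mul_eq_bot.1 h).elim ha hb

/-- Lattice points. -/
private theorem E4b_in {k : ℕ} [SqK k] (hX : S_XOm) {b : Ideal (OO k)} (hb : b ≠ ⊥) (v : OO k)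
    {z : ℂ} (hz : z ∈ Lam b) : xO b (toC v * z) = xO b z := by
  obtain ⟨⟨-, -, h3, -⟩, -⟩ := hX k b hb
  rw [h3 z hz, h3 _ (lam_mul v hz)]

private theorem E4b_out {k : ℕ} [SqK k] (hL5 : S_L5) {b : Ideal (OO k)} (hb : b ≠ ⊥) {v : OO k}
    {N : ℕ} (hN : 0 < N) {τ : Gal(Om/ℚ)} (hPsi : Psi τ N (sp v)) {z : ℂ} (hNz : (N : ℂ) * z ∈ Lam b)
    (hz : z ∉ Lam b) : toC v * z ∉ Lam b := by
  intro h
  exact hz ((hL5 k (sp v) b N hPsi.ne hb hN hPsi.cop).1 z hNz (lam_sp.2 h))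

/-- The case of the primes which are not above `𝔭̄`. -/
private theorem E4b_core {k : ℕ} [SqK k] (hL5 : S_L5) (hX : S_XOm) (hD1 : S_D1) {Q : Ideal ZZ}
    (hQ : Npr Q) (hQb : ¬ AbPb k Q) {τ : Gal(Om/ℚ)} (hτ : τ ∈ Q.inertia Gal(Om/ℚ))
    (v : OO k) (b δ : Ideal (OO k)) (N : ℕ) (hN : 0 < N) (hb : b ≠ ⊥) (hδ : δ ≠ ⊥)
    (hNδ : sp (N : OO k) ≤ δ) (hA : ¬ Abv Q δ) (hPsi : Psi τ N (sp v)) (z : ℂ)
    (hz : z ∈ Lam (δ * b)) : xO b (toC v * z) = xO b z := by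
  have hQp : Q.IsPrime := hQ.1
  have hv0 : v ≠ 0 := by
    intro h
    apply hPsi.ne
    rw [h]
    exact Ideal.span_singleton_eq_bot.2 rfl
  have hNz : (N : ℂ) * z ∈ Lam b := by
    have h1 := lam_prod.1 hz (N : OO k) (hNδ (Ideal.mem_span_singleton_self _))
    rwa [toC_nat] at h1
  have htz : Tor k z := tor_lam (E4b_mul hδ hb) hz
  have htv : Tor k (toC v * z) := tor_mul v htz
  by_cases hzb : z ∈ Lam b
  · exact E4b_in hX hb v hzb
  have hvz : toC v * z ∉ Lam b := E4b_out hL5 hb hN hPsi hNz hzb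
  obtain ⟨-, x2, -, -, -, -, -, -, x9⟩ := hX k b hb
  obtain ⟨-, -, -, -, d5, -, d7⟩ := hD1 k b hb Q hQ hQb
  obtain ⟨α, hα, hα'⟩ : ∃ α ∈ δ, ¬ MP Q (toO α) := by
    by_contra hcon
    push Not at hcon
    exact hA hcon
  have hIK : ∀ y : ℂ, toC α * y ∈ Lam b → IK Q b y → y ∈ Lam b := by
    intro y hy h1
    have h2 := d5 y h1 α 1 hα' (by rwa [mul_one])
    rwa [toC_one, one_mul] at h2
  have hαz : toC α * z ∈ Lam b := lam_prod.1 hz α hα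
  have hαv : toC α * (toC v * z) ∈ Lam b := by
    have e : toC α * (toC v * z) = toC v * (toC α * z) := by ring
    rw [e]
    exact lam_mul v hαz
  have hIz : ¬ IK Q b z := fun h => hzb (hIK z hαz h)
  have hIv : ¬ IK Q b (toC v * z) := fun h => hvz (hIK _ hαv h)
  have hVz : VP Q (xO b z) := by
    by_contra h
    exact hIz ⟨htz, Or.inr h⟩
  have hτz : τ (xO b z) = xO b (toC v * z) := by
    rw [hPsi.xx b hb z hNz, (x9 v hv0).1]
  have hMP : MP Q (xO b (toC v * z) - xO b z) := by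
    rw [← hτz]
    exact DI.VP.inertia hτ hVz
  rw [x2 _ _ htv htz hvz hzb]
  rcases d7 _ _ htv htz hIv hIz hMP with h | h
  · right
    refine hIK _ ?_ h
    rw [mul_add]
    exact lam_add hαv hαz
  · left
    refine hIK _ ?_ h
    rw [mul_sub]
    exact lam_sub hαv hαz

theorem sE4b (hO3 : S_O3) (_ : S_O6) (hL2 : S_L2) (hL5 : S_L5) (hR4 : S_R4) (hAbQ : S_AbQ)
    (hX : S_XOm) (_ : S_DUn) (hD1 : S_D1) (hQpC : S_QpC) (hPsC : S_PsC) : S_E4b := by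
  intro k _ Q hQ τ hτG hτ v b δ N hN hb hδ hNδ hA hPsi z hz
  by_cases hQb : AbPb k Q
  swap
  · exact E4b_core hL5 hX hD1 hQ hQb hτ v b δ N hN hb hδ hNδ hA hPsi z hz
  have hNz : (N : ℂ) * z ∈ Lam b := by
    have h1 := lam_prod.1 hz (N : OO k) (hNδ (Ideal.mem_span_singleton_self _))
    rwa [toC_nat] at h1
  by_cases hzb : z ∈ Lam b
  · exact E4b_in hX hb v hzb
  have hvz : toC v * z ∉ Lam b := E4b_out hL5 hb hN hPsi hNz hzb
  have htz : Tor k z := tor_lam (E4b_mul hδ hb) hz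
  have htv : Tor k (toC v * z) := tor_mul v htz
  obtain ⟨-, c, hc, hc1⟩ := hR4
  obtain ⟨-, c2, -, c4⟩ := hc1 k b hb
  have hQ' : AbP k (c • Q) := c4 Q hQb
  have hQb' : ¬ AbPb k (c • Q) := fun h => ((hAbQ k).2.2.2.2.1 (c • Q)).2.2.1 ⟨hQ', h⟩
  obtain ⟨p1, -, p3, p4⟩ := hPsC k c hc
  obtain ⟨o1, o2, o3, o4, -⟩ := hO3 k
  have hPsi' : Psi (c * τ * c⁻¹) N (sp (cjO v)) := by
    rw [← o4 v]
    exact p1 τ N (sp v) hN hPsi
  have hδ' : cjI δ ≠ ⊥ := E4b_bot hO3 hδ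
  have hb' : cjI b ≠ ⊥ := E4b_bot hO3 hb
  have hNδ' : sp (N : OO k) ≤ cjI δ := by
    rw [Ideal.span_singleton_le_iff_mem, o1, cjO_nat]
    exact hNδ (Ideal.mem_span_singleton_self _)
  have hA' : ¬ Abv (c • Q) (cjI δ) := fun h => hA (((hQpC k c hc Q b z hQ hb).2.2.2.1 δ).1 h)
  have hz' : (starRingEnd ℂ) z ∈ Lam (cjI δ * cjI b) := by
    rw [← o2]
    have := ((hL2 k).2.2.2.2.2.2.1 (δ * b) ((starRingEnd ℂ) z) (E4b_mul hδ hb)).2
    rw [Complex.conj_conj] at this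
    exact this hz
  have h := E4b_core hL5 hX hD1 hQ'.1 hQb' (p3 Q τ hτ) (cjO v) (cjI b) (cjI δ) N hN hb' hδ' hNδ' hA'
    hPsi' _ hz'
  rw [← conj_toC, ← map_mul] at h
  apply c.injective
  rw [c2 z htz hzb, c2 _ htv hvz, h]

end Pool.Agent.DK
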