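import Pool.Agent.Lib.DK.E.SpecA

/-!
# Theorem DK, part E, module `EWg`

The product of two values of the derivative of the Weierstrass function is rational in `X`;
the Galois action on it.
-/

set_option autoImplicit false

open scoped Pointwise nonZeroDivisors

noncomputable section

namespace Pool.Agent.DK

open Pool.Agent.MuZ Pool.Agent.FW NumberField IsDedekindDomain
open Pool.Agent.DI (io ofC io_inj exists_io io_ofC ofC_io VP MP UP TP ex sqr sqr_sq kap)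

open Classical in
/-- The rational expression for the product of the two values. -/
private def EWg_R {k : ℕ} (f : ℕ) (b : Ideal (OO k)) (z : ℂ) : Om :=
  if z - 1 / f ∈ Lam b then W2 b (1 / f)
  else if z + 1 / f ∈ Lam b then -W2 b (1 / f)
  else if z ∈ Lam b then 0
  else -((xO b (z + 1 / f) - xO b (z - 1 / f)) * (xO b z - xO b (1 / f)) ^ 2)

private theorem EWg_tor (k : ℕ) {f : ℕ} (hf : 0 < f) : Tor k (1 / f : ℂ) := by
  have h := tor_div (k := k) hf 1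
  rwa [toC_one] at h

private theorem EWg_dO (hB1 : S_B1) (hR4 : S_R4) (hX : S_XOm) {k : ℕ} [SqK k] {b : Ideal (OO k)}
    (hb : b ≠ ⊥) : io (dO b) = DC b := by
  have h1 := (hX k b hb).1.2.2.1 0 (lam_zero b)
  obtain ⟨_, _, _, _, _, _, _, _, h2, _⟩ := hB1 k b hb
  have h3 := (h2 0 (lam_zero b)).1
  have h4 := hR4.1 k b hb 0 tor_zero
  rw [h1, h3, map_div₀, map_neg, map_add, map_one, map_mul, map_ofNat, map_ofNat] at h4
  linear_combination (-(12 : ℂ) / 16) * h4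

private theorem EWg_W2 (hB1 : S_B1) (hB2 : S_B2) (hR4 : S_R4) (hX : S_XOm) {k : ℕ} [SqK k]
    {b : Ideal (OO k)} (hb : b ≠ ⊥) {u : ℂ} (hu : Tor k u) (hu' : u ∉ Lam b) :
    wdC b u * wdC b u / s2 b ^ 3 = io (W2 b u) := by
  have h1 := (hB2 k b hb u hu').1
  have hs : s2 b ≠ 0 := (hB1 k b hb).2.2.1
  have h3 : io (W2 b u) = XC b u * (XC b u + 4 * DC b) * (4 * XC b u + 1) := by
    unfold W2
    rw [map_mul, map_mul, map_add, map_add, map_mul, map_mul, map_one, map_ofNat, hR4.1 k b hb u hu,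
      EWg_dO hB1 hR4 hX hb]
  rw [h3, div_eq_iff (pow_ne_zero 3 hs), ← sq, h1]
  ring

private theorem EWg_io (hB1 : S_B1) (hB2 : S_B2) (hB3 : S_B3) (hR4 : S_R4) (hR5b : S_R5b)
    (hX : S_XOm) {k : ℕ} [SqK k] {f : ℕ} (hf : Odd f) (hf3 : 3 ≤ f) {b : Ideal (OO k)}
    (hb : b ≠ ⊥) (hbf : PrI b f) {z : ℂ} (hz : Tor k z) :
    io (EWg_R f b z) = wdC b z * wdC b (1 / f) / s2 b ^ 3 := by
  have hf0 : 0 < f := by omega
  have hp : Tor k (1 / f : ℂ) := EWg_tor k hf0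
  have h2p : 2 * (1 / f : ℂ) ∉ Lam b := (hR5b k f b hf hf3 hb hbf).1
  have hp' : (1 / f : ℂ) ∉ Lam b := fun h => h2p (by
    have := lam_nat 2 h
    exact_mod_cast this)
  obtain ⟨hper, hpar, hs, _, _, _, _, _, hlat, _⟩ := hB1 k b hb
  unfold EWg_R
  split_ifs with h1 h2 h3
  · rw [← EWg_W2 hB1 hB2 hR4 hX hb hp hp']
    have e : wdC b z = wdC b (1 / f) := by
      have := (hper (1 / f) (z - 1 / f) h1).2.1
      rwa [add_sub_cancel] at this
    rw [e]
  · rw [map_neg, ← EWg_W2 hB1 hB2 hR4 hX hb hp hp']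
    have e : wdC b z = -wdC b (1 / f) := by
      have h4 := (hper (-(1 / f)) (z + 1 / f) h2).2.1
      have h5 : -(1 / (f : ℂ)) + (z + 1 / f) = z := by ring
      rw [h5] at h4
      rw [h4, (hpar (1 / f)).2.1]
    rw [e]
    ring
  · rw [map_zero, (hlat z h3).2, zero_mul, zero_div]
  · have h4 := ((hB3 k b hb).1 z (1 / f) h3 hp' h2 h1).2.2
    rw [map_neg, map_mul, map_pow, map_sub, map_sub, hR4.1 k b hb _ (tor_add hz hp),
      hR4.1 k b hb _ (tor_sub hz hp), hR4.1 k b hb z hz, hR4.1 k b hb _ hp,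
      eq_div_iff (pow_ne_zero 3 hs)]
    linear_combination (-1 : ℂ) * h4

private theorem EWg_eq (hB1 : S_B1) (hB2 : S_B2) (hB3 : S_B3) (hR4 : S_R4) (hR5b : S_R5b)
    (hX : S_XOm) {k : ℕ} [SqK k] {f : ℕ} (hf : Odd f) (hf3 : 3 ≤ f) {b : Ideal (OO k)}
    (hb : b ≠ ⊥) (hbf : PrI b f) {z : ℂ} (hz : Tor k z) : EWO f b z = EWg_R f b z := by
  unfold EWO
  rw [← EWg_io hB1 hB2 hB3 hR4 hR5b hX hf hf3 hb hbf hz, ofC_io]

private theorem EWg_tW2 {k : ℕ} {τ : Gal(Om/ℚ)} {N : ℕ} {a b : Ideal (OO k)} (h : Psi τ N a)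
    (hb : b ≠ ⊥) {u : ℂ} (hu : (N : ℂ) * u ∈ Lam b) : τ (W2 b u) = W2 (a * b) u := by
  unfold W2
  rw [map_mul, map_mul, map_add, map_add, map_mul, map_mul, map_one, map_ofNat, h.xx b hb u hu,
    h.dd b hb]

/-- MODULE `EWg`. -/
theorem sEWg (hL5 : S_L5) (hO6 : S_O6) (hB1 : S_B1) (hB2 : S_B2) (hB3 : S_B3) (hR4 : S_R4)
    (hR5b : S_R5b) (hX : S_XOm) : S_EWg := by
  intro k _ f hf hf3
  have hf0 : 0 < f := by omega
  have hf0' : (f : ℂ) ≠ 0 := by exact_mod_cast hf0.ne'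
  refine ⟨?_, ?_⟩
  · intro b z hb hbf hz
    rw [EWg_eq hB1 hB2 hB3 hR4 hR5b hX hf hf3 hb hbf hz]
    exact EWg_io hB1 hB2 hB3 hR4 hR5b hX hf hf3 hb hbf hz
  · intro τ N a hN h hfN b hb hbf
    have hab : a * b ≠ ⊥ := fun h0 => (Ideal.mul_eq_bot.1 h0).elim h.ne hb
    have haf : PrI a f := by
      obtain ⟨m, rfl⟩ := hfN
      exact (((hO6 k).2.1 f m a).1 h.cop).1
    have habf : PrI (a * b) f := ((hO6 k).1 f a b).2 ⟨haf, hbf⟩
    have hNp : (N : ℂ) * (1 / f) ∈ Lam b := by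
      obtain ⟨m, rfl⟩ := hfN
      have e : ((f * m : ℕ) : ℂ) * (1 / f) = (m : ℂ) * ((f : ℂ) * (1 / f)) := by
        push_cast
        ring
      rw [e]
      exact lam_nat m (one_div_lam b hf0)
    refine ⟨?_, ?_, EWg_tW2 h hb hNp⟩
    · intro z hz
      have hzt : Tor k z := (tor_iff hb).2 ⟨N, hN, hz⟩
      have hadd : (N : ℂ) * (z + 1 / f) ∈ Lam b := by
        rw [mul_add]
        exact lam_add hz hNp
      have hsub : (N : ℂ) * (z - 1 / f) ∈ Lam b := by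
        rw [mul_sub]
        exact lam_sub hz hNp
      have key : ∀ y : ℂ, (N : ℂ) * y ∈ Lam b → (y ∈ Lam (a * b) ↔ y ∈ Lam b) := fun y hy =>
        ⟨fun h1 => (hL5 k a b N h.ne hb hN h.cop).1 y hy h1, fun h1 => lam_mono h1⟩
      rw [EWg_eq hB1 hB2 hB3 hR4 hR5b hX hf hf3 hb hbf hzt,
        EWg_eq hB1 hB2 hB3 hR4 hR5b hX hf hf3 hab habf hzt]
      unfold EWg_R
      by_cases h1 : z - 1 / f ∈ Lam b
      · rw [if_pos h1, if_pos ((key _ hsub).2 h1)]
        exact EWg_tW2 h hb hNp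
      rw [if_neg h1, if_neg (fun h' => h1 ((key _ hsub).1 h'))]
      by_cases h2 : z + 1 / f ∈ Lam b
      · rw [if_pos h2, if_pos ((key _ hadd).2 h2), map_neg, EWg_tW2 h hb hNp]
      rw [if_neg h2, if_neg (fun h' => h2 ((key _ hadd).1 h'))]
      by_cases h3 : z ∈ Lam b
      · rw [if_pos h3, if_pos ((key _ hz).2 h3)]
        exact map_zero τ
      rw [if_neg h3, if_neg (fun h' => h3 ((key _ hz).1 h')), map_neg, map_mul, map_pow, map_sub,
        map_sub, h.xx b hb _ hadd, h.xx b hb _ hsub, h.xx b hb _ hz, h.xx b hb _ hNp]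
    · unfold nO
      rw [map_add, map_add, map_mul, map_mul, map_mul, map_add, map_mul, map_one, map_pow, map_ofNat,
        map_ofNat, map_ofNat, h.xx b hb _ hNp, h.dd b hb]

end Pool.Agent.DK
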