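import Pool.Agent.Lib.DK.E.SpecA

/-!
# Theorem DK, part E, module Efr: the framing in a ray class (helper24)
-/

set_option autoImplicit false

noncomputable section

namespace Pool.Agent.DK

theorem Efr_ne {k : ℕ} [SqK k] {f : ℕ} (hf : 3 ≤ f) {γ : OO k} (h : (f : OO k) ∣ γ - 1) : γ ≠ 0 := by
  rintro rfl
  rw [zero_sub, dvd_neg, nat_dvd_iff, re_one] at h
  have h1 := Int.le_of_dvd one_pos h.1
  omega

/-- The transformation of the framing under `α`, for an inverse `β` modulo `f`. -/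
theorem Efr_one (hO6 : S_O6) (hB12 : S_B12) {k : ℕ} [SqK k] {f : ℕ} (hodd : Odd f) (hf : 3 ≤ f)
    {a a' : Ideal (OO k)} (ha : a ≠ ⊥) (ha' : a' ≠ ⊥) (hp : PrI a f) (hp' : PrI a' f)
    {α α' β : OO k} (h1 : (f : OO k) ∣ α * β - 1) (h2 : (f : OO k) ∣ α' * β - 1)
    (he : sp α * a = sp α' * a') (b : Ideal (OO k)) (hb : b ≠ ⊥) (hpb : PrI b f) :
    toC (α * β) * fr f (a * b) = toC (α' * β) * fr f (a' * b) := by
  obtain ⟨o1, _⟩ := hO6 k
  have hab : a * b ≠ ⊥ := mul_ne_zero ha hb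
  have hab' : a' * b ≠ ⊥ := mul_ne_zero ha' hb
  have e1 := (hB12 k f (a * b) hodd hf hab ((o1 f a b).2 ⟨hp, hpb⟩)).2.2.1 (α * β)
    (Efr_ne hf h1) h1
  have e2 := (hB12 k f (a' * b) hodd hf hab' ((o1 f a' b).2 ⟨hp', hpb⟩)).2.2.1 (α' * β)
    (Efr_ne hf h2) h2
  rw [← e1, ← e2]
  have e3 : sp (α * β) * (a * b) = sp β * (sp α * a) * b := by
    have h3 : sp (α * β) = sp α * sp β := (Ideal.span_singleton_mul_span_singleton α β).symm
    rw [h3]
    ring
  have e4 : sp (α' * β) * (a' * b) = sp β * (sp α' * a') * b := by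
    have h3 : sp (α' * β) = sp α' * sp β := (Ideal.span_singleton_mul_span_singleton α' β).symm
    rw [h3]
    ring
  rw [e3, e4, he]

theorem sEfr (hO6 : S_O6) (_hO7 : S_O7) (hB12 : S_B12) (_hR5 : S_R5) : S_Efr := by
  intro k _ f a a' hodd hf ha ha' hp hp' hray b c hb hc hpb hpc
  obtain ⟨α, α', hα, hα', hcα, hcα', hd, he⟩ := hray
  obtain ⟨β, _, h1⟩ := cop_inv hcα
  have h2 : (f : OO k) ∣ α' * β - 1 := by
    have h3 : α' * β - 1 = (α * β - 1) - (α - α') * β := by ring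
    rw [h3]
    exact dvd_sub h1 (hd.mul_right β)
  have key := Efr_one hO6 hB12 hodd hf ha ha' hp hp' h1 h2 he
  have kb := key b hb hpb
  have kc := key c hc hpc
  have n1 : toC (α * β) ≠ 0 := toC_ne (Efr_ne hf h1)
  have n2 : toC (α' * β) ≠ 0 := toC_ne (Efr_ne hf h2)
  unfold rO
  congr 1
  rw [← mul_div_mul_left (fr f (a * c)) (fr f (a * b)) n1,
    ← mul_div_mul_left (fr f (a' * c)) (fr f (a' * b)) n2, kb, kc]

end Pool.Agent.DK
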