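import Pool.Agent.Lib.DK.E.SpecA

/-!
# Theorem DK, part E, module ElA: Galois action on the quotients of the numbers `s2`
-/

set_option autoImplicit false

open scoped Pointwise nonZeroDivisors

noncomputable section

namespace Pool.Agent.DK

open Pool.Agent.MuZ Pool.Agent.FW NumberField IsDedekindDomain
open Pool.Agent.DI (io ofC io_inj exists_io io_ofC ofC_io VP MP UP TP ex sqr sqr_sq kap)

/-- Formula (1) for `laO c b`. -/
private theorem ElA_form (hB1 : S_B1) (hB9 : S_B9) (hR4 : S_R4) (k : ℕ) [SqK k]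
    (c b : Ideal (OO k)) (hc : c ≠ ⊥) (hb : b ≠ ⊥) (R : Finset ℂ) (hR : IsSys c b R) (S T : ℂ)
    (hSt : Tor k S) (hTt : Tor k T) (hS : S ∉ Lam (c * b)) (hT : T ∉ Lam (c * b))
    (hXS : XC (c * b) S = 0) (hXT : XC (c * b) T = -1 / 4) :
    laO c b = 4 * ∑ u ∈ R, (xO b (S + u) - xO b (T + u)) := by
  have hcb : c * b ≠ ⊥ := mul_ne_zero (a := c) (b := b) hc hb
  have hs : s2 b ≠ 0 := (hB1 k b hb).2.2.1
  have h := (hB9 k c b hc hb R hR).1 S T hS hT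
  rw [hXS, hXT] at h
  have e : s2 (c * b) / s2 b = 4 * ∑ u ∈ R, (XC b (S + u) - XC b (T + u)) := by
    rw [div_eq_iff hs]
    linear_combination 4 * h
  have e2 : io (4 * ∑ u ∈ R, (xO b (S + u) - xO b (T + u))) =
      4 * ∑ u ∈ R, (XC b (S + u) - XC b (T + u)) := by
    rw [map_mul, map_ofNat, map_sum]
    refine congrArg (fun x => 4 * x) (Finset.sum_congr rfl fun u hu => ?_)
    have hu' : Tor k u := tor_lam hcb (hR.mem u hu)
    rw [map_sub, hR4.1 k b hb _ (tor_add hSt hu'), hR4.1 k b hb _ (tor_add hTt hu')]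
  unfold laO
  rw [e, ← e2, ofC_io]

/-- Galois action on the quotients of `s2`. -/
theorem sElA (hL3 : S_L3) (hL6 : S_L6) (hO6 : S_O6) (hB1 : S_B1) (hB9 : S_B9) (hR4 : S_R4)
    (_hR5a : S_R5a) (_hXOm : S_XOm) (hSyA : S_SyA) : S_ElA := by
  intro k _ τ N a hN h b c hb hc hdvd
  obtain ⟨m, hm⟩ := hdvd
  have hab : a * b ≠ ⊥ := mul_ne_zero (a := a) (b := b) h.ne hb
  have hcb : c * b ≠ ⊥ := mul_ne_zero (a := c) (b := b) hc hb
  have hacb : a * (c * b) ≠ ⊥ := mul_ne_zero (a := a) (b := c * b) h.ne hcb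
  have ecab : c * (a * b) = a * (c * b) := mul_left_comm c a b
  have hN2 : N = 2 * (NI c * m) := by rw [hm, mul_assoc]
  have hN' : 0 < NI c * m := by
    rcases Nat.eq_zero_or_pos (NI c * m) with h0 | h0
    · rw [hN2, h0, mul_zero] at hN
      exact absurd hN (lt_irrefl 0)
    · exact h0
  have hcop : PrI a 2 ∧ PrI a (NI c * m) := by
    have h1 := h.cop
    rw [hN2] at h1
    exact ((hO6 k).2.1 2 (NI c * m) a).1 h1
  obtain ⟨-, -, R, hR, -⟩ := hL3 k c b hc hb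
  obtain ⟨-, hs1, hs2, -⟩ := hSyA k a b c N h.ne hb hc hN h.cop ⟨2 * m, by rw [hm]; ring⟩
  obtain ⟨-, hs3, -, -⟩ := hSyA k a b c (NI c * m) h.ne hb hc hN' hcop.2 ⟨m, rfl⟩
  have hR' : IsSys c (a * b) R := hs2 R hR
  obtain ⟨⟨-, hT, -⟩, ⟨-, hS, -⟩, ⟨hT2, hS2, -⟩, -, -, hodd, -⟩ := hL6 k (c * b) hcb
  obtain ⟨hTd, hSd, -⟩ := hodd a h.ne hcop.1
  obtain ⟨⟨-, hT', -⟩, ⟨-, hS', -⟩, -⟩ := hL6 k (a * (c * b)) hacb
  have hTt : Tor k (ptT (c * b)) := (tor_iff hcb).2 ⟨2, by norm_num, by exact_mod_cast hT2⟩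
  have hSt : Tor k (ptS (c * b)) := (tor_iff hcb).2 ⟨2, by norm_num, by exact_mod_cast hS2⟩
  obtain ⟨-, -, -, -, -, -, -, -, -, hXS, hXT, -⟩ := hB1 k (c * b) hcb
  obtain ⟨hper, -, -, -, -, -, -, -, -, hXS', hXT', -⟩ := hB1 k (a * (c * b)) hacb
  -- the points `S`, `T` of `c b` for the ideal `a (c b)`
  have hnS : ptS (c * b) ∉ Lam (a * (c * b)) := fun h1 => hS' ((lam_sub_iff hSd).2 h1)
  have hnT : ptT (c * b) ∉ Lam (a * (c * b)) := fun h1 => hT' ((lam_sub_iff hTd).2 h1)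
  have hXS2 : XC (a * (c * b)) (ptS (c * b)) = 0 := by
    have h1 := (hper (ptS (c * b)) _ hSd).2.2
    rw [add_sub_cancel, hXS'] at h1
    exact h1.symm
  have hXT2 : XC (a * (c * b)) (ptT (c * b)) = -1 / 4 := by
    have h1 := (hper (ptT (c * b)) _ hTd).2.2
    rw [add_sub_cancel, hXT'] at h1
    exact h1.symm
  have f1 := ElA_form hB1 hB9 hR4 k c b hc hb R hR _ _ hSt hTt hS hT hXS hXT
  have f2 : laO c (a * b) = 4 * ∑ u ∈ R,
      (xO (a * b) (ptS (c * b) + u) - xO (a * b) (ptT (c * b) + u)) := by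
    apply ElA_form hB1 hB9 hR4 k c (a * b) hc hab R hR' _ _ hSt hTt
    · rw [ecab]; exact hnS
    · rw [ecab]; exact hnT
    · rw [ecab]; exact hXS2
    · rw [ecab]; exact hXT2
  have hmul : ∀ z : ℂ, 2 * z ∈ Lam (c * b) → ∀ u ∈ R, (N : ℂ) * (z + u) ∈ Lam b := by
    intro z hz u hu
    rw [mul_add]
    refine lam_add ?_ (hs1 u (hR.mem u hu))
    have h1 := hs3 (2 * z) hz
    have e : (N : ℂ) * z = ((NI c * m : ℕ) : ℂ) * (2 * z) := by
      rw [hN2]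
      push_cast
      ring
    rw [e]
    exact h1
  rw [f1, f2, map_mul, map_ofNat, map_sum]
  refine congrArg (fun x => 4 * x) (Finset.sum_congr rfl fun u hu => ?_)
  rw [map_sub, h.xx b hb _ (hmul _ hS2 u hu), h.xx b hb _ (hmul _ hT2 u hu)]

end Pool.Agent.DK
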