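import Pool.Agent.Lib.DK.E.SpecA

/-!
# Theorem DK, module Ero: Galois action on the quotient of the framings, large level
-/

set_option autoImplicit false

open scoped Pointwise nonZeroDivisors

noncomputable section

namespace Pool.Agent.DK

open Pool.Agent.MuZ Pool.Agent.FW NumberField IsDedekindDomain
open Pool.Agent.DI (io ofC io_inj exists_io io_ofC ofC_io VP MP UP TP ex sqr sqr_sq kap)

private theorem Ero_alg {fb fc sb sc nb nc wb wc W : ℂ} (hfb : fb ≠ 0) (hsb : sb ≠ 0)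
    (h1 : fb * wb = sb ^ 2 * nb) (h2 : wb ^ 2 = sb ^ 3 * W) (h3 : fc * wc = sc ^ 2 * nc) :
    fc / fb * nb * (wc * wb / sb ^ 3) = (sc / sb) ^ 2 * nc * W := by
  have key : nb * wb = W * fb * sb := by
    refine mul_left_cancel₀ (pow_ne_zero 2 hsb) ?_
    linear_combination (-wb) * h1 + fb * h2
  have e1 : fc / fb * nb * (wc * wb / sb ^ 3) = (fc * wc) * (nb * wb) / (fb * sb ^ 3) := by
    field_simp
  have e2 : (sc / sb) ^ 2 * nc * W = (sc ^ 2 * nc) * (W * fb * sb) / (fb * sb ^ 3) := by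
    field_simp
  rw [e1, e2, h3, key]

private theorem Ero_dO (hB1 : S_B1) (hR4 : S_R4) (hXOm : S_XOm) (k : ℕ) [SqK k]
    (b : Ideal (OO k)) (hb : b ≠ ⊥) : io (dO b) = DC b := by
  obtain ⟨-, -, -, -, -, -, -, -, h1, -⟩ := hB1 k b hb
  have h2 := (hXOm k b hb).1.2.2.1 0 (lam_zero b)
  have h3 := hR4.1 k b hb 0 tor_zero
  rw [h2, (h1 0 (lam_zero b)).1, map_div₀, map_neg, map_add, map_one, map_mul, map_ofNat,
    map_ofNat] at h3
  linear_combination (-12 / 16) * h3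

/-- Formula (1). -/
private theorem Ero_one (hB1 : S_B1) (hB2 : S_B2) (hB9 : S_B9) (hB12 : S_B12) (hR4 : S_R4)
    (hR5 : S_R5) (hR5b : S_R5b) (hXOm : S_XOm) (hEWg : S_EWg) (k : ℕ) [SqK k] (f : ℕ)
    (hf : Odd f) (hf3 : 3 ≤ f) (b c : Ideal (OO k)) (hb : b ≠ ⊥) (hc : c ≠ ⊥) (hbf : PrI b f)
    (hcbf : PrI (c * b) f) (R : Finset ℂ) (hR : IsSys c b R) :
    rO f b (c * b) * nO f b * ∑ u ∈ R, EWO f b (1 / f + u) =
      laO c b ^ 2 * nO f (c * b) * W2 b (1 / f) ∧ ∑ u ∈ R, EWO f b (1 / f + u) ≠ 0 := by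
  have hf0 : 0 < f := by omega
  have hcb : c * b ≠ ⊥ := fun h => by
    rcases Ideal.mul_eq_bot.1 h with h | h
    · exact hc h
    · exact hb h
  have hp : Tor k (1 / f : ℂ) := ⟨1, f, hf0, by rw [toC_one]⟩
  have hnot : ∀ b' : Ideal (OO k), b' ≠ ⊥ → PrI b' f → (1 / f : ℂ) ∉ Lam b' := by
    intro b' hb' hbf' h
    have h1 := (hR5b k f b' hf hf3 hb' hbf').1
    rw [two_mul] at h1
    exact h1 (lam_add h h)
  have hnO : ∀ b' : Ideal (OO k), b' ≠ ⊥ → io (nO f b') =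
      6 * XC b' (1 / f) ^ 2 + (1 + 16 * DC b') * XC b' (1 / f) + 2 * DC b' := by
    intro b' hb'
    unfold nO
    rw [map_add, map_add, map_mul, map_mul, map_mul, map_add, map_mul, map_pow, map_one, map_ofNat,
      map_ofNat, map_ofNat, hR4.1 k b' hb' _ hp, Ero_dO hB1 hR4 hXOm k b' hb']
  have hW2 : ∀ b' : Ideal (OO k), b' ≠ ⊥ → io (W2 b' (1 / f)) =
      XC b' (1 / f) * (XC b' (1 / f) + 4 * DC b') * (4 * XC b' (1 / f) + 1) := by
    intro b' hb'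
    unfold W2
    rw [map_mul, map_mul, map_add, map_add, map_mul, map_mul, map_one, map_ofNat,
      hR4.1 k b' hb' _ hp, Ero_dO hB1 hR4 hXOm k b' hb']
  have hs : s2 b ≠ 0 := (hB1 k b hb).2.2.1
  have hsc : s2 (c * b) ≠ 0 := (hB1 k (c * b) hcb).2.2.1
  -- the framings
  obtain ⟨hfr, hrO, -⟩ := hR5 k f ⊤ b (c * b) hf hf3 top_ne_bot hb hcb (top_sup_eq _)
    (top_sup_eq _) hbf hcbf
  obtain ⟨w1, w2, -, -, -⟩ := hB12 k f b hf hf3 hb hbf
  obtain ⟨w3, w4, -, -, -⟩ := hB12 k f (c * b) hf hf3 hcb hcbf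
  rw [← hnO b hb] at w2
  rw [← hnO (c * b) hcb] at w4
  have w5 := (hB2 k b hb (1 / f) (hnot b hb hbf)).1
  rw [← hW2 b hb] at w5
  -- the number `laO`
  obtain ⟨-, n1, n2, -, n3⟩ := hR5b k f b hf hf3 hb hbf
  obtain ⟨-, n4, n5, n6, n7⟩ := hR5b k f (c * b) hf hf3 hcb hcbf
  change nO f b ≠ 0 at n1
  change nO f (c * b) ≠ 0 at n4
  change fr f b ^ 2 * io (W2 b (1 / f)) = s2 b * io (nO f b) ^ 2 at n3
  change fr f (c * b) ^ 2 * io (W2 (c * b) (1 / f)) = s2 (c * b) * io (nO f (c * b)) ^ 2 at n7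
  have n1' : io (nO f b) ≠ 0 := fun h => n1 (io_inj (by rw [h, map_zero]))
  have n2' : io (W2 b (1 / f)) ≠ 0 := fun h => n2 (io_inj (by rw [h, map_zero]))
  have n4' : io (nO f (c * b)) ≠ 0 := fun h => n4 (io_inj (by rw [h, map_zero]))
  have hla : io (laO c b) = s2 (c * b) / s2 b := by
    have h1 : io (rO f b (c * b) ^ 2 * W2 (c * b) (1 / f) * nO f b ^ 2 /
        (W2 b (1 / f) * nO f (c * b) ^ 2)) = s2 (c * b) / s2 b := by
      rw [map_div₀, map_mul, map_mul, map_mul, map_pow, map_pow, map_pow, hrO]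
      rw [div_eq_div_iff (mul_ne_zero n2' (pow_ne_zero 2 n4')) hs, div_pow]
      have h2 : fr f (c * b) ^ 2 / fr f b ^ 2 * io (W2 (c * b) (1 / f)) * io (nO f b) ^ 2 * s2 b =
          (fr f (c * b) ^ 2 * io (W2 (c * b) (1 / f))) * (s2 b * io (nO f b) ^ 2) /
            fr f b ^ 2 := by
        ring
      rw [h2, n7, ← n3]
      field_simp
    unfold laO
    rw [← h1, ofC_io]
  -- the sum
  have hTor : ∀ u ∈ R, Tor k (1 / f + u) := fun u hu =>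
    tor_add hp (tor_lam hcb (hR.mem u hu))
  have hsum : io (∑ u ∈ R, EWO f b (1 / f + u)) =
      wdC (c * b) (1 / f) * wdC b (1 / f) / s2 b ^ 3 := by
    rw [map_sum]
    have h1 : ∀ u ∈ R, io (EWO f b (1 / f + u)) =
        wdC b (1 / f + u) * (wdC b (1 / f) / s2 b ^ 3) := by
      intro u hu
      rw [(hEWg k f hf hf3).1 b (1 / f + u) hb hbf (hTor u hu), mul_div_assoc]
    rw [Finset.sum_congr rfl h1, ← Finset.sum_mul,
      ← (hB9 k c b hc hb R hR).2.1 (1 / f) (hnot (c * b) hcb hcbf), mul_div_assoc]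
  refine ⟨io_inj ?_, ?_⟩
  · rw [map_mul, map_mul, map_mul, map_mul, map_pow, hsum, hla, hrO]
    exact Ero_alg hfr hs w2 w5 w4
  · intro h
    rw [h, map_zero] at hsum
    have h1 : wdC (c * b) (1 / f) * wdC b (1 / f) / s2 b ^ 3 ≠ 0 :=
      div_ne_zero (mul_ne_zero w3 w1) (pow_ne_zero 3 hs)
    exact h1 hsum.symm

theorem sEro (hL3 : S_L3) (hO6 : S_O6) (hB1 : S_B1) (hB2 : S_B2) (hB9 : S_B9) (hB12 : S_B12)
    (hR4 : S_R4) (hR5 : S_R5) (hR5b : S_R5b) (hXOm : S_XOm) (hSyA : S_SyA) (hElA : S_ElA)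
    (hEWg : S_EWg) : S_Ero := by
  intro k _ f hf hf3 τ N a hN hPsi b c hb hc hbf hcf hdiv
  have hf0 : 0 < f := by omega
  have ha : a ≠ ⊥ := hPsi.ne
  have hbot : ∀ x y : Ideal (OO k), x ≠ ⊥ → y ≠ ⊥ → x * y ≠ ⊥ := by
    intro x y hx hy h
    rcases Ideal.mul_eq_bot.1 h with h | h
    · exact hx h
    · exact hy h
  have hfN : f ∣ N := ((dvd_mul_left f 2).trans (dvd_mul_right (2 * f) (NI c))).trans hdiv
  have hcN : NI c ∣ N := (dvd_mul_left (NI c) (2 * f)).trans hdiv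
  have h2cN : 2 * NI c ∣ N := by
    refine Dvd.dvd.trans ?_ hdiv
    exact mul_dvd_mul (dvd_mul_right 2 f) dvd_rfl
  have haf : PrI a f := by
    obtain ⟨t, rfl⟩ := hfN
    exact (((hO6 k).2.1 f t a).1 hPsi.cop).1
  have hab : PrI (a * b) f := ((hO6 k).1 f a b).2 ⟨haf, hbf⟩
  have hcb : PrI (c * b) f := ((hO6 k).1 f c b).2 ⟨hcf, hbf⟩
  have hcab : PrI (c * (a * b)) f := ((hO6 k).1 f c (a * b)).2 ⟨hcf, hab⟩
  obtain ⟨R, hR, -⟩ := (hL3 k c b hc hb).2.2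
  obtain ⟨-, hu, hSys, -⟩ := hSyA k a b c N ha hb hc hN hPsi.cop hcN
  obtain ⟨E1, -⟩ := Ero_one hB1 hB2 hB9 hB12 hR4 hR5 hR5b hXOm hEWg k f hf hf3 b c hb hc hbf hcb
    R hR
  obtain ⟨E2, E3⟩ := Ero_one hB1 hB2 hB9 hB12 hR4 hR5 hR5b hXOm hEWg k f hf hf3 (a * b) c
    (hbot a b ha hb) hc hab hcab R (hSys R hR)
  obtain ⟨-, hW⟩ := hEWg k f hf hf3
  obtain ⟨g1, g2, g3⟩ := hW τ N a hN hPsi hfN b hb hbf
  obtain ⟨-, g4, -⟩ := hW τ N a hN hPsi hfN (c * b) (hbot c b hc hb) hcb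
  have hNp : ∀ u ∈ R, (N : ℂ) * (1 / f + u) ∈ Lam b := by
    intro u hu'
    rw [mul_add]
    refine lam_add ?_ (hu u (hR.mem u hu'))
    obtain ⟨t, rfl⟩ := hfN
    have h1 : ((f * t : ℕ) : ℂ) * (1 / f) = (t : ℂ) * ((f : ℂ) * (1 / f)) := by
      push_cast
      ring
    rw [h1]
    exact lam_nat t (one_div_lam b hf0)
  have hsum : τ (∑ u ∈ R, EWO f b (1 / f + u)) = ∑ u ∈ R, EWO f (a * b) (1 / f + u) := by
    rw [map_sum]
    exact Finset.sum_congr rfl fun u hu' => g1 _ (hNp u hu')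
  have E4 := congrArg τ E1
  rw [map_mul, map_mul, map_mul, map_mul, map_pow, hsum, g2, g3, g4,
    hElA k τ N a hN hPsi b c hb hc h2cN] at E4
  have e : c * (a * b) = a * (c * b) := mul_left_comm c a b
  rw [e, ← E4] at E2
  have hn : nO f (a * b) ≠ 0 := (hR5b k f (a * b) hf hf3 (hbot a b ha hb) hab).2.1
  rw [mul_assoc, mul_assoc] at E2
  exact (mul_right_cancel₀ (mul_ne_zero hn E3) E2).symm

end Pool.Agent.DK
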