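import Pool.Agent.Lib.DK.E.SpecA
import Pool.Agent.Lib.DK.Gen

/-!
# Theorem DK, part E, module ExA: existence of the ideal `a` with `Psi τ N a`
-/

set_option autoImplicit false

open scoped Pointwise nonZeroDivisors

noncomputable section

namespace Pool.Agent.DK

open Pool.Agent.MuZ Pool.Agent.FW NumberField IsDedekindDomain
open Pool.Agent.DI (io ofC io_inj exists_io io_ofC ofC_io VP MP UP TP ex sqr sqr_sq kap)

private theorem ExA_mul (h6 : S_O6) {k : ℕ} [SqK k] {N : ℕ} {τ τ' : Gal(Om/ℚ)} {a a' : Ideal (OO k)}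
    (h : Psi τ N a) (h' : Psi τ' N a') : Psi (τ * τ') N (a * a') where
  ne := mul_ne_zero h.ne h'.ne
  cop := ((h6 k).1 N a a').2 ⟨h.cop, h'.cop⟩
  dd b hb := by
    rw [AlgEquiv.mul_apply, h'.dd b hb, h.dd _ (mul_ne_zero h'.ne hb), mul_assoc]
  xx b hb z hz := by
    rw [AlgEquiv.mul_apply, h'.xx b hb z hz, h.xx _ (mul_ne_zero h'.ne hb) z (lam_mono hz), mul_assoc]

private theorem ExA_top {k : ℕ} [SqK k] {N : ℕ} {τ : Gal(Om/ℚ)}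
    (h1 : ∀ b : Ideal (OO k), b ≠ ⊥ → τ (dO b) = dO b)
    (h2 : ∀ b : Ideal (OO k), b ≠ ⊥ → ∀ z : ℂ, (N : ℂ) * z ∈ Lam b → τ (xO b z) = xO b z) :
    Psi τ N (⊤ : Ideal (OO k)) where
  ne := top_ne_bot
  cop := top_sup_eq _
  dd b hb := by rw [h1 b hb, Ideal.top_mul]
  xx b hb z hz := by rw [h2 b hb z hz, Ideal.top_mul]

/-- Existence of the ideal `a` with `Psi τ N a`. -/
theorem sExA (h6 : S_O6) (fn : S_FN) (br : S_BrK) (op : S_OpA) (e2 : S_E2) : S_ExA := by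
  intro k _ N hN
  obtain ⟨A, hA, hA1, hA2⟩ := fn k N hN
  obtain ⟨U, hU⟩ := op.1 A hA
  obtain ⟨hfd, _, hbr⟩ := br k
  obtain ⟨B, hB, hB'⟩ := e2 k N hN
  have hnf : NumberField (KQ k) := ⟨⟩
  let Hs : Set Gal(Om/ℚ) := {τ | τ ∈ GK k ∧ ∃ a : Ideal (OO k), Psi τ N a}
  have hmul : ∀ τ ∈ Hs, ∀ τ' ∈ Hs, τ * τ' ∈ Hs := by
    rintro τ ⟨h1, a, ha⟩ τ' ⟨h1', a', ha'⟩
    exact ⟨mul_mem h1 h1', a * a', ExA_mul h6 ha ha'⟩
  have hUs : ∀ τ ∈ GK k, τ ∈ U → τ ∈ Hs := by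
    intro τ h1 h2
    exact ⟨h1, ⊤, ExA_top (fun b hb => hU τ h2 _ (hA1 b hb))
      (fun b hb z hz => hU τ h2 _ (hA2 b hb z hz))⟩
  have hinv := op.2 k U Hs (fun τ h => h.1) hUs hmul
  let H : Subgroup Gal(Om/ℚ) :=
    { carrier := Hs
      mul_mem' := fun {a b} ha hb => hmul a ha b hb
      one_mem' := hUs 1 (one_mem _) (one_mem U)
      inv_mem' := fun {a} ha => hinv a ha }
  have hgen := gen_frob (KQ k) H U B (fun τ h => hUs τ h.1 h.2) hB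
    (fun l Q τ hl hlB hQ hQ0 hlQ hcard hτ hFr => by
      obtain ⟨q, hq, hqA⟩ := hbr l Q hl ⟨hQ, hQ0⟩ hlQ hcard
      exact ⟨hτ, q, hB' q l hq ((Nat.Prime.coprime_iff_not_dvd hl).2 hlB) Q ⟨hQ, hQ0⟩ hqA τ hτ hFr⟩)
  intro τ hτ
  exact (hgen hτ).2

end Pool.Agent.DK
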