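import Pool.Agent.Lib.DK.E.SpecB

/-!
# Theorem DK, part E, module F0: Frobenius elements over `ℚ` (copy of a part of DI/E/FrQ.lean)
-/

set_option autoImplicit false

open scoped Pointwise nonZeroDivisors

noncomputable section

namespace Pool.Agent.DK.Eb

open Pool.Agent.MuZ Pool.Agent.FW NumberField IsDedekindDomain Pool.Agent.DK

private lemma F0_alg : Algebra.IsAlgebraic ℚ Om := by
  have h : @Algebra.IsAlgebraic ℚ Om _ _ (AlgebraicClosure.instAlgebra ℚ) :=
    AlgebraicClosure.isAlgebraic ℚ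
  have e : (AlgebraicClosure.instAlgebra ℚ : Algebra ℚ Om) = DivisionRing.toRatAlgebra :=
    Subsingleton.elim _ _
  rw [e] at h
  exact h

private lemma F0_gal : IsGalois ℚ Om := by
  have : IsAlgClosure ℚ Om := ⟨inferInstance, F0_alg⟩
  infer_instance

private lemma F0_inv : Algebra.IsInvariant ℤ ZZ Gal(Om/ℚ) := by
  have := F0_gal
  refine ⟨fun b hb => ?_⟩
  have h1 : (b : Om) ∈ Set.range (algebraMap ℚ Om) := by
    rw [InfiniteGalois.mem_range_algebraMap_iff_fixed]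
    intro f
    have h := congrArg (Subtype.val) (hb f)
    exact h
  obtain ⟨q, hq⟩ := h1
  have h2 : IsIntegral ℤ q := by
    have h3 : IsIntegral ℤ (algebraMap ℚ Om q) := by
      rw [hq]
      exact b.2
    exact (isIntegral_algebraMap_iff (algebraMap ℚ Om).injective).1 h3
  obtain ⟨a, ha⟩ := IsIntegrallyClosed.isIntegral_iff.1 h2
  refine ⟨a, Subtype.ext ?_⟩
  rw [← hq, ← ha]
  exact IsScalarTower.algebraMap_apply ℤ ℚ Om a

private lemma F0_root (l : ℕ) (hl : 0 < l) (x : ZZ) : ∃ y : ZZ, y ^ l = x := by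
  obtain ⟨y, hy⟩ := IsAlgClosed.exists_pow_nat_eq (x : Om) hl
  have h1 : IsIntegral ℤ y := by
    have h2 : IsIntegral ℤ (y ^ l) := by
      rw [hy]
      exact x.2
    exact IsIntegral.of_pow hl h2
  exact ⟨⟨y, h1⟩, Subtype.ext hy⟩

private lemma F0_fermat (l : ℕ) (hl : l.Prime) (z : ℤ) : (l : ℤ) ∣ z ^ l - z := by
  have : Fact l.Prime := ⟨hl⟩
  rw [← ZMod.intCast_zmod_eq_zero_iff_dvd]
  push_cast
  rw [ZMod.pow_card, sub_self]

/-- A Frobenius element over `ℚ` at the prime `P` above `l`. -/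
private theorem F0_frob (l : ℕ) (hl : l.Prime) (P : Ideal ZZ) (hP : P.IsPrime)
    (hlP : (l : ZZ) ∈ P) : ∃ σ : Gal(Om/ℚ), Fro P l σ := by
  have hlF : Fact l.Prime := ⟨hl⟩
  have hgal := F0_gal
  have halg := F0_alg
  let _ : TopologicalSpace ZZ := ⊥
  have : DiscreteTopology ZZ := ⟨rfl⟩
  have : Algebra.IsInvariant ℤ ZZ Gal(Om/ℚ) := F0_inv
  have : ContinuousSMul Gal(Om/ℚ) ZZ := by
    rw [continuousSMul_iff_stabilizer_isOpen]
    intro x
    have h1 := stabilizer_isOpen_of_isIntegral (K := ℚ) (x : Om)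
    have h2 : (MulAction.stabilizer Gal(Om/ℚ) x : Set Gal(Om/ℚ)) =
        (MulAction.stabilizer Gal(Om/ℚ) (x : Om) : Set Gal(Om/ℚ)) := by
      ext g
      rw [SetLike.mem_coe, SetLike.mem_coe, MulAction.mem_stabilizer_iff,
        MulAction.mem_stabilizer_iff]
      exact Subtype.ext_iff
    rw [h2]
    exact h1
  have : P.LiesOver (P.under ℤ) := ⟨rfl⟩
  have hchar : CharP (ZZ ⧸ P) l := by
    have h1 : ((l : ℕ) : ZZ ⧸ P) = 0 := by
      rw [← map_natCast (Ideal.Quotient.mk P), Ideal.Quotient.eq_zero_iff_mem]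
      exact hlP
    exact (CharP.charP_iff_prime_eq_zero hl).2 h1
  -- the Frobenius automorphism of the residue ring
  let φ : (ZZ ⧸ P) →ₐ[ℤ ⧸ P.under ℤ] (ZZ ⧸ P) :=
    { frobenius (ZZ ⧸ P) l with
      commutes' := by
        intro r
        obtain ⟨z, rfl⟩ := Ideal.Quotient.mk_surjective r
        change (algebraMap (ℤ ⧸ P.under ℤ) (ZZ ⧸ P) (Ideal.Quotient.mk _ z)) ^ l = _
        rw [← map_pow, ← map_pow, ← sub_eq_zero, ← map_sub, ← map_sub]
        have h1 : z ^ l - z ∈ P.under ℤ := by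
          obtain ⟨w, hw⟩ := F0_fermat l hl z
          rw [hw]
          refine Ideal.mul_mem_right _ _ ?_
          rw [Ideal.under_def, Ideal.mem_comap]
          simpa using hlP
        rw [Ideal.Quotient.eq_zero_iff_mem.2 h1, map_zero] }
  have hφ : ∀ x, φ x = x ^ l := fun x => rfl
  have hbij : Function.Bijective φ := by
    constructor
    · intro x y hxy
      rw [hφ, hφ, ← sub_eq_zero, ← sub_pow_char] at hxy
      exact sub_eq_zero.1 (pow_eq_zero_iff hl.pos.ne' |>.1 hxy)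
    · intro x
      obtain ⟨z, rfl⟩ := Ideal.Quotient.mk_surjective x
      obtain ⟨y, hy⟩ := F0_root l hl.pos z
      exact ⟨Ideal.Quotient.mk P y, by rw [hφ, ← map_pow, hy]⟩
  obtain ⟨σ, hσ⟩ := Ideal.Quotient.stabilizerHom_surjective_of_profinite (G := Gal(Om/ℚ))
    (P.under ℤ) P (AlgEquiv.ofBijective φ hbij)
  have hσ' : ∀ x : ZZ, (σ : Gal(Om/ℚ)) • x - x ^ l ∈ P := by
    intro x
    rw [← Ideal.Quotient.eq, map_pow]
    exact DFunLike.congr_fun hσ (Ideal.Quotient.mk P x)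
  exact ⟨σ, hσ'⟩

/-- **Frobenius elements over `ℚ`.** -/
theorem tF0 : S_F0 := fun Q l hQ hl hlQ => F0_frob l hl Q hQ.1 hlQ

end Pool.Agent.DK.Eb
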