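import Pool.Agent.Lib.DK.E.SpecA

/-! # Theorem DK, part E, module FN: finiteness of the set of values -/

set_option autoImplicit false

open scoped Pointwise nonZeroDivisors

noncomputable section

namespace Pool.Agent.DK

open Pool.Agent.MuZ Pool.Agent.FW NumberField IsDedekindDomain
open Pool.Agent.DI (io ofC io_inj exists_io io_ofC ofC_io VP MP UP TP ex sqr sqr_sq kap)

/-- Finiteness of the set of values. -/
theorem sFN (hO7 : S_O7) (hL3 : S_L3) (hX : S_XOm) (hI : S_Iso) : S_FN := by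
  intro k _ N hN
  obtain ⟨R0, hR⟩ := (hO7 k 1 one_pos).2.2.2.2.2.2.2.2.2
  have hN0 : (N : OO k) ≠ 0 := by
    intro h
    have h1 := congrArg QuadraticAlgebra.re h
    rw [re_nat] at h1
    have h2 : ((0 : OO k)).re = 0 := QuadraticAlgebra.re_zero
    rw [h2] at h1
    have h3 : N = 0 := by exact_mod_cast h1
    omega
  have hsys : ∀ b : Ideal (OO k), ∃ R : Finset ℂ, b ≠ ⊥ → IsSys (sp (N : OO k)) b R := by
    intro b
    by_cases hb : b = ⊥
    · exact ⟨∅, fun h => absurd hb h⟩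
    · have hs : sp (N : OO k) ≠ ⊥ := by
        intro h
        rw [Ideal.span_singleton_eq_bot] at h
        exact hN0 h
      obtain ⟨_, _, R, h1, _⟩ := hL3 k (sp (N : OO k)) b hs hb
      exact ⟨R, fun _ => h1⟩
  choose S hS using hsys
  have key : ∀ b : Ideal (OO k), b ≠ ⊥ → ∃ b0 ∈ R0, dO b = dO b0 ∧ ∀ z : ℂ, (N : ℂ) * z ∈ Lam b →
      ∃ y : ℂ, (N : ℂ) * y ∈ Lam b0 ∧ xO b z = xO b0 y := by
    intro b hb
    have hp : PrI b 1 := by
      have h1 : Ideal.span {((1 : ℕ) : OO k)} = ⊤ := by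
        rw [Nat.cast_one, Ideal.span_singleton_one]
      change b ⊔ Ideal.span {((1 : ℕ) : OO k)} = ⊤
      rw [h1, sup_top_eq]
    obtain ⟨b0, hb0, α, α', hα, hα', _, _, _, hm⟩ := hR.ex b hb hp
    have hb0' : b0 ≠ ⊥ := (hR.mem b0 hb0).1
    have h1 := hI k b0 b α' α hb0' hb hα' hα hm.symm ⊤ top_ne_bot
    rw [Ideal.mul_top, Ideal.mul_top] at h1
    obtain ⟨h2, _, h3⟩ := h1
    refine ⟨b0, hb0, h2, ?_⟩
    intro z hz
    refine ⟨toC α' / toC α * z, ?_, (h3 z).1⟩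
    have h4 := (h3 ((N : ℂ) * z)).2.mp hz
    have h5 : toC α' / toC α * ((N : ℂ) * z) = (N : ℂ) * (toC α' / toC α * z) := by ring
    rwa [h5] at h4
  refine ⟨(dO '' (R0 : Set (Ideal (OO k)))) ∪
    ⋃ b ∈ (R0 : Set (Ideal (OO k))), xO b '' (S b : Set ℂ), ?_, ?_, ?_⟩
  · refine Set.Finite.union (R0.finite_toSet.image _) ?_
    refine Set.Finite.biUnion R0.finite_toSet ?_
    intro b _
    exact (S b).finite_toSet.image _
  · intro b hb
    obtain ⟨b0, h0, h1, _⟩ := key b hb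
    exact Or.inl ⟨b0, h0, h1.symm⟩
  · intro b hb z hz
    obtain ⟨b0, h0, _, h2⟩ := key b hb
    obtain ⟨y, hy, h3⟩ := h2 z hz
    have hb0 : b0 ≠ ⊥ := (hR.mem b0 h0).1
    have h4 : y ∈ Lam (sp (N : OO k) * b0) := by
      rw [lam_sp, toC_nat]
      exact hy
    obtain ⟨u, hu, hu'⟩ := (hS b0 hb0).ex y h4
    have h5 : xO b0 y = xO b0 u := by
      have h6 := (hX k b0 hb0).1.1 u (y - u) hu'
      rw [← h6]
      congr 1
      ring
    refine Or.inr ?_
    rw [Set.mem_iUnion₂]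
    exact ⟨b0, h0, u, hu, by rw [h3, h5]⟩

end Pool.Agent.DK
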