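import Pool.Agent.Lib.DK.E.SpecB

/-!
# Theorem DK, part E, module Fix: Galois theory for `FixI` (`S_E8`)
-/

set_option autoImplicit false

open scoped Pointwise nonZeroDivisors

noncomputable section

namespace Pool.Agent.DK.Eb

open Pool.Agent.MuZ Pool.Agent.FW NumberField IsDedekindDomain Pool.Agent.DK
open Pool.Agent.DI (io ofC io_inj exists_io io_ofC ofC_io VP MP UP TP ex sqr sqr_sq kap)

/-- The extension `Ω/ℚ` is Galois (for the default algebra structure). -/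
private theorem Fix_isGalois : IsGalois ℚ Om := by
  have h : @IsGalois ℚ _ Om _ (AlgebraicClosure.instAlgebra ℚ) :=
    @IsAlgClosure.isGalois ℚ Om _ _ (AlgebraicClosure.instAlgebra ℚ) _ _
  have hA : (DivisionRing.toRatAlgebra : Algebra ℚ Om) = AlgebraicClosure.instAlgebra ℚ :=
    Subsingleton.elim _ _
  rw [hA]
  exact h

/-- `Gal(Om/K)` is open. -/
private theorem Fix_open (k : ℕ) : IsOpen ((GK k : Subgroup Gal(Om/ℚ)) : Set Gal(Om/ℚ)) := by
  have h : FiniteDimensional ℚ (KQ k) :=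
    IntermediateField.adjoin.finiteDimensional (Algebra.IsIntegral.isIntegral (wO k))
  exact IntermediateField.fixingSubgroup_isOpen (KQ k)

/-- Inverses. -/
private theorem Fix_inv {k : ℕ} [SqK k] (hO7 : S_O7) {N : ℕ} (hN : 0 < N) {H : Ideal (OO k) → Prop}
    (h1 : H ⊤) (hcop : ∀ a : Ideal (OO k), H a → a ≠ ⊥ ∧ PrI a N)
    (hper : ∀ a a' : Ideal (OO k), H a → Ray N a a' → H a')
    (hmul : ∀ a a' : Ideal (OO k), H a → H a' → H (a * a')) {a a' : Ideal (OO k)} (ha : H a)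
    (hr : Ray N (a * a') ⊤) : H a' := by
  obtain ⟨-, r2, r3, -, r5, -, -, -, -, R, hR⟩ := hO7 k N hN
  have hpw : ∀ n : ℕ, H (a ^ n) := by
    intro n
    induction n with
    | zero => rw [pow_zero, Ideal.one_eq_top]; exact h1
    | succ n ih => rw [pow_succ]; exact hmul _ _ ih ha
  have hex : ∀ n : ℕ, ∃ b : R, Ray N (a ^ n) (b : Ideal (OO k)) := by
    intro n
    obtain ⟨b, hb, hb'⟩ := hR.ex (a ^ n) (hcop _ (hpw n)).1 (hcop _ (hpw n)).2
    exact ⟨⟨b, hb⟩, hb'⟩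
  choose f hf using hex
  obtain ⟨i, j, hij, hfij⟩ := Finite.exists_ne_map_eq_of_infinite f
  have key : ∀ i j : ℕ, i < j → f i = f j → H a' := by
    intro i j hij hfij
    obtain ⟨m, rfl⟩ : ∃ m, j = m + 1 + i := ⟨j - i - 1, by omega⟩
    have q1 : Ray N (a ^ i) (a ^ (m + 1 + i)) := by
      have := hf i
      rw [hfij] at this
      exact r3 _ _ _ this (r2 _ _ (hf _))
    have q2 : Ray N (⊤ * a ^ i) (a ^ (m + 1) * a ^ i) := by
      rw [Ideal.top_mul, ← pow_add]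
      exact q1
    have q3 := r5 _ _ _ (hcop _ (hpw i)).1 (hcop _ (hpw i)).2 q2
    have q4 : Ray N (a' * a) (a ^ m * a) := by
      rw [mul_comm a' a, ← pow_succ]
      exact r3 _ _ _ hr q3
    have q5 := r5 _ _ _ (hcop _ ha).1 (hcop _ ha).2 q4
    exact hper _ _ (hpw m) (r2 _ _ q5)
  rcases Nat.lt_or_gt_of_ne hij with h | h
  · exact key i j h hfij
  · exact key j i h hfij.symm

/-- **Galois theory for `FixI`.** -/
theorem sE8 : S_E1 → S_O7 → S_Op → S_E8 := by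
  intro hE1 hO7 hOp k _ N H hN h1 hcop hper hmul
  have hGal : IsGalois ℚ Om := Fix_isGalois
  have hGKo := Fix_open k
  obtain ⟨O, hO⟩ := hOp k N hN
  obtain ⟨hEx, hUq, -, -, -⟩ := hE1 k N hN
  obtain ⟨r1, r2, r3, -, -, -, -, -, -, -⟩ := hO7 k N hN
  -- the subgroup `W`
  obtain ⟨W, hW⟩ : ∃ W : Subgroup Gal(Om/ℚ),
      ∀ σ, σ ∈ W ↔ σ ∈ GK k ∧ ∀ a : Ideal (OO k), Psi σ N a → H a := by
    refine ⟨{ carrier := {σ | σ ∈ GK k ∧ ∀ a : Ideal (OO k), Psi σ N a → H a}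
              mul_mem' := ?_
              one_mem' := ?_
              inv_mem' := ?_ }, fun σ => Iff.rfl⟩
    · rintro σ τ ⟨s1, s2⟩ ⟨t1, t2⟩
      refine ⟨mul_mem s1 t1, fun a ha => ?_⟩
      obtain ⟨b, hb⟩ := hEx σ s1
      obtain ⟨c, hc⟩ := hEx τ t1
      exact hper _ _ (hmul _ _ (s2 b hb) (t2 c hc)) (hUq _ _ _ (psi_mul hb hc) ha)
    · exact ⟨one_mem _, fun a ha => hper _ _ h1 (hUq _ _ _ (psi_top N) ha)⟩
    · rintro σ ⟨s1, s2⟩
      refine ⟨inv_mem s1, fun a ha => ?_⟩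
      obtain ⟨b, hb⟩ := hEx σ s1
      have h3 : Psi (σ * σ⁻¹) N (b * a) := psi_mul hb ha
      rw [mul_inv_cancel] at h3
      exact Fix_inv hO7 hN h1 hcop hper hmul (s2 b hb) (hUq _ _ _ h3 (psi_top N))
  have hWiff : ∀ σ ∈ GK k, ∀ a : Ideal (OO k), Psi σ N a → (σ ∈ W ↔ H a) := by
    intro σ hσ a ha
    rw [hW]
    exact ⟨fun h => h.2 a ha, fun h => ⟨hσ, fun a' ha' => hper _ _ h (hUq _ _ _ ha ha')⟩⟩
  -- `W` is open
  have hle : GK k ⊓ (O : Subgroup Gal(Om/ℚ)) ≤ W := by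
    rintro σ ⟨s1, s2⟩
    exact (hWiff σ s1 ⊤ (hO σ s2).1).2 h1
  have hWo : IsOpen (W : Set Gal(Om/ℚ)) := by
    refine Subgroup.isOpen_mono hle ?_
    rw [Subgroup.coe_inf]
    exact hGKo.inter O.isOpen
  have hclosed : IsClosed (W : Set Gal(Om/ℚ)) := Subgroup.isClosed_of_isOpen W hWo
  have hM : (IntermediateField.fixedField W).fixingSubgroup = W :=
    InfiniteGalois.fixingSubgroup_fixedField (k := ℚ) (K := Om) ⟨W, hclosed⟩
  have hF : FixI N H = IntermediateField.fixedField W := by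
    ext x
    rw [IntermediateField.mem_fixedField_iff]
    constructor
    · intro hx σ hσ
      obtain ⟨s1, s2⟩ := (hW σ).1 hσ
      obtain ⟨a, ha⟩ := hEx σ s1
      exact hx σ s1 a ha (s2 a ha)
    · intro hx σ hσ a ha hHa
      exact hx σ ((hWiff σ hσ a ha).2 hHa)
  refine ⟨?_, ?_, ?_⟩
  · rw [hF, ← InfiniteGalois.isOpen_iff_finite]
    rw [hM]
    exact hWo
  · intro x hx σ hσ a _ _
    exact (IntermediateField.mem_fixingSubgroup_iff (KQ k) σ).1 hσ x hx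
  · intro τ hτ a ha
    rw [← hWiff τ hτ a ha, ← hM, IntermediateField.mem_fixingSubgroup_iff, hF]

end Pool.Agent.DK.Eb
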