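import Pool.Agent.Lib.DK.E.SpecB

/-!
# Theorem DK, part E: Frobenius elements in `Gal(Om/K)`

Author helper72 (after `DI/E/FrQ.lean`).
-/

set_option autoImplicit false

open scoped Pointwise nonZeroDivisors

noncomputable section

namespace Pool.Agent.DK.Eb

open Pool.Agent.MuZ Pool.Agent.FW NumberField IsDedekindDomain Pool.Agent.DK
open Pool.Agent.DI (io ofC io_inj exists_io io_ofC ofC_io VP MP UP TP ex sqr sqr_sq kap)

variable {k : ℕ}

/-- Fermat's little theorem for a prime ideal of degree one. -/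
private theorem Fr_pow {q : Ideal (OO k)} {l : ℕ} (hl : l.Prime) (hq : NI q = l) (v : OO k) :
    v ^ l - v ∈ q := by
  have hl0 : Fact l.Prime := ⟨hl⟩
  have hc : Nat.card (OO k ⧸ q) = l := hq
  have hfin : Finite (OO k ⧸ q) := Nat.finite_of_card_ne_zero (by rw [hc]; exact hl.ne_zero)
  have hft : Fintype (OO k ⧸ q) := Fintype.ofFinite _
  have hcard : Fintype.card (OO k ⧸ q) = l := by
    rw [← hc, Nat.card_eq_fintype_card]
  let e : ZMod l ≃+* (OO k ⧸ q) := ZMod.ringEquivOfPrime _ hl hcard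
  have h1 : ∀ x : OO k ⧸ q, x ^ l = x := by
    intro x
    obtain ⟨y, rfl⟩ := e.surjective x
    rw [← map_pow, ZMod.pow_card]
  rw [← Ideal.Quotient.eq_zero_iff_mem, map_sub, map_pow, h1, sub_self]

theorem tFr : S_F0 → S_AbQ → S_Fr := by
  intro hF0 hAbQ k _ q l hq hlD
  obtain ⟨_, h2, _, _, _, h6⟩ := hAbQ k
  obtain ⟨Q, hQ, hQq⟩ := h2 q hq.1 hq.2.1
  have hQp : Q.IsPrime := hQ.1
  obtain ⟨hlM, hU⟩ := h6 Q q l hQ hq hQq
  have hlQ : (l : ZZ) ∈ Q := (DI.MP.nat_iff (P := Q) l).1 hlM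
  obtain ⟨τ, hτ⟩ := hF0 Q l hQ hq.2.2.1 hlQ
  refine ⟨Q, τ, hQ, hQq, mem_GK_iff.2 ?_, hτ⟩
  have h3 : (τ (wO k)) ^ 2 = τ (wO k) - 2 * k := by
    rw [← map_pow, wO_sq, map_sub, map_mul, map_ofNat, map_natCast]
  have h4 : (τ (wO k) - wO k) * (τ (wO k) + wO k - 1) = 0 := by
    linear_combination h3 - wO_sq (k := k)
  rcases mul_eq_zero.1 h4 with h5 | h5
  · exact sub_eq_zero.1 h5
  · exfalso
    have hwI : IsIntegral ℤ (wO k) := by
      rw [← toO_wI]
      exact toO_integral _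
    have hwl : MP Q (wO k ^ l - wO k) := by
      have h7 := hQq _ (Fr_pow hq.2.2.1 hq.2.2.2 (wI k))
      rwa [toO_sub, toO_pow, toO_wI] at h7
    have hτw : MP Q (τ (wO k) - wO k ^ l) := DI.VP.frob hτ (DI.VP.integral hwI)
    have h6 : MP Q (1 - 2 * wO k) := by
      have e : 1 - 2 * wO k = (τ (wO k) - wO k ^ l) + (wO k ^ l - wO k) := by
        linear_combination -h5
      rw [e]
      exact DI.MP.add hτw hwl
    have h8 : MP Q ((1 - 2 * wO k) * (1 - 2 * wO k)) := DI.MP.mul_left (DI.MP.vp h6) h6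
    have h9 : (1 - 2 * wO k) * (1 - 2 * wO k) = -((Dk k : ℤ) : Om) := by
      rw [Dk_cast]
      push_cast
      linear_combination 4 * wO_sq (k := k)
    rw [h9] at h8
    have h10 : MP Q ((Dk k : ℤ) : Om) := by
      have := DI.MP.neg h8
      rwa [neg_neg] at this
    have h11 : UP Q ((Dk k : ℤ) : Om) := hU (Dk k) (fun h => hlD (by exact_mod_cast h))
    exact h11.2 h10

end Pool.Agent.DK.Eb
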