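import Pool.Agent.Lib.DK.E.Inr
import Pool.Agent.Lib.DK.E.Ab
import Pool.Agent.Lib.DK.E.Cj

set_option autoImplicit false

/-!
# Theorem DK, part E: the fields `FixI N H` for a general group `H` of ideal classes

`HG N H` (in `DK/E/SpecB.lean`) are the hypotheses on `H`. Normality over `ℚ` (`fixI_normal`), unramifiedness at `2` (`tInrG`), and
`HG N (Ray N · ⊤)` (`hgRay`).
-/

open scoped Pointwise nonZeroDivisors

noncomputable section

namespace Pool.Agent.DK.Eb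

open Pool.Agent.MuZ Pool.Agent.FW NumberField IsDedekindDomain Pool.Agent.DK
open Pool.Agent.DI (io ofC io_inj exists_io io_ofC ofC_io VP MP UP TP ex sqr sqr_sq kap)

/-- Inertia above `2` is in `GK k`. -/
theorem inertia_GK {k : ℕ} [SqK k] {P : Ideal ZZ} (hP : Npr P) (h2 : MP P 2) {τ : Gal(Om/ℚ)}
    (hτ : τ ∈ P.inertia Gal(Om/ℚ)) : τ ∈ GK k := by
  have : P.IsPrime := hP.1
  rw [mem_GK_iff]
  have hv : VP P (wO k) := by
    have h := toO_VP (P := P) (wI k)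
    rwa [toO_wI] at h
  have h := DI.VP.inertia hτ hv
  have hsq := wO_sq (k := k)
  have h3 : (τ (wO k) - wO k) * (τ (wO k) - (1 - wO k)) = 0 := by
    have h4 := congrArg τ hsq
    simp only [map_sub, map_mul, map_pow, map_ofNat, map_natCast] at h4
    linear_combination h4 - hsq
  rcases mul_eq_zero.1 h3 with h5 | h5
  · exact sub_eq_zero.1 h5
  · exfalso
    have h6 : τ (wO k) = 1 - wO k := sub_eq_zero.1 h5
    rw [h6] at h
    have h7 : MP P (1 - wO k - wO k + 2 * wO k) := DI.MP.add h (DI.MP.mul_right h2 hv)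
    have h8 : (1 : Om) - wO k - wO k + 2 * wO k = 1 := by ring
    rw [h8] at h7
    exact DI.MP.one_not h7

/-- **`FixI N H` is unramified above `2`, for odd `N`.** -/
theorem tInrG (hIne : FW.S_Ine) (h4 : S_E4) (h8 : S_E8) {k : ℕ} [SqK k] {N : ℕ}
    {H : Ideal (OO k) → Prop} (hN : Odd N) (hg : HG N H)
    (hst : ∀ τ ∈ GK k, ∀ x ∈ FixI N H, τ x ∈ FixI N H) :
    (∀ P : Ideal ZZ, Npr P → MP P 2 → ∀ τ ∈ P.inertia Gal(Om/ℚ), ∀ x ∈ FixI N H, τ x = x) ∧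
    ∀ P : Ideal ZZ, Npr P → MP P 2 → ∀ τ ∈ GK k, (∀ x ∈ FixI N H, VP P x → MP P (τ x - x)) →
      ∀ x ∈ FixI N H, τ x = x := by
  have hN0 : 0 < N := hN.pos
  have part1 : ∀ P : Ideal ZZ, Npr P → MP P 2 → ∀ τ ∈ P.inertia Gal(Om/ℚ), ∀ x ∈ FixI N H,
      τ x = x := by
    intro P hP h2 τ hτ x hx
    have hG : τ ∈ GK k := inertia_GK hP h2 hτ
    exact hx τ hG ⊤ ((h4 k P hP τ hG hτ).1 h2 N hN) hg.top
  refine ⟨part1, ?_⟩
  intro P hP h2 τ hG h x hx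
  have : P.IsPrime := hP.1
  obtain ⟨hfd, hle, -⟩ := h8 k N H hN0 hg.top hg.cop hg.ray hg.mul
  obtain ⟨σ, hσ, -, hσx⟩ := hIne (KQ k) (FixI N H) hfd hle P hP.1 hP.2 τ hG (hst τ hG) (by
    intro y hy
    have h5 := h (y : Om) hy (DI.VP.coe y)
    rw [← DI.MP.coe_iff]
    have h6 : ((τ • y - y : ZZ) : Om) = τ (y : Om) - (y : Om) := rfl
    rw [h6]
    exact h5)
  rw [← hσx x hx]
  exact part1 P hP h2 σ hσ x hx

/-- **`FixI N H` is normal over `ℚ`.** -/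
theorem fixI_normal (hC : S_Cj) {k : ℕ} [SqK k] {N : ℕ} {H : Ideal (OO k) → Prop} (hN : 0 < N)
    (hg : HG N H) : ∀ τ : Gal(Om/ℚ), ∀ x ∈ FixI N H, τ x ∈ FixI N H := by
  obtain ⟨c, -, hc⟩ := hC
  exact (hc k).2.2 N H hN hg.ray hg.cj

/-- **The ray class group itself.** -/
theorem hgRay (h3 : S_O3) (h7 : S_O7) {k : ℕ} [SqK k] {N : ℕ} (hN : 0 < N) :
    HG N (fun a : Ideal (OO k) => Ray N a ⊤) := by
  obtain ⟨r1, r2, r3, r4, -, r6, -⟩ := h7 k N hN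
  obtain ⟨-, c2, -, c4, -, c6⟩ := h3 k
  have hcT : cjI (⊤ : Ideal (OO k)) = ⊤ := by
    have h := c4 (1 : OO k)
    rw [cjO_one] at h
    rwa [show sp (1 : OO k) = ⊤ from Ideal.span_singleton_one] at h
  refine ⟨r1 ⊤, fun a ha => ?_, fun a a' ha haa' => r3 _ _ _ (r2 _ _ haa') ha, fun a a' ha ha' => ?_,
    fun a ha => ?_⟩
  · obtain ⟨h1, h2⟩ := r6 _ _ ha
    exact ⟨h1.2 ne_top, h2.2 (pri_top N)⟩
  · have h := r4 _ _ _ _ ha ha'
    rwa [Ideal.top_mul] at h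
  · have h := c6 N _ _ ha
    rwa [hcT] at h

end Pool.Agent.DK.Eb
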