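import Pool.Agent.Lib.DK.E.SpecB

/-!
# Theorem DK, part E, module HPM: the groups `HP f`, `HPN f N`
-/

set_option autoImplicit false

open scoped Pointwise nonZeroDivisors

noncomputable section

namespace Pool.Agent.DK.Eb

open Pool.Agent.MuZ Pool.Agent.FW NumberField IsDedekindDomain Pool.Agent.DK
open Pool.Agent.DI (io ofC io_inj exists_io io_ofC ofC_io VP MP UP TP ex sqr sqr_sq kap)

variable {k : ℕ}

private theorem HPM_rpow [SqK k] (h7 : S_O7) {N : ℕ} (hN : 0 < N) {a b : Ideal (OO k)}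
    (h : Ray N a b) (n : ℕ) : Ray N (a ^ n) (b ^ n) := by
  induction n with
  | zero => rw [pow_zero, pow_zero]; exact (h7 k N hN).1 _
  | succ n ih => rw [pow_succ, pow_succ]; exact (h7 k N hN).2.2.2.1 _ _ _ _ ih h

private theorem HPM_pm {M x y : ℤ} (hx : M ∣ x - 1 ∨ M ∣ x + 1) (hy : M ∣ y - 1 ∨ M ∣ y + 1) :
    M ∣ x * y - 1 ∨ M ∣ x * y + 1 := by
  rcases hx with hx | hx <;> rcases hy with hy | hy
  · left
    have e : x * y - 1 = (x - 1) * y + (y - 1) := by ring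
    rw [e]
    exact dvd_add (hx.mul_right y) hy
  · right
    have e : x * y + 1 = (x - 1) * y + (y + 1) := by ring
    rw [e]
    exact dvd_add (hx.mul_right y) hy
  · right
    have e : x * y + 1 = (x + 1) * y - (y - 1) := by ring
    rw [e]
    exact dvd_sub (hx.mul_right y) hy
  · left
    have e : x * y - 1 = (x + 1) * y - (y + 1) := by ring
    rw [e]
    exact dvd_sub (hx.mul_right y) hy

private theorem HPM_cg {M x y : ℤ} (hx : M ∣ x - 1 ∨ M ∣ x + 1) (h : M ∣ y - x) :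
    M ∣ y - 1 ∨ M ∣ y + 1 := by
  rcases hx with hx | hx
  · left
    have e : y - 1 = (x - 1) + (y - x) := by ring
    rw [e]
    exact dvd_add hx h
  · right
    have e : y + 1 = (x + 1) + (y - x) := by ring
    rw [e]
    exact dvd_add hx h

/-- The classes of the principal ideals with a generator in a group `V`. -/
private theorem HPM_gen [SqK k] (h3 : S_O3) (h6 : S_O6) (h7 : S_O7) {M : ℕ} (hM : 0 < M)
    (V : OO k → Prop) (v1 : V 1) (vc : ∀ v, V v → Cop v M) (vm : ∀ v u, V v → V u → V (v * u))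
    (vj : ∀ v, V v → V (cjO v)) (H : Ideal (OO k) → Prop)
    (hH : ∀ a, H a ↔ ∃ v : OO k, v ≠ 0 ∧ V v ∧ Ray M a (sp v)) : HG M H where
  top := by
    refine (hH ⊤).2 ⟨1, one_ne_zero, v1, ?_⟩
    have e : sp (1 : OO k) = ⊤ := Ideal.span_singleton_one
    rw [e]
    exact (h7 k M hM).1 _
  cop := by
    intro a ha
    obtain ⟨v, hv, h, hr⟩ := (hH a).1 ha
    obtain ⟨g1, g2⟩ := (h7 k M hM).2.2.2.2.2.1 _ _ hr
    exact ⟨g1.2 (ne_sp hv), g2.2 (((h6 k).2.2.2.1 M v hM).2 (vc v h))⟩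
  ray := by
    intro a a' ha h
    obtain ⟨v, hv, g, hr⟩ := (hH a).1 ha
    exact (hH a').2 ⟨v, hv, g, (h7 k M hM).2.2.1 _ _ _ ((h7 k M hM).2.1 _ _ h) hr⟩
  mul := by
    intro a a' ha ha'
    obtain ⟨v, hv, g, hr⟩ := (hH a).1 ha
    obtain ⟨u, hu, g', hr'⟩ := (hH a').1 ha'
    refine (hH _).2 ⟨v * u, mul_ne_zero hv hu, vm v u g g', ?_⟩
    have h := (h7 k M hM).2.2.2.1 _ _ _ _ hr hr'
    have e : sp v * sp u = sp (v * u) := Ideal.span_singleton_mul_span_singleton v u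
    rwa [e] at h
  cj := by
    intro a ha
    obtain ⟨v, hv, g, hr⟩ := (hH a).1 ha
    refine (hH _).2 ⟨cjO v, ?_, vj v g, ?_⟩
    · intro h0
      apply hv
      rw [← cjO_cjO v, h0, cjO_zero]
    · have h := (h3 k).2.2.2.2.2 M _ _ hr
      rwa [(h3 k).2.2.2.1 v] at h

private theorem HPM_mono {f j j' : ℕ} {v : OO k} (h : (f : OO k) ∣ v ^ 2 ^ j - 1) (hj : j ≤ j') :
    (f : OO k) ∣ v ^ 2 ^ j' - 1 := by
  obtain ⟨i, rfl⟩ := Nat.exists_eq_add_of_le hj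
  rw [pow_add, pow_mul]
  have h1 := sub_dvd_pow_sub_pow (v ^ 2 ^ j) 1 (2 ^ i)
  rw [one_pow] at h1
  exact h.trans h1

private theorem HPM_f1 (f : ℕ) : Hf f (1 : OO k) :=
  ⟨cop_one f, 0, by rw [one_pow, sub_self]; exact dvd_zero _⟩

private theorem HPM_fm {f : ℕ} {v u : OO k} (hv : Hf f v) (hu : Hf f u) : Hf f (v * u) := by
  obtain ⟨h1, j, hj⟩ := hv
  obtain ⟨h2, i, hi⟩ := hu
  refine ⟨cop_mul h1 h2, max j i, ?_⟩
  have g1 := HPM_mono hj (le_max_left j i)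
  have g2 := HPM_mono hi (le_max_right j i)
  have e : (v * u) ^ 2 ^ max j i - 1 =
      (v ^ 2 ^ max j i - 1) * u ^ 2 ^ max j i + (u ^ 2 ^ max j i - 1) := by
    rw [mul_pow]
    ring
  rw [e]
  exact dvd_add (g1.mul_right _) g2

private theorem HPM_fj {f : ℕ} {v : OO k} (hv : Hf f v) : Hf f (cjO v) := by
  obtain ⟨h1, j, c, hc⟩ := hv
  refine ⟨cop_cj h1, j, cjO c, ?_⟩
  have h := congrArg (cjE k) hc
  rw [map_sub, map_pow, map_one, map_mul, map_natCast] at h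
  exact h

private theorem HPM_c {f N : ℕ} {v : OO k} (h : Cop v (2 * f)) : Cop v (f * 2 ^ N) := by
  unfold Cop at *
  push_cast at *
  rw [IsCoprime.mul_right_iff] at *
  exact ⟨h.2, h.1.pow_right⟩

/-- **`S_HPM`**, the groups `HP f`, `HPN f N`. -/
theorem tHPM : S_O2 → S_O3 → S_O6 → S_O7 → S_O9 → S_H2M → S_HPM := by
  intro h2 h3 h6 h7 h9 _ k _ f hf _
  have hf0 : 0 < f := hf.pos
  have hN : ∀ N : ℕ, 0 < f * 2 ^ N := fun N => Nat.mul_pos hf0 (by positivity)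
  have A : HG f (HP (k := k) f) :=
    HPM_gen h3 h6 h7 hf0 (Hf f) (HPM_f1 f) (fun v hv => hv.1) (fun v u => HPM_fm)
      (fun v => HPM_fj) _ (fun a => Iff.rfl)
  have B : ∀ N : ℕ, HG (f * 2 ^ N) (HPN (k := k) f N) := by
    intro N
    refine HPM_gen h3 h6 h7 (hN N) (fun v => HN f N v ∧ Cop v (2 * f))
      ⟨⟨HPM_f1 f, Or.inl ?_⟩, cop_one _⟩ (fun v hv => HPM_c hv.2) ?_ ?_ _ ?_
    · rw [Nm_one, sub_self]
      exact dvd_zero _
    · rintro v u ⟨⟨g1, g2⟩, g3⟩ ⟨⟨g4, g5⟩, g6⟩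
      refine ⟨⟨HPM_fm g1 g4, ?_⟩, cop_mul g3 g6⟩
      rw [Nm_mul]
      exact HPM_pm g2 g5
    · rintro v ⟨⟨g1, g2⟩, g3⟩
      refine ⟨⟨HPM_fj g1, ?_⟩, cop_cj g3⟩
      rw [Nm_cjO]
      exact g2
    · intro a
      constructor
      · rintro ⟨v, g1, g2, g3, g4⟩
        exact ⟨v, g1, ⟨g2, g3⟩, g4⟩
      · rintro ⟨v, g1, ⟨g2, g3⟩, g4⟩
        exact ⟨v, g1, g2, g3, g4⟩
  have C : ∀ a : Ideal (OO k), HP f a → H2 f a := by
    rintro a ⟨v, g1, ⟨g2, j, hj⟩, g3⟩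
    refine ⟨j, ?_⟩
    have g4 := HPM_rpow h7 hf0 g3 (2 ^ j)
    rw [Ideal.span_singleton_pow] at g4
    refine (h7 k f hf0).2.2.1 _ _ _ g4 ?_
    have g5 : Cop (v ^ 2 ^ j) f := by
      refine cop_congr (a := 1) ?_ (cop_one f)
      rw [← dvd_neg, neg_sub]
      exact hj
    have g6 := ((h7 k f hf0).2.2.2.2.2.2.2.1 (v ^ 2 ^ j) 1 (pow_ne_zero _ g1) one_ne_zero g5
      (cop_one f)).2 (Or.inl hj)
    have e : sp (1 : OO k) = ⊤ := Ideal.span_singleton_one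
    rwa [e] at g6
  refine ⟨A, B, C, ?_⟩
  intro N a ha
  have hc := ((B N).cop a ha).2
  obtain ⟨v, g1, ⟨g2, g3⟩, g4, g5⟩ := ha
  have g6 : Ray f a (sp v) := (h7 k _ (hN N)).2.2.2.2.2.2.1 f _ _ (dvd_mul_right _ _) g5
  refine ⟨C a ⟨v, g1, g2, g6⟩, ?_⟩
  have g7 := h9 k _ (hN N) a (sp v) hc (((h6 k).2.2.2.1 _ v (hN N)).2 (HPM_c g4)) g5
  rw [(h2 k).2.2.2.1 v] at g7
  refine HPM_cg g3 (dvd_trans ?_ g7)
  push_cast
  exact dvd_mul_left _ _

end Pool.Agent.DK.Eb
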