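import Pool.Agent.Lib.DK.E.SpecA

/-!
# Theorem DK, part E: distinct algebraic numbers are incongruent almost everywhere (module `Inc`)
-/

set_option autoImplicit false

noncomputable section

namespace Pool.Agent.DK

open Pool.Agent.MuZ Pool.Agent.FW NumberField
open Pool.Agent.DI (io ofC io_inj exists_io io_ofC ofC_io VP MP UP TP ex sqr sqr_sq kap)

private theorem Inc_den (x : Om) :
    ∃ n : ℕ, 0 < n ∧ ∀ Q : Ideal ZZ, Npr Q → ¬ MP Q (n : Om) → VP Q x := by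
  have halg : IsAlgebraic ℤ x := by
    have h : IsAlgebraic ℚ x := Algebra.IsAlgebraic.isAlgebraic x
    exact (IsFractionRing.isAlgebraic_iff ℤ ℚ Om).2 h
  obtain ⟨y, hy, hi⟩ := halg.exists_integral_multiple
  refine ⟨y.natAbs, Int.natAbs_pos.2 hy, ?_⟩
  intro Q hQ hn
  have hP : Q.IsPrime := hQ.1
  have h1 : IsIntegral ℤ ((y.natAbs : Om) * x) := by
    rw [zsmul_eq_mul] at hi
    rcases Int.natAbs_eq y with h | h
    · rw [h] at hi
      simpa using hi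
    · rw [h] at hi
      have := hi.neg
      simpa using this
  have h2 : VP Q ((y.natAbs : Om) * x) := DI.VP.integral h1
  have h3 : VP Q ((y.natAbs : Om))⁻¹ := DI.VP.inv (DI.VP.nat _) hn
  have h4 : x = ((y.natAbs : Om))⁻¹ * ((y.natAbs : Om) * x) := by
    have : (y.natAbs : Om) ≠ 0 := by
      have := Int.natAbs_pos.2 hy
      exact_mod_cast this.ne'
    field_simp
  rw [h4]
  exact DI.VP.mul h3 h2

private theorem Inc_dvd {Q : Ideal ZZ} (hQ : Npr Q) {a b : ℕ} (h : a ∣ b) (hb : ¬ MP Q (b : Om)) :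
    ¬ MP Q (a : Om) := by
  have hP : Q.IsPrime := hQ.1
  obtain ⟨c, rfl⟩ := h
  intro ha
  apply hb
  rw [Nat.cast_mul]
  exact DI.MP.mul_right ha (DI.VP.nat c)

private theorem Inc_unit (x : Om) :
    ∃ n : ℕ, 0 < n ∧ (x ≠ 0 → ∀ Q : Ideal ZZ, Npr Q → ¬ MP Q (n : Om) → UP Q x) := by
  obtain ⟨n, hn, h⟩ := Inc_den x
  obtain ⟨m, hm, h'⟩ := Inc_den x⁻¹
  refine ⟨n * m, Nat.mul_pos hn hm, fun hx Q hQ hnm => ?_⟩
  have hP : Q.IsPrime := hQ.1
  exact DI.UP.iff.2 ⟨hx, h Q hQ (Inc_dvd hQ (dvd_mul_right n m) hnm),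
    h' Q hQ (Inc_dvd hQ (dvd_mul_left m n) hnm)⟩

/-- **Distinct algebraic numbers are incongruent almost everywhere.** -/
theorem sInc : S_Inc := by
  classical
  intro A hA
  choose f hf1 hf2 using Inc_den
  choose g hg1 hg2 using Inc_unit
  let F : Finset Om := hA.toFinset
  have hF : ∀ x, x ∈ F ↔ x ∈ A := fun x => hA.mem_toFinset
  refine ⟨(∏ x ∈ F, f x) * ∏ p ∈ F ×ˢ F, g (p.1 - p.2),
    Nat.mul_pos (Finset.prod_pos fun x _ => hf1 x) (Finset.prod_pos fun p _ => hg1 _), ?_⟩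
  intro Q l hQ hl hcop
  have hP : Q.IsPrime := hQ.1
  have hB : ¬ MP Q (((∏ x ∈ F, f x) * ∏ p ∈ F ×ˢ F, g (p.1 - p.2) : ℕ) : Om) := by
    intro hB
    obtain ⟨a, b, hab⟩ := Nat.isCoprime_iff_coprime.2 hcop
    apply DI.MP.one_not (P := Q)
    have h1 : (1 : Om) = (a : Om) * (l : Om) +
        (b : Om) * (((∏ x ∈ F, f x) * ∏ p ∈ F ×ˢ F, g (p.1 - p.2) : ℕ) : Om) := by
      have := congrArg (Int.cast (R := Om)) hab
      rw [Int.cast_add, Int.cast_mul, Int.cast_mul, Int.cast_natCast, Int.cast_natCast,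
        Int.cast_one] at this
      exact this.symm
    rw [h1]
    exact DI.MP.add (DI.MP.mul_left (DI.VP.int a) hl) (DI.MP.mul_left (DI.VP.int b) hB)
  refine ⟨?_, ?_⟩
  · intro x hx
    refine hf2 x Q hQ (Inc_dvd hQ ?_ hB)
    exact (Finset.dvd_prod_of_mem f ((hF x).2 hx)).mul_right _
  · intro x hx y hy hxy
    by_contra hne
    have h1 : g (x - y) ∣ (∏ x ∈ F, f x) * ∏ p ∈ F ×ˢ F, g (p.1 - p.2) := by
      refine Dvd.dvd.mul_left ?_ _
      exact Finset.dvd_prod_of_mem (fun p : Om × Om => g (p.1 - p.2))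
        (Finset.mem_product.2 ⟨(hF x).2 hx, (hF y).2 hy⟩ : (x, y) ∈ F ×ˢ F)
    exact (hg2 (x - y) (sub_ne_zero.2 hne) Q hQ (Inc_dvd hQ h1 hB)).2 hxy

end Pool.Agent.DK
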