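import Pool.Agent.Lib.DK.E.SpecB

set_option autoImplicit false

/-!
# Theorem DK, part E, module Inr: inertia above `2` is in `GK k`, and unramifiedness
-/

open scoped Pointwise nonZeroDivisors

noncomputable section

namespace Pool.Agent.DK.Eb

open Pool.Agent.MuZ Pool.Agent.FW NumberField IsDedekindDomain Pool.Agent.DK
open Pool.Agent.DI (io ofC io_inj exists_io io_ofC ofC_io VP MP UP TP ex sqr sqr_sq kap)

private theorem Inr_GK {k : ℕ} [SqK k] {P : Ideal ZZ} (hP : Npr P) (h2 : MP P 2) {τ : Gal(Om/ℚ)}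
    (hτ : τ ∈ P.inertia Gal(Om/ℚ)) : τ ∈ GK k := by
  have : P.IsPrime := hP.1
  rw [mem_GK_iff]
  have hv : VP P (wO k) := by
    have h := toO_VP (P := P) (wI k)
    rwa [toO_wI] at h
  have h := DI.VP.inertia hτ hv
  have hsq := wO_sq (k := k)
  have h3 : (τ (wO k) - wO k) * (τ (wO k) - (1 - wO k)) = 0 := by
    have h4 := congrArg τ hsq
    simp only [map_sub, map_mul, map_pow, map_ofNat, map_natCast] at h4
    linear_combination h4 - hsq
  rcases mul_eq_zero.1 h3 with h5 | h5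
  · exact sub_eq_zero.1 h5
  · exfalso
    have h6 : τ (wO k) = 1 - wO k := sub_eq_zero.1 h5
    rw [h6] at h
    have h7 : MP P (1 - wO k - wO k + 2 * wO k) := DI.MP.add h (DI.MP.mul_right h2 hv)
    have h8 : (1 : Om) - wO k - wO k + 2 * wO k = 1 := by ring
    rw [h8] at h7
    exact DI.MP.one_not h7

theorem tInr : FW.S_Ine → S_E4 → S_E8 → S_HPM → S_Inr := by
  intro hIne h4 h8 hPM k _ f hf h3 hst
  have hf0 : 0 < f := hf.pos
  obtain ⟨hg, -, -, -⟩ := hPM k f hf h3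
  have part1 : ∀ P : Ideal ZZ, Npr P → MP P 2 → ∀ τ ∈ P.inertia Gal(Om/ℚ), ∀ x ∈ Mf k f,
      τ x = x := by
    intro P hP h2 τ hτ x hx
    have hG : τ ∈ GK k := Inr_GK hP h2 hτ
    exact hx τ hG ⊤ ((h4 k P hP τ hG hτ).1 h2 f hf) hg.top
  refine ⟨part1, ?_⟩
  intro P hP h2 τ hG h x hx
  have : P.IsPrime := hP.1
  obtain ⟨hfd, hle, -⟩ := h8 k f (HP (k := k) f) hf0 hg.top hg.cop hg.ray hg.mul
  obtain ⟨σ, hσ, -, hσx⟩ := hIne (KQ k) (Mf k f) hfd hle P hP.1 hP.2 τ hG (hst τ hG) (by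
    intro y hy
    have h5 := h (y : Om) hy (DI.VP.coe y)
    rw [← DI.MP.coe_iff]
    have h6 : ((τ • y - y : ZZ) : Om) = τ (y : Om) - (y : Om) := rfl
    rw [h6]
    exact h5)
  rw [← hσx x hx]
  exact part1 P hP h2 σ hσ x hx

end Pool.Agent.DK.Eb
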