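import Pool.Agent.Lib.DK.E.SpecA

/-!
# Theorem DK: homogeneity for elements of `K`
-/

set_option autoImplicit false

noncomputable section

namespace Pool.Agent.DK

theorem sIso (h : S_XOm) : S_Iso := by
  intro k _ a a' α α' ha ha' hα hα' he b hb
  have hX : a * b ≠ ⊥ := mul_ne_zero ha hb
  have hX' : a' * b ≠ ⊥ := mul_ne_zero ha' hb
  have e : sp α * (a * b) = sp α' * (a' * b) := by
    rw [← mul_assoc, ← mul_assoc, he]
  have h1 : (∀ z : ℂ, xO (sp α * (a * b)) z = xO (a * b) (toC α * z)) ∧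
      dO (sp α * (a * b)) = dO (a * b) ∧ tO (sp α * (a * b)) = tO (a * b) := by
    obtain ⟨-, -, -, -, -, -, -, -, h9⟩ := h k (a * b) hX
    exact h9 α hα
  have h2 : (∀ z : ℂ, xO (sp α' * (a' * b)) z = xO (a' * b) (toC α' * z)) ∧
      dO (sp α' * (a' * b)) = dO (a' * b) ∧ tO (sp α' * (a' * b)) = tO (a' * b) := by
    obtain ⟨-, -, -, -, -, -, -, -, h9⟩ := h k (a' * b) hX'
    exact h9 α' hα'
  rw [← e] at h2
  refine ⟨h2.2.1.symm.trans h1.2.1, h2.2.2.symm.trans h1.2.2, fun z => ?_⟩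
  have hc : toC α' ≠ 0 := toC_ne hα'
  have e1 : toC α' * (z / toC α') = z := by field_simp
  have e2 : toC α / toC α' * z = toC α * (z / toC α') := by ring
  constructor
  · have h3 := h2.1 (z / toC α')
    rw [e1] at h3
    rw [← h3, h1.1, e2]
  · rw [e2, ← lam_sp, e, lam_sp, e1]

end Pool.Agent.DK
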