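import Pool.Agent.Lib.DK.E.SpecA

/-!
# Theorem DK, part E, module OpA: open subgroups
-/

set_option autoImplicit false

open scoped Pointwise

noncomputable section

namespace Pool.Agent.DK

open Pool.Agent.MuZ Pool.Agent.FW NumberField

private lemma OpA_gal : IsGalois ℚ Om := by
  have h1 : Algebra.IsAlgebraic ℚ Om := by
    have h : @Algebra.IsAlgebraic ℚ Om _ _ (AlgebraicClosure.instAlgebra ℚ) :=
      AlgebraicClosure.isAlgebraic ℚ
    have e : (AlgebraicClosure.instAlgebra ℚ : Algebra ℚ Om) = DivisionRing.toRatAlgebra :=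
      Subsingleton.elim _ _
    rw [e] at h
    exact h
  have : IsAlgClosure ℚ Om := ⟨inferInstance, h1⟩
  infer_instance

/-- **Open subgroups.** -/
theorem sOpA : S_OpA := by
  refine ⟨fun A hA => ?_, fun k _ U H hH hU hmul τ hτ => ?_⟩
  · have hfin : Finite A := hA.to_subtype
    have hE : FiniteDimensional ℚ (IntermediateField.adjoin ℚ A) :=
      IntermediateField.finiteDimensional_adjoin fun x _ => Algebra.IsIntegral.isIntegral x
    refine ⟨⟨(IntermediateField.adjoin ℚ A).fixingSubgroup,
      IntermediateField.fixingSubgroup_isOpen _⟩, ?_⟩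
    intro τ hτ
    have hτ' : τ ∈ (IntermediateField.adjoin ℚ A).fixingSubgroup := hτ
    rw [IntermediateField.mem_fixingSubgroup_iff] at hτ'
    exact fun x hx => hτ' x (IntermediateField.subset_adjoin ℚ _ hx)
  · have hgal := OpA_gal
    have hfin : Finite (Gal(Om/ℚ) ⧸ (U : Subgroup Gal(Om/ℚ))) :=
      Subgroup.quotient_finite_of_isOpen _ U.isOpen
    have hidx : (U : Subgroup Gal(Om/ℚ)).index ≠ 0 := Subgroup.index_ne_zero_of_finite
    obtain ⟨n, hn, -, hnU⟩ := Subgroup.exists_pow_mem_of_index_ne_zero hidx τ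
    have hpow : ∀ m : ℕ, τ ^ (m + 1) ∈ H := by
      intro m
      induction m with
      | zero => rwa [zero_add, pow_one]
      | succ m ih =>
        rw [pow_succ]
        exact hmul _ ih _ hτ
    have h1 : (τ ^ n)⁻¹ ∈ H := by
      refine hU _ ?_ ?_
      · exact (GK k).inv_mem ((GK k).pow_mem (hH hτ) n)
      · exact inv_mem hnU
    rcases n with _ | _ | n
    · exact absurd hn (lt_irrefl 0)
    · rwa [zero_add, pow_one] at h1
    · have e : τ⁻¹ = τ ^ (n + 1) * (τ ^ (n + 1 + 1))⁻¹ := by
        rw [pow_succ' τ (n + 1), mul_inv_rev, mul_inv_cancel_left]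
      rw [e]
      exact hmul _ (hpow n) _ h1

end Pool.Agent.DK
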