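import Pool.Agent.Lib.DK.E.SpecA

set_option autoImplicit false

/-!
# Theorem DK, part E, module PsC: complex conjugation of `Psi`
-/

open scoped Pointwise nonZeroDivisors

noncomputable section

namespace Pool.Agent.DK

open Pool.Agent.MuZ Pool.Agent.FW NumberField IsDedekindDomain
open Pool.Agent.DI (io ofC io_inj exists_io io_ofC ofC_io VP MP UP TP ex sqr sqr_sq kap)

section PsC

variable {c : Gal(Om/ℚ)} (hc : ∀ x : Om, io (c x) = (starRingEnd ℂ) (io x))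

include hc

private theorem PsC_eq {c' : Gal(Om/ℚ)} (hc' : ∀ x : Om, io (c' x) = (starRingEnd ℂ) (io x)) :
    c' = c :=
  AlgEquiv.ext fun x => io_inj (by rw [hc', hc])

private theorem PsC_cc (x : Om) : c (c x) = x := by
  apply io_inj
  rw [hc, hc, Complex.conj_conj]

private theorem PsC_inv : c⁻¹ = c := by
  have h : c * c = 1 := AlgEquiv.ext fun x => PsC_cc hc x
  exact inv_eq_of_mul_eq_one_left h

private theorem PsC_w {k : ℕ} [SqK k] : c (wO k) = 1 - wO k := by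
  apply io_inj
  rw [hc, io_wO, conj_wC, map_sub, map_one, io_wO]

private theorem PsC_GK {k : ℕ} [SqK k] {τ : Gal(Om/ℚ)} (hτ : τ ∈ GK k) : c * τ * c⁻¹ ∈ GK k := by
  rw [mem_GK_iff, PsC_inv hc, AlgEquiv.mul_apply, AlgEquiv.mul_apply, PsC_w hc, map_sub, map_one,
    mem_GK_iff.1 hτ, map_sub, map_one, PsC_w hc, sub_sub_cancel]

private theorem PsC_psi {k : ℕ} [SqK k] (hO3 : S_O3) (hL2 : S_L2) (hL5 : S_L5) (hR4 : S_R4)
    (hX : S_XOm) {τ : Gal(Om/ℚ)} {N : ℕ} {a : Ideal (OO k)} (hN : 0 < N) (h : Psi τ N a) :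
    Psi (c * τ * c⁻¹) N (cjI a) := by
  obtain ⟨o1, o2, o3, -, o5, -⟩ := hO3 k
  obtain ⟨-, c', hc', hr⟩ := hR4
  have hcc' : c' = c := PsC_eq hc hc'
  rw [hcc'] at hr
  have hne : ∀ b : Ideal (OO k), b ≠ ⊥ → cjI b ≠ ⊥ := by
    intro b hb hcb
    apply hb
    rw [eq_bot_iff]
    intro v hv
    have h1 : cjO v ∈ cjI b := (o1 b _).2 (by rwa [cjO_cjO])
    rw [hcb] at h1
    have h2 : cjO v = 0 := h1
    have h3 : v = 0 := by rw [← cjO_cjO v, h2, cjO_zero]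
    rw [h3]
    exact Submodule.zero_mem _
  have hcj : ∀ b : Ideal (OO k), cjI (a * cjI b) = cjI a * b := by
    intro b
    rw [o2, (o3 b).1]
  have hdd : ∀ b : Ideal (OO k), b ≠ ⊥ → (c * τ * c⁻¹) (dO b) = dO (cjI a * b) := by
    intro b hb
    have hb' := hne b hb
    have hab : a * cjI b ≠ ⊥ := fun h' => (Ideal.mul_eq_bot.1 h').elim h.ne hb'
    rw [PsC_inv hc, AlgEquiv.mul_apply, AlgEquiv.mul_apply, (hr k b hb).1]
    simp only [map_div₀, map_sub, map_mul, map_one, map_ofNat]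
    rw [h.dd _ hb', (hr k _ hab).1, hcj]
    ring
  refine ⟨hne a h.ne, (o5 a N).2 h.cop, hdd, ?_⟩
  intro b hb z hz
  have hb' := hne b hb
  have hab : a * cjI b ≠ ⊥ := fun h' => (Ideal.mul_eq_bot.1 h').elim h.ne hb'
  have hcab : cjI a * b ≠ ⊥ := fun h' => (Ideal.mul_eq_bot.1 h').elim (hne a h.ne) hb
  obtain ⟨-, -, -, -, -, -, l7, -⟩ := hL2 k
  by_cases hzb : z ∈ Lam b
  · rw [(hX k b hb).1.2.2.1 z hzb, (hX k _ hcab).1.2.2.1 z (lam_mono hzb)]
    simp only [map_div₀, map_neg, map_add, map_mul, map_one, map_ofNat]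
    rw [hdd b hb]
  · have ht : Tor k z := (tor_iff hb).2 ⟨N, hN, hz⟩
    have hz1 : (starRingEnd ℂ) z ∉ Lam (cjI b) := by
      rw [l7 b _ hb, Complex.conj_conj]
      exact hzb
    have hz2 : (N : ℂ) * (starRingEnd ℂ) z ∈ Lam (cjI b) := by
      rw [l7 b _ hb, map_mul, Complex.conj_conj, map_natCast]
      exact hz
    have hz3 : (starRingEnd ℂ) z ∉ Lam (a * cjI b) := fun h' =>
      hz1 ((hL5 k a (cjI b) N h.ne hb' hN h.cop).1 _ hz2 h')
    have ht' : Tor k ((starRingEnd ℂ) z) := (tor_iff hb').2 ⟨N, hN, hz2⟩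
    rw [PsC_inv hc, AlgEquiv.mul_apply, AlgEquiv.mul_apply, (hr k b hb).2.1 z ht hzb]
    simp only [map_div₀, map_sub, map_neg, map_one, map_ofNat]
    rw [h.xx _ hb' _ hz2, (hr k _ hab).2.1 _ ht' hz3, hcj, Complex.conj_conj]
    ring

end PsC

theorem sPsC (hO3 : S_O3) (hL2 : S_L2) (hL5 : S_L5) (hR4 : S_R4) (hX : S_XOm) (_hQ : S_QpC) :
    S_PsC := by
  intro k _ c hc
  refine ⟨fun τ N a hN h => PsC_psi hc hO3 hL2 hL5 hR4 hX hN h, ?_, ?_, fun τ hτ => PsC_GK hc hτ⟩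
  · intro Q l τ h b
    have h1 := h (c⁻¹ • b)
    have h2 := (DI.smul_mem_smul_iff (P := Q) c _).2 h1
    rwa [smul_sub, smul_pow', smul_inv_smul, smul_smul, smul_smul] at h2
  · intro Q τ h b
    have h1 := DI.inertia_smul h (c⁻¹ • b)
    have h2 := (DI.smul_mem_smul_iff (P := Q) c _).2 h1
    rw [smul_sub, smul_inv_smul, smul_smul, smul_smul] at h2
    exact h2

end Pool.Agent.DK
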