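import Pool.Agent.Lib.DK.E.SpecA
import Pool.Agent.Lib.DK.O.O2
import Pool.Agent.Lib.DK.O.O4

/-!
# Theorem DK, part E, module PsK: `Psi` implies `τ ∈ GK`
-/

set_option autoImplicit false

open scoped Pointwise nonZeroDivisors

noncomputable section

namespace Pool.Agent.DK

open Pool.Agent.MuZ Pool.Agent.FW NumberField IsDedekindDomain
open Pool.Agent.DI (io ofC io_inj exists_io io_ofC ofC_io VP MP UP TP ex sqr sqr_sq kap)

/-- `Psi` implies `τ ∈ GK`. -/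
theorem sPsK (hAb : S_AbQ) (hR2 : S_R2) : S_PsK := by
  intro k _ τ N a hψ
  rw [mem_GK_iff]
  by_contra hne
  have hw : τ (wO k) = 1 - wO k := by
    have h0 := wO_sq (k := k)
    have h1 := congrArg τ h0
    rw [map_pow, map_sub, map_mul, map_ofNat, map_natCast] at h1
    have h2 : (τ (wO k) - wO k) * (τ (wO k) + wO k - 1) = 0 := by
      linear_combination h1 - h0
    rcases mul_eq_zero.1 h2 with h3 | h3
    · exact absurd (sub_eq_zero.1 h3) hne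
    · linear_combination h3
  have hinv : ∀ x : Om, τ⁻¹ (τ x) = x := by
    intro x
    have h1 : (τ⁻¹ * τ) x = x := by
      rw [inv_mul_cancel]
      rfl
    exact h1
  have hw' : τ⁻¹ (wO k) = 1 - wO k := by
    have h1 : τ (1 - wO k) = wO k := by
      rw [map_sub, map_one, hw]
      ring
    rw [← h1, hinv, h1]
  obtain ⟨-, a2, -, -, a5, -⟩ := hAb k
  obtain ⟨-, -, o3, -, -, -, -, o8, -⟩ := sO4 sO2 k
  obtain ⟨P, hP, hPa⟩ := a2 (pp k) o3 o8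
  have hAbP : AbP k P := (a5 P).1.2 ⟨hP, hPa⟩
  have := hP.1
  have hm2 : MP (τ⁻¹ • P) 2 := by
    have h1 := (DI.MP.smul (P := P) τ⁻¹ (x := 2)).2 hAbP.2.1
    rwa [map_ofNat] at h1
  have hpr : (τ⁻¹ • P).IsPrime := by
    infer_instance
  have hbot : τ⁻¹ • P ≠ ⊥ := by
    intro h
    have h1 : MP (τ⁻¹ • P) ((2 : ℕ) : Om) := by exact_mod_cast hm2
    have h2 := (DI.MP.nat_iff 2).1 h1
    rw [h, Ideal.mem_bot] at h2
    exact two_ne_zero (α := ZZ) (by exact_mod_cast h2)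
  have hP' : Npr (τ⁻¹ • P) := ⟨hpr, hbot⟩
  have hAbPb : AbPb k (τ⁻¹ • P) := by
    refine ⟨hP', hm2, ?_⟩
    have h1 := (DI.MP.smul (P := P) τ⁻¹ (x := wO k)).2 hAbP.2.2
    rwa [hw'] at h1
  have htop : (⊤ : Ideal (OO k)) ≠ ⊥ := top_ne_bot
  have hat : a * ⊤ ≠ ⊥ := mul_ne_zero hψ.ne htop
  have u1 : UP P (dO (a * ⊤)) := ((hR2 k (a * ⊤) hat P hP).2.1 hAbP).1
  have u2 : UP (τ⁻¹ • P) (dO (⊤ : Ideal (OO k))) := by
    have h1 := (DI.UP.smul (P := P) τ⁻¹ (x := dO (a * ⊤))).2 u1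
    rwa [← hψ.dd ⊤ htop, hinv] at h1
  have u3 : UP (τ⁻¹ • P) ((1 - 16 * dO (⊤ : Ideal (OO k))) / 16) :=
    (hR2 k ⊤ htop _ hP').2.2 hAbPb
  have h16 : MP (τ⁻¹ • P) 16 := by
    have h1 : (16 : Om) = 2 * 8 := by norm_num
    rw [h1]
    exact DI.MP.mul_right hm2 (by simpa using DI.VP.nat (P := τ⁻¹ • P) 8)
  apply DI.MP.one_not (P := τ⁻¹ • P)
  have e : (1 : Om) = 16 * ((1 - 16 * dO (⊤ : Ideal (OO k))) / 16 + dO (⊤ : Ideal (OO k))) := by
    ring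
  rw [e]
  exact DI.MP.mul_right h16 (DI.VP.add u3.1 u2.1)

end Pool.Agent.DK
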