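import Pool.Agent.Lib.DK.E.SpecB

/-!
# Theorem DK, part E, module Ray: `Psi` for equivalent ideals (`S_E1`, item 3)
-/

set_option autoImplicit false

open scoped Pointwise nonZeroDivisors

noncomputable section

namespace Pool.Agent.DK.Eb

open Pool.Agent.MuZ Pool.Agent.FW NumberField IsDedekindDomain Pool.Agent.DK
open Pool.Agent.DI (io ofC io_inj exists_io io_ofC ofC_io VP MP UP TP ex sqr sqr_sq kap)

variable {k : ℕ}

/-- Multiplication by an element `= 1` modulo `N` on `N`-torsion points. -/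
private theorem Ray_per [SqK k] (hB1 : S_B1) {N : ℕ} {α β : OO k} (h : (N : OO k) ∣ α * β - 1)
    {c b : Ideal (OO k)} (hcb : c * b ≠ ⊥) {z : ℂ} (hz : (N : ℂ) * z ∈ Lam b) :
    XC (c * b) (toC α * (toC β * z)) = XC (c * b) z := by
  obtain ⟨u, hu⟩ := h
  have h1 : toC α * (toC β * z) = z + toC u * ((N : ℂ) * z) := by
    have h2 : toC (α * β - 1) = toC ((N : OO k) * u) := by rw [hu]
    rw [toC_sub, toC_mul, toC_one, toC_mul, toC_nat] at h2
    linear_combination z * h2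
  rw [h1]
  exact ((hB1 k _ hcb).1 z _ (lam_mono (lam_mul u hz))).2.2

/-- The two sides of `α a = α' a'`. -/
private theorem Ray_mul {α α' : OO k} {a a' : Ideal (OO k)} (he : sp α * a = sp α' * a')
    (b : Ideal (OO k)) : sp α * (a * b) = sp α' * (a' * b) := by
  rw [← mul_assoc, he, mul_assoc]

/-- **Ray.** -/
theorem tRay : S_B1 → S_B7 → S_O7 → S_Ray := by
  intro hB1 hB7 hO7 k _ N hN τ a a' hτ hR
  obtain ⟨-, -, -, -, -, h6, -⟩ := hO7 k N hN
  have hne : a' ≠ ⊥ := (h6 a a' hR).1.1 hτ.ne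
  have hcop : PrI a' N := (h6 a a' hR).2.1 hτ.cop
  obtain ⟨α, α', hα, hα', hcα, -, hd, he⟩ := hR
  refine ⟨hne, hcop, fun b hb => ?_, fun b hb z hz => ?_⟩
  · rw [hτ.dd b hb]
    unfold dO
    congr 1
    have h1 := ((hB7 k (a * b) (ne_mul hτ.ne hb)).1 α hα).2.1
    have h2 := ((hB7 k (a' * b) (ne_mul hne hb)).1 α' hα').2.1
    rw [← h1, ← h2, Ray_mul he]
  · rw [hτ.xx b hb z hz]
    unfold xO
    congr 1
    obtain ⟨β, -, hβ⟩ := cop_inv hcα
    have hβ' : (N : OO k) ∣ α' * β - 1 := by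
      have e : α' * β - 1 = (α * β - 1) - (α - α') * β := by ring
      rw [e]
      exact dvd_sub hβ (hd.mul_right β)
    have h1 := (((hB7 k (a * b) (ne_mul hτ.ne hb)).1 α hα).1 (toC β * z)).1
    have h2 := (((hB7 k (a' * b) (ne_mul hne hb)).1 α' hα').1 (toC β * z)).1
    rw [← Ray_per hB1 hβ (ne_mul hτ.ne hb) hz, ← Ray_per hB1 hβ' (ne_mul hne hb) hz, ← h1, ← h2,
      Ray_mul he]

end Pool.Agent.DK.Eb
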