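import Pool.Agent.Lib.DK.E.SpecB

/-!
# Theorem DK, part E, module Srj: surjectivity (`S_E7`)
-/

set_option autoImplicit false

open scoped Pointwise nonZeroDivisors

noncomputable section

namespace Pool.Agent.DK.Eb

open Pool.Agent.MuZ Pool.Agent.FW NumberField IsDedekindDomain Pool.Agent.DK

/-- **Surjectivity.** -/
theorem sE7 (h1 : S_E1) (h2 : S_E2) (h7 : S_O7) (h8 : S_O8) (hF : S_Fr) : S_E7 := by
  intro k _ N a hN ha hc
  obtain ⟨-, -, hR, -, -⟩ := h1 k N hN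
  obtain ⟨r1, r2, -⟩ := h7 k N hN
  obtain ⟨B, hB, hB'⟩ := h2 k N hN
  have hD : 0 < Dk k := by
    have := hk (k := k)
    unfold Dk
    omega
  have c1 : ∀ b c : Ideal (OO k), (∃ τ ∈ GK k, Psi τ N b) → (∃ τ ∈ GK k, Psi τ N c) →
      ∃ τ ∈ GK k, Psi τ N (b * c) := by
    rintro b c ⟨σ, hσ, hσ'⟩ ⟨τ, hτ, hτ'⟩
    exact ⟨σ * τ, mul_mem hσ hτ, psi_mul hσ' hτ'⟩
  have c2 : ∀ (q : Ideal (OO k)) (l : ℕ), Deg1 q l → l.Coprime (N * (B * Dk k)) →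
      ∃ τ ∈ GK k, Psi τ N q := by
    intro q l hq hl
    have hlp : l.Prime := hq.2.2.1
    have hl' : l.Coprime (B * Dk k) := Nat.Coprime.coprime_mul_left_right hl
    have hlB : l.Coprime B := Nat.Coprime.coprime_mul_right_right hl'
    have hlD : ¬ l ∣ Dk k := by
      rw [← hlp.coprime_iff_not_dvd]
      exact Nat.Coprime.coprime_mul_left_right hl'
    obtain ⟨Q, τ, hQ, hQq, hτ, hτF⟩ := hF k q l hq hlD
    exact ⟨τ, hτ, hB' q l hq hlB Q hQ hQq τ hτ hτF⟩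
  obtain ⟨a', -, -, ⟨τ, hτ, hτ'⟩, hr⟩ := h8 k N (B * Dk k) hN (Nat.mul_pos hB hD)
    (fun a => ∃ τ ∈ GK k, Psi τ N a) ⟨1, one_mem _, psi_top N⟩ c1 c2 a ha hc
  exact ⟨τ, hτ, hR τ _ _ hτ' (r2 _ _ hr)⟩

end Pool.Agent.DK.Eb
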