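import Pool.Agent.Lib.DK.E.SpecB

/-!
# Theorem DK, part E, module Uq: uniqueness of the class of `a` (`S_E1`, item 2)
-/

set_option autoImplicit false

open scoped Pointwise nonZeroDivisors

noncomputable section

namespace Pool.Agent.DK.Eb

open Pool.Agent.MuZ Pool.Agent.FW NumberField IsDedekindDomain Pool.Agent.DK
open Pool.Agent.DI (io ofC io_inj exists_io io_ofC ofC_io VP MP UP TP ex sqr sqr_sq kap)

/-- Two conditions which cover a group. -/
private theorem Uq_cover {k : ℕ} {a : Ideal (OO k)} {μ : ℂ} {N : ℕ} [SqK k]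
    (h : ∀ z : ℂ, (N : ℂ) * z ∈ Lam (⊤ : Ideal (OO k)) → μ * z - z ∈ Lam a ∨ μ * z + z ∈ Lam a) :
    ∃ e : ℤ, (e = 1 ∨ e = -1) ∧
      ∀ z : ℂ, (N : ℂ) * z ∈ Lam (⊤ : Ideal (OO k)) → (μ - e) * z ∈ Lam a := by
  by_cases h1 : ∀ z : ℂ, (N : ℂ) * z ∈ Lam (⊤ : Ideal (OO k)) → μ * z - z ∈ Lam a
  · refine ⟨1, Or.inl rfl, fun z hz => ?_⟩
    have e : (μ - ((1 : ℤ) : ℂ)) * z = μ * z - z := by
      push_cast
      ring
    rw [e]
    exact h1 z hz
  · push Not at h1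
    obtain ⟨z₁, hz₁, hn₁⟩ := h1
    have hp₁ : μ * z₁ + z₁ ∈ Lam a := (h z₁ hz₁).resolve_left hn₁
    refine ⟨-1, Or.inr rfl, fun z hz => ?_⟩
    have e : (μ - ((-1 : ℤ) : ℂ)) * z = μ * z + z := by
      push_cast
      ring
    rw [e]
    by_contra hn
    have hp : μ * z - z ∈ Lam a := (h z hz).resolve_right hn
    have hs : (N : ℂ) * (z₁ + z) ∈ Lam (⊤ : Ideal (OO k)) := by
      rw [mul_add]
      exact lam_add hz₁ hz
    rcases h _ hs with h2 | h2
    · apply hn₁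
      have e2 : μ * z₁ - z₁ = (μ * (z₁ + z) - (z₁ + z)) - (μ * z - z) := by ring
      rw [e2]
      exact lam_sub h2 hp
    · apply hn
      have e2 : μ * z + z = (μ * (z₁ + z) + (z₁ + z)) - (μ * z₁ + z₁) := by ring
      rw [e2]
      exact lam_sub h2 hp₁

/-- **Uniqueness.** -/
theorem tUq (hB1 : S_B1) (hB7 : S_B7) (hB13 : S_B13) (hL5 : S_L5) (hO6 : S_O6) (hR1 : S_R1)
    (hR4 : S_R4) : S_Uq := by
  intro k _ N hN τ a a' ha ha'
  have hN' : (N : ℂ) ≠ 0 := by exact_mod_cast hN.ne'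
  have ht : (⊤ : Ideal (OO k)) ≠ ⊥ := ne_top
  have e1 : dO a = dO a' := by
    have h1 := ha.dd ⊤ ht
    have h2 := ha'.dd ⊤ ht
    rw [Ideal.mul_top] at h1 h2
    rw [← h1, ← h2]
  have e2 : DC a = DC a' := by
    rw [← (hR1 k a ha.ne).1, ← (hR1 k a' ha'.ne).1, e1]
  obtain ⟨α, α', hα, hα', hαa⟩ := hB13 k a a' ha.ne ha'.ne e2
  have cα : toC α ≠ 0 := toC_ne hα
  have cα' : toC α' ≠ 0 := toC_ne hα'
  obtain ⟨μ, hμ⟩ : ∃ μ : ℂ, μ = toC α / toC α' := ⟨_, rfl⟩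
  have hμ0 : μ ≠ 0 := by
    rw [hμ]
    exact div_ne_zero cα cα'
  have eμ : ∀ z : ℂ, toC α * (z / toC α') = μ * z := fun z => by
    rw [hμ]
    ring
  have ez : ∀ z : ℂ, toC α' * (z / toC α') = z := fun z => by
    field_simp
  -- (1)
  have f1 : ∀ z : ℂ, XC a' z = XC a (μ * z) := by
    intro z
    have h1 := (((hB7 k a' ha'.ne).1 α' hα').1 (z / toC α')).1
    have h2 := (((hB7 k a ha.ne).1 α hα).1 (z / toC α')).1
    rw [← hαa, h2, eμ, ez] at h1
    exact h1.symm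
  -- (2)
  have f2 : ∀ z : ℂ, μ * z ∈ Lam a ↔ z ∈ Lam a' := by
    intro z
    have h1 : z / toC α' ∈ Lam (sp α * a) ↔ toC α * (z / toC α') ∈ Lam a := lam_sp
    have h2 : z / toC α' ∈ Lam (sp α' * a') ↔ toC α' * (z / toC α') ∈ Lam a' := lam_sp
    rw [eμ] at h1
    rw [ez] at h2
    rw [← h1, ← h2, hαa]
  -- (3)
  have f3 : ∀ z : ℂ, (N : ℂ) * z ∈ Lam (⊤ : Ideal (OO k)) →
      XC a z = XC a' z ∧ (z ∈ Lam a ↔ z ∈ Lam a') := by
    intro z hz
    have hT : Tor k z := (tor_iff ht).2 ⟨N, hN, hz⟩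
    have h1 := ha.xx ⊤ ht z hz
    have h2 := ha'.xx ⊤ ht z hz
    rw [Ideal.mul_top] at h1 h2
    have h3 : ∀ c : Ideal (OO k), c ≠ ⊥ → PrI c N → (z ∈ Lam c ↔ z ∈ Lam (⊤ : Ideal (OO k))) := by
      intro c hc hcN
      constructor
      · intro h
        refine (hL5 k c ⊤ N hc ht hN hcN).1 z hz ?_
        rwa [Ideal.mul_top]
      · intro h
        have := lam_mono (a := c) h
        rwa [Ideal.mul_top] at this
    refine ⟨?_, (h3 a ha.ne ha.cop).trans (h3 a' ha'.ne ha'.cop).symm⟩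
    rw [← hR4.1 k a ha.ne z hT, ← hR4.1 k a' ha'.ne z hT, ← h1, ← h2]
  -- (4)
  have f4 : ∀ z : ℂ, (N : ℂ) * z ∈ Lam (⊤ : Ideal (OO k)) → μ * z - z ∈ Lam a ∨ μ * z + z ∈ Lam a := by
    intro z hz
    obtain ⟨h1, h2⟩ := f3 z hz
    by_cases hza : z ∈ Lam a
    · exact Or.inl (lam_sub ((f2 z).2 (h2.1 hza)) hza)
    · have h3 : μ * z ∉ Lam a := fun h => hza (h2.2 ((f2 z).1 h))
      obtain ⟨-, -, -, -, -, b6, -⟩ := hB1 k a ha.ne
      refine (b6 _ _ h3 hza).1 ?_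
      rw [← f1, ← h1]
  -- (5)
  obtain ⟨e, he, h5⟩ := Uq_cover f4
  -- (6)
  obtain ⟨v, hv, hv0, hvN⟩ := (hO6 k).2.2.2.2 N a hN ha.ne ha.cop
  have h6 : α * v ∈ sp α' * a' := by
    rw [← hαa]
    exact Ideal.mul_mem_mul (Ideal.mem_span_singleton_self α) hv
  obtain ⟨v', hv', hvv'⟩ := Ideal.mem_span_singleton_mul.1 h6
  have hv'μ : toC v' = μ * toC v := by
    have h7 : toC α' * toC v' = toC α * toC v := by rw [← toC_mul, hvv', toC_mul]
    rw [hμ, div_mul_eq_mul_div, eq_div_iff cα', mul_comm, h7]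
  have hv'0 : v' ≠ 0 := by
    rintro rfl
    rw [toC_zero] at hv'μ
    exact (mul_ne_zero hμ0 (toC_ne hv0)) hv'μ.symm
  obtain ⟨u, hu⟩ := h5 _ (one_div_lam ⊤ hN) v hv
  have hdiv : v' - (e : OO k) * v = (N : OO k) * u := by
    apply toC_inj
    rw [toC_sub, toC_mul, toC_mul, toC_int, toC_nat, ← hu, hv'μ]
    field_simp
  have hee : (e : OO k) * (e : OO k) = 1 := by
    rcases he with rfl | rfl <;> simp
  have hdv : (N : OO k) ∣ (e : OO k) * v' - v := by
    refine ⟨(e : OO k) * u, ?_⟩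
    linear_combination (e : OO k) * hdiv + v * hee
  have hcv : Cop v N := by
    refine cop_congr (n := N) (a := 1) ?_ (cop_one N)
    rw [← neg_sub]
    exact (dvd_neg).2 hvN
  have hcv' : Cop ((e : OO k) * v') N := by
    refine cop_congr (n := N) (a := v) ?_ hcv
    rw [← neg_sub]
    exact (dvd_neg).2 hdv
  refine ⟨(e : OO k) * v', v, ?_, hv0, hcv', hcv, hdv, ?_⟩
  · intro h0
    apply hv'0
    have h7 : (e : OO k) * ((e : OO k) * v') = 0 := by rw [h0, mul_zero]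
    rwa [← mul_assoc, hee, one_mul] at h7
  · have h7 : sp ((e : OO k) * v') = sp v' := by
      rcases he with rfl | rfl
      · simp
      · simp [Ideal.span_singleton_neg]
    change sp ((e : OO k) * v') * a = sp v * a'
    rw [h7]
    have h8 : sp α' * (sp v' * a) = sp α' * (sp v * a') := by
      have hsp : ∀ x y : OO k, sp (x * y) = sp x * sp y := fun x y =>
        (Ideal.span_singleton_mul_span_singleton x y).symm
      have h9 : sp α' * sp v' = sp α * sp v := by rw [← hsp, ← hsp, hvv']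
      calc sp α' * (sp v' * a) = (sp α' * sp v') * a := (mul_assoc _ _ _).symm
        _ = (sp α * sp v) * a := by rw [h9]
        _ = sp v * (sp α * a) := by ring
        _ = sp v * (sp α' * a') := by rw [hαa]
        _ = sp α' * (sp v * a') := by ring
    exact (Ideal.span_singleton_mul_right_inj hα').1 h8

end Pool.Agent.DK.Eb
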