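import Pool.Agent.Lib.DK.D.All
import Pool.Agent.Lib.FW.G.Ine
import Pool.Agent.Lib.DK.E.Ab
import Pool.Agent.Lib.DK.E.BrK
import Pool.Agent.Lib.DK.E.Cj
import Pool.Agent.Lib.DK.E.Cyc
import Pool.Agent.Lib.DK.E.E10
import Pool.Agent.Lib.DK.E.E10T
import Pool.Agent.Lib.DK.E.E10r
import Pool.Agent.Lib.DK.E.E10t
import Pool.Agent.Lib.DK.E.E10v
import Pool.Agent.Lib.DK.E.E2
import Pool.Agent.Lib.DK.E.E3
import Pool.Agent.Lib.DK.E.E34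
import Pool.Agent.Lib.DK.E.E4
import Pool.Agent.Lib.DK.E.E4a
import Pool.Agent.Lib.DK.E.E4b
import Pool.Agent.Lib.DK.E.EWg
import Pool.Agent.Lib.DK.E.Efr
import Pool.Agent.Lib.DK.E.ElA
import Pool.Agent.Lib.DK.E.Ero
import Pool.Agent.Lib.DK.E.ExA
import Pool.Agent.Lib.DK.E.F0
import Pool.Agent.Lib.DK.E.FN
import Pool.Agent.Lib.DK.E.Fix
import Pool.Agent.Lib.DK.E.Fr
import Pool.Agent.Lib.DK.E.GenH
import Pool.Agent.Lib.DK.E.Gn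
import Pool.Agent.Lib.DK.E.H2M
import Pool.Agent.Lib.DK.E.HPM
import Pool.Agent.Lib.DK.E.Inc
import Pool.Agent.Lib.DK.E.Inr
import Pool.Agent.Lib.DK.E.Iso
import Pool.Agent.Lib.DK.E.Op
import Pool.Agent.Lib.DK.E.OpA
import Pool.Agent.Lib.DK.E.PsC
import Pool.Agent.Lib.DK.E.PsK
import Pool.Agent.Lib.DK.E.Ray
import Pool.Agent.Lib.DK.E.Srj
import Pool.Agent.Lib.DK.E.SyA
import Pool.Agent.Lib.DK.E.Uq

/-!
# Theorem DK, part E: assembly, given Part B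

`aE1 (B : HB) : S_E1`, .., `aE10 (B : HB) : S_E10`, and the general statements of `DK/E/SpecB.lean`, `DK/E/GenH.lean`.
-/

set_option autoImplicit false

noncomputable section

namespace Pool.Agent.DK

open Pool.Agent.MuZ Pool.Agent.FW

theorem aInc : S_Inc := sInc
theorem aOpA : S_OpA := sOpA
theorem aBrK : S_BrK := sBrK aO2 aAbQ
theorem aSyA : S_SyA := sSyA aO6 aL5
theorem aIso (B : HB) : S_Iso := sIso (aXOm B)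
theorem aFN (B : HB) : S_FN := sFN aO7 aL3 (aXOm B) (aIso B)
theorem aE2 (B : HB) : S_E2 := sE2 aO6 (aXOm B) aAbQ (aD1 B) (aD3 B) (aFN B) aInc
theorem aExA (B : HB) : S_ExA := sExA aO6 (aFN B) aBrK aOpA (aE2 B)
theorem aE34 (B : HB) : S_E34 :=
  sE34 aL2 aL5 B.b13 (aR1 B) (aR3 B) (aXOm B) (aDUn B) (aD1 B) (aIso B)
theorem aPsC (B : HB) : S_PsC := sPsC aO3 aL2 aL5 (aR4 B) (aXOm B) (aQpC B)
theorem aE3 (B : HB) : S_E3 :=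
  sE3 aO3 aO4 aO6 (aR2 B) (aR4 B) aAbQ (aXOm B) (aD1 B) (aD2 B) (aQpC B) (aExA B) (aE34 B) (aPsC B)
theorem aE4a (B : HB) : S_E4a :=
  sE4a aO3 (aR2 B) (aR4 B) aAbQ (aXOm B) (aDUn B) (aD1 B) (aQpC B) (aExA B) (aE34 B) (aPsC B)
theorem aE4b (B : HB) : S_E4b :=
  sE4b aO3 aO6 aL2 aL5 (aR4 B) aAbQ (aXOm B) (aDUn B) (aD1 B) (aQpC B) (aPsC B)
theorem aE4 (B : HB) : S_E4 := sE4 (aE4a B) (aE4b B)
theorem aUq (B : HB) : Eb.S_Uq := Eb.tUq B.b1 B.b7 B.b13 aL5 aO6 (aR1 B) (aR4 B)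
theorem aRay (B : HB) : Eb.S_Ray := Eb.tRay B.b1 B.b7 aO7
theorem aE1 (B : HB) : S_E1 := Eb.sE1 (aExA B) (aUq B) (aRay B)
theorem aOp (B : HB) : Eb.S_Op := Eb.tOp (aFN B)
theorem aGn : Eb.S_Gn := Eb.tGn
theorem aF0 : Eb.S_F0 := Eb.tF0
theorem aFr : Eb.S_Fr := Eb.tFr aF0 aAbQ
theorem aE6 (B : HB) : S_E6 := Eb.sE6 (aE1 B) (aE2 B) aO2 aO9 (aOp B) aGn
theorem aE7 (B : HB) : S_E7 := Eb.sE7 (aE1 B) (aE2 B) aO7 aO8 aFr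
theorem aE8 (B : HB) : S_E8 := Eb.sE8 (aE1 B) aO7 (aOp B)
theorem aAb (B : HB) : Eb.S_Ab := Eb.tAb (aE1 B) aO7
theorem aCj (B : HB) : Eb.S_Cj := Eb.tCj (aAb B) B.b1 aL2 aL5 aO3 (aR1 B) (aR4 B)
theorem aH2M : Eb.S_H2M := Eb.tH2M aO2 aO3 aO6 aO7 aO9
theorem aHPM : Eb.S_HPM := Eb.tHPM aO2 aO3 aO6 aO7 aO9 aH2M
theorem aInr (B : HB) : Eb.S_Inr := Eb.tInr FW.tIne (aE4 B) (aE8 B) aHPM
theorem aE9 (B : HB) : S_E9 := Eb.sE9 (aCj B) aH2M aHPM (aInr B)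
theorem aPsK (B : HB) : S_PsK := sPsK aAbQ (aR2 B)
theorem aE10t (B : HB) : S_E10t := sE10t aAbQ aO4 (aXOm B) (aDUn B)
theorem aElA (B : HB) : S_ElA := sElA aL3 aL6 aO6 B.b1 B.b9 (aR4 B) (aR5a B) (aXOm B) aSyA
theorem aEWg (B : HB) : S_EWg := sEWg aL5 aO6 B.b1 B.b2 B.b3 (aR4 B) (aR5b B) (aXOm B)
theorem aEfr (B : HB) : S_Efr := sEfr aO6 aO7 B.b12 (aR5 B)
theorem aEro (B : HB) : S_Ero :=
  sEro aL3 aO6 B.b1 B.b2 B.b9 B.b12 (aR4 B) (aR5 B) (aR5b B) (aXOm B) aSyA (aElA B) (aEWg B)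
theorem aE10r (B : HB) : S_E10r :=
  sE10r aO2 aO6 aO7 (aR5 B) (aE1 B) (aPsK B) (aEfr B) (aEro B)
theorem aE10v (B : HB) : S_E10v :=
  sE10v aO2 aO6 aL5 B.b1 B.b2 B.b11 B.b12 B.b14 (aR4 B) (aR5 B) (aR5b B) (aXOm B) aHsP aSyA (aEWg B)
theorem aE10T (B : HB) : S_E10T := sE10T aO6 aL5 B.b14 (aD8 B) aSyA
theorem aE10 (B : HB) : S_E10 :=
  sE10 (aPsK B) (aE10t B) (aE10r B) (aE10v B) (aE10T B)

end Pool.Agent.DK
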