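import Pool.Agent.Lib.DK.E.SpecA

/-!
# Theorem DK, part E, module E34: rigidity modulo `P`
-/

set_option autoImplicit false

open scoped Pointwise

noncomputable section

namespace Pool.Agent.DK

open Pool.Agent.MuZ Pool.Agent.FW NumberField
open Pool.Agent.DI (io ofC io_inj exists_io io_ofC ofC_io VP MP UP TP ex sqr sqr_sq kap)

private lemma E34_top {k : ℕ} [SqK k] : (⊤ : Ideal (OO k)) ≠ ⊥ := by
  intro h
  have h1 : (1 : OO k) ∈ (⊥ : Ideal (OO k)) := by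
    rw [← h]
    trivial
  exact one_ne_zero (Ideal.mem_bot.1 h1)

private lemma E34_mul {k : ℕ} [SqK k] {a b : Ideal (OO k)} (ha : a ≠ ⊥) (hb : b ≠ ⊥) : a * b ≠ ⊥ :=
  mul_ne_zero ha hb

private lemma E34_notb {k : ℕ} {P : Ideal ZZ} (hP : AbP k P) : ¬ AbPb k P := by
  intro h
  have hPP : P.IsPrime := hP.1.1
  have h1 : MP P (wO k + (1 - wO k)) := hP.2.2.add h.2.2
  rw [add_sub_cancel] at h1
  exact MP.one_not h1

private lemma E34_odd {k : ℕ} [SqK k] {P : Ideal ZZ} (hP : AbP k P) {N : ℕ} (hN : Odd N) :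
    ¬ MP P (toO (N : OO k)) := by
  intro h
  have hPP : P.IsPrime := hP.1.1
  obtain ⟨m, rfl⟩ := hN
  rw [toO_nat] at h
  have h1 : MP P ((m : Om) * 2) := MP.mul_left (VP.nat m) hP.2.1
  have h2 := h.sub h1
  have e : ((2 * m + 1 : ℕ) : Om) - (m : Om) * 2 = 1 := by
    push_cast
    ring
  rw [e] at h2
  exact MP.one_not h2

/-- A point of odd order in the kernel of reduction is a lattice point. -/
private lemma E34_ker (hD1 : S_D1) {k : ℕ} [SqK k] {P : Ideal ZZ} (hP : AbP k P) {N : ℕ} (hN : Odd N)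
    {b : Ideal (OO k)} (hb : b ≠ ⊥) {z : ℂ} (hz : (N : ℂ) * z ∈ Lam b) (hI : IK P b z) : z ∈ Lam b := by
  obtain ⟨-, -, -, -, h5, -, -⟩ := hD1 k b hb P hP.1 (E34_notb hP)
  have h := h5 z hI (N : OO k) 1 (E34_odd hP hN) (by rwa [mul_one, toC_nat])
  rwa [toC_one, one_mul] at h

/-- **Rigidity modulo `P`.** -/
theorem sE34 (_hL2 : S_L2) (hL5 : S_L5) (hB13 : S_B13) (hR1 : S_R1) (hR3 : S_R3) (hXOm : S_XOm)
    (_hDUn : S_DUn) (hD1 : S_D1) (hIso : S_Iso) : S_E34 := by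
  intro k _ P hP a c N ha hc hN haN hcN hd hx
  have hNpos : 0 < N := hN.pos
  have hdd : ∀ b : Ideal (OO k), b ≠ ⊥ → dO (a * b) = dO (c * b) := fun b hb =>
    hR3 k (a * b) (c * b) (E34_mul ha hb) (E34_mul hc hb) P hP (hd b hb)
  refine ⟨hdd, fun b hb z hz => ?_⟩
  have hDC : DC a = DC c := by
    have h := hdd ⊤ E34_top
    rw [Ideal.mul_top, Ideal.mul_top] at h
    rw [← (hR1 k a ha).1, ← (hR1 k c hc).1, h]
  obtain ⟨α, α', hα, hα', e⟩ := hB13 k a c ha hc hDC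
  obtain ⟨-, -, hI⟩ := hIso k a c α α' ha hc hα hα' e b hb
  have hab := E34_mul ha hb
  have hcb := E34_mul hc hb
  obtain ⟨⟨hper, heven, hlat, -⟩, -⟩ := hXOm k (a * b) hab
  obtain ⟨⟨-, -, hlatc, -⟩, -⟩ := hXOm k (c * b) hcb
  by_cases hzb : z ∈ Lam b
  · rw [hlat z (lam_mono hzb), hlatc z (lam_mono hzb), hdd b hb]
  have hza : z ∉ Lam (a * b) := fun h => hzb ((hL5 k a b N ha hb hNpos haN).1 z hz h)
  have hzc : z ∉ Lam (c * b) := fun h => hzb ((hL5 k c b N hc hb hNpos hcN).1 z hz h)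
  set μ : ℂ := toC α / toC α' with hμ
  have hμz : μ * z ∉ Lam (a * b) := fun h => hzc ((hI z).2.2 h)
  have hNz : (N : ℂ) * z ∈ Lam (a * b) := lam_mono hz
  have hNμ : (N : ℂ) * (μ * z) ∈ Lam (a * b) := by
    have h := (hI ((N : ℂ) * z)).2.1 (lam_mono hz)
    rwa [mul_left_comm] at h
  have hTz : Tor k z := (tor_iff hab).2 ⟨N, hNpos, hNz⟩
  have hTμ : Tor k (μ * z) := (tor_iff hab).2 ⟨N, hNpos, hNμ⟩
  have hkz : ¬ IK P (a * b) z := fun h => hza (E34_ker hD1 hP hN hab hNz h)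
  have hkμ : ¬ IK P (a * b) (μ * z) := fun h => hμz (E34_ker hD1 hP hN hab hNμ h)
  obtain ⟨-, -, -, -, -, -, h7⟩ := hD1 k (a * b) hab P hP.1 (E34_notb hP)
  have hcong := hx b hb z hz hzb
  rw [(hI z).1] at hcong ⊢
  rcases h7 z (μ * z) hTz hTμ hkz hkμ hcong with h | h
  · have h8 : z + μ * z ∈ Lam (a * b) :=
      E34_ker hD1 hP hN hab (by rw [mul_add]; exact lam_add hNz hNμ) h
    have h9 := hper (-(μ * z)) _ h8
    rw [heven] at h9
    rw [← h9]
    congr 1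
    ring
  · have h8 : z - μ * z ∈ Lam (a * b) :=
      E34_ker hD1 hP hN hab (by rw [mul_sub]; exact lam_sub hNz hNμ) h
    have h9 := hper (μ * z) _ h8
    rw [← h9]
    congr 1
    ring

end Pool.Agent.DK
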