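import Pool.Agent.Lib.DK.D.Spec
import Pool.Agent.Lib.DK.Gen

/-!
# Theorem DK, part E, first half (Galois action): statements of the modules with proofs

`S_ExA` (first item of `S_E1`), finiteness, `S_E2`, `S_E3`, `S_E4`, `S_E10`. Every statement `S_..` is proved in the file
`DK/E/<name>.lean` as `theorem s<name> (hypotheses) : S_<name>`: hypotheses exactly the statements named after
(from ..), in that order. Read `DK/Defs.lean`, `DK/Iface.lean`, `DK/Base.lean`, `DK/D/Spec.lean` (`S_XOm`) first. Facts on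
`VP`, `MP`, `UP`, Frobenius and inertia: `DI/Val.lean` (`VP.frob`, `VP.inertia`, `VP.smul`, `MP.smul`, `UP.smul`).
Models: `DI/E/*.lean`. The second half of part E (author helper28) is in `DK/E/SpecB.lean`.
-/

set_option autoImplicit false

open scoped Pointwise nonZeroDivisors

noncomputable section

namespace Pool.Agent.DK

open Pool.Agent.MuZ Pool.Agent.FW NumberField IsDedekindDomain
open Pool.Agent.DI (io ofC io_inj exists_io io_ofC ofC_io VP MP UP TP ex sqr sqr_sq kap)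

/-! ## 1. Finiteness -/

/-- MODULE `Iso` (60 lines; from `S_XOm`). HOMOGENEITY FOR ELEMENTS OF `K`. PROOF. `μ = toC α / toC α'`. `sp α * (a * b) = sp α' * (a' * b)`. By `S_XOm` (last item, for `a * b` and `a' * b`)
`xO (a' b) (toC α' y) = xO (sp α' (a' b)) y = xO (sp α (a b)) y = xO (a b) (toC α y)`; `y = z / toC α'`. The same for `dO`, `tO`, and for the lattices (`lam_sp`). -/
def S_Iso : Prop :=
  ∀ (k : ℕ) [SqK k] (a a' : Ideal (OO k)) (α α' : OO k), a ≠ ⊥ → a' ≠ ⊥ → α ≠ 0 → α' ≠ 0 →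
    sp α * a = sp α' * a' → ∀ b : Ideal (OO k), b ≠ ⊥ →
      dO (a' * b) = dO (a * b) ∧ tO (a' * b) = tO (a * b) ∧
      ∀ z : ℂ, xO (a' * b) z = xO (a * b) (toC α / toC α' * z) ∧
        (z ∈ Lam (a' * b) ↔ toC α / toC α' * z ∈ Lam (a * b))

/-- MODULE `FN` (130 lines; from `S_O7`, `S_L3`, `S_XOm`, `S_Iso`). FINITENESS. PROOF. `S_O7` for the modulus `1`: a finite set `R₀` of ideals such that every `b ≠ ⊥` satisfies `sp α * b = sp α' * b₀`, `b₀ ∈ R₀`, `α, α' ≠ 0` (`PrI b 1` is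
trivial). By `S_Iso` (for `a = b₀`, `a' = b`, the last ideal `⊤`: `b * ⊤ = b`) `dO b = dO b₀` and `xO b z = xO b₀ (μ z)`, with `N μ z ∈ Lam b₀` iff `N z ∈ Lam b`. For each `b₀ ∈ R₀` the points with `N z ∈ Lam b₀`, that is `z ∈ Lam (sp N * b₀)`, have finitely many
classes modulo `Lam b₀` (`S_L3`), and `xO b₀` is periodic. -/
def S_FN : Prop :=
  ∀ (k : ℕ) [SqK k] (N : ℕ), 0 < N → ∃ A : Set Om, A.Finite ∧
    (∀ b : Ideal (OO k), b ≠ ⊥ → dO b ∈ A) ∧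
    ∀ b : Ideal (OO k), b ≠ ⊥ → ∀ z : ℂ, (N : ℂ) * z ∈ Lam b → xO b z ∈ A

/-- MODULE `Inc` (100 lines). DISTINCT ALGEBRAIC NUMBERS ARE INCONGRUENT ALMOST EVERYWHERE. PROOF. For `x ≠ 0` in `Om` there are integers `n, n' > 0` with `n x`, `n' x⁻¹` integral (`IsIntegral`; `exists_integral_multiple`, `Om` is algebraic over `ℚ`), so for `Q` with
`¬ MP Q (n n')`: `x = (n x)/n ∈ V`, `x⁻¹ ∈ V`: `UP Q x`. Take for `B` the product of these numbers for the finitely many differences `x - y ≠ 0` of the elements of `A`, and of the denominators of the elements of `A`. If `l.Coprime B` and `MP Q l` then `¬ MP Q B`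
(Bezout, `MP.one_not`). -/
def S_Inc : Prop :=
  ∀ A : Set Om, A.Finite → ∃ B : ℕ, 0 < B ∧ ∀ (Q : Ideal ZZ) (l : ℕ), Npr Q → MP Q (l : Om) → l.Coprime B →
    (∀ x ∈ A, VP Q x) ∧ ∀ x ∈ A, ∀ y ∈ A, MP Q (x - y) → x = y

/-- MODULE `E2` (130 lines; from `S_O6`, `S_XOm`, `S_AbQ`, `S_D1`, `S_D3`, `S_FN`, `S_Inc`): `S_E2`. PROOF. Let `A₀` be the set of `S_FN` for `N`, `A` the finite set of all conjugates of its elements (the roots in `Om` of their minimal polynomials over `ℚ`; it is stable under `Gal(Om/ℚ)`),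
`B = 2 N B'` with `B'` from `S_Inc` for `A`. Let `Deg1 q l`, `l.Coprime B`, `Abv Q q`, `Fro Q l τ`. `q ≠ ⊥`; `PrI q N`: `NI q = l` (`S_O6` (3)). `MP Q l` (`S_AbQ`), `l ≠ 2`. `dO b ∈ V` (`S_Inc`), `τ (dO b) ≡ (dO b) ^ l ≡ dO (q b)` (`VP.frob`, `S_D3`), both in `A`: equal.
`X`: let `N z ∈ Lam b`. If `z ∈ Lam b`: `xO b z = -(1 + 16 dO b)/12` and `z ∈ Lam (q b)` (`S_XOm`). If `z ∉ Lam b`: `¬ IK Q b z` (`S_D1`: otherwise `Qp Q b z`; `α = N`, `β = 1`, `¬ MP Q N`), so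
`xO (q b) z ≡ (xO b z) ^ l ≡ τ (xO b z)` (`S_D3`), equal. `¬ AbPb k Q` as `¬ MP Q 2`. -/
abbrev M_E2 : Prop := S_E2

/-! ## 2. Existence of `Psi` -/

/-- MODULE `BrK` (120 lines; from `S_O2`, `S_AbQ`). DEGREE ONE PRIMES OF `KQ k`. PROOF. Finite dimensional: `DI/E/KFin.lean`. Let `q = {v | MP Q (toO v)}` (`S_AbQ`). `toO v` is an element of the ring of integers of `KQ k`; the map `OO k → 𝓞 (KQ k) → 𝓞 (KQ k) ⧸ Q.comap (iO _)` has the kernel `q` (for an integral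
element `x`: `MP Q x ↔ x ∈ Q`: `DI.MP.coe_iff`), so `NI q = Nat.card (O/q)` is the order of a subgroup of a group with `l` elements, `l` prime, and it is not `1`: `NI q = l`. `τ ∈ KQ.fixingSubgroup` is `τ ∈ GK k` by definition. -/
def S_BrK : Prop :=
  ∀ (k : ℕ) [SqK k], FiniteDimensional ℚ (KQ k) ∧ IsOpen ((KQ k).fixingSubgroup : Set Gal(Om/ℚ)) ∧
    ∀ (l : ℕ) (Q : Ideal ZZ), l.Prime → Npr Q → (l : ZZ) ∈ Q →
      Nat.card (𝓞 (KQ k) ⧸ Q.comap (iO (KQ k))) = l → ∃ q : Ideal (OO k), Deg1 q l ∧ Abv Q q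

/-- MODULE `OpA` (80 lines). OPEN SUBGROUPS. PROOF. The elements of `Gal(Om/ℚ)` which fix all elements of the finite set `A` are the fixing subgroup of `ℚ(A)`, which is finite dimensional: open. Second claim: let `H` be a set which contains the open subgroup `U`
of `G = Gal(Om/K)` (here `U = {τ ∈ GK, τ fixes A}`) and is closed under products; for `τ ∈ H` some power `τ ^ n`, `n > 0`, is in `U` (the group `Gal(Om/ℚ)` is compact, so `U` has finite index in it: two powers of `τ` are in the same coset of `U`), so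
`τ⁻¹ = τ ^ (n - 1) (τ ^ n)⁻¹ ∈ H`. -/
def S_OpA : Prop :=
  (∀ A : Set Om, A.Finite → ∃ U : OpenSubgroup Gal(Om/ℚ), ∀ τ ∈ U, ∀ x ∈ A, τ x = x) ∧
    ∀ (k : ℕ) [SqK k] (U : OpenSubgroup Gal(Om/ℚ)) (H : Set Gal(Om/ℚ)), H ⊆ (GK k : Set Gal(Om/ℚ)) →
      (∀ τ ∈ GK k, τ ∈ U → τ ∈ H) → (∀ τ ∈ H, ∀ τ' ∈ H, τ * τ' ∈ H) → ∀ τ ∈ H, τ⁻¹ ∈ H

/-- MODULE `ExA` (100 lines; from `S_O6`, `S_FN`, `S_BrK`, `S_OpA`, `S_E2`). EXISTENCE. PROOF. `H = {τ ∈ GK k | ∃ a, Psi τ N a}`. Products: if `Psi τ N a`, `Psi τ' N a'` then `Psi (τ * τ') N (a * a')` (`(τ * τ') (dO b) = τ (dO (a' b)) = dO (a (a' b))`; for `N z ∈ Lam b` also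
`N z ∈ Lam (a' b)`; `S_O6` (1)). `τ ∈ GK` fixing the set `A` of `S_FN` has `Psi τ N ⊤`: `τ (dO b) = dO b = dO (⊤ * b)`, `Ideal.one_eq_top`, `one_mul`. So `H` is a subgroup (`S_OpA`) and contains `GK ⊓ U`. `gen_frob` (`DK/Gen.lean`) with `K = KQ k`, `M = B` of `S_E2`:
for `l ∤ B` prime, `S_BrK` gives `q`, and `Psi τ N q` by `S_E2`. So `GK k ≤ H`. -/
def S_ExA : Prop :=
  ∀ (k : ℕ) [SqK k] (N : ℕ), 0 < N → ∀ τ ∈ GK k, ∃ a : Ideal (OO k), Psi τ N a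

/-! ## 3. The primes above `2` -/

/-- MODULE `E34` (120 lines; from `S_L2`, `S_L5`, `S_B13`, `S_R1`, `S_R3`, `S_XOm`, `S_DUn`, `S_D1`, `S_Iso`). RIGIDITY MODULO `P`. PROOF. `¬ AbPb k P` (`1 ∉ m`). `S_R3`: `dO (a b) = dO (c b)` for all `b ≠ ⊥`. `b = ⊤`: `DC a = DC c` (`S_R1`), so (`S_B13`) `sp α * a = sp α' * c`; `μ = toC α / toC α'`; `S_Iso`:
`xO (c b) z = xO (a b) (μ z)`. Let `N z ∈ Lam b`. If `z ∈ Lam b`: `z ∈ Lam (a b)`, `z ∈ Lam (c b)`, both values are `-(1 + 16 d)/12`. If `z ∉ Lam b`: `z ∉ Lam (a b)`, `z ∉ Lam (c b)` (`S_L5`), so `μ z ∉ Lam (a b)` (`S_Iso`), `N z ∈ Lam (c b)`, `N μ z ∈ Lam (a b)` (`S_Iso` for `N z`). So `z`, `μ z` are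
torsion points of odd order modulo `Lam (a b)`: not in the kernel (`Qp` with `α = N`; `N` is odd, so a unit at `P`). `xO (a b) z ≡ xO (c b) z = xO (a b) (μ z)`; `S_D1` (last): `z + μ z` or `z - μ z` is in the kernel, of odd order, so it is in `Lam (a b)`. Hence
`xO (a b) z = xO (a b) (μ z) = xO (c b) z`. -/
def S_E34 : Prop :=
  ∀ (k : ℕ) [SqK k] (P : Ideal ZZ), AbP k P → ∀ (a c : Ideal (OO k)) (N : ℕ), a ≠ ⊥ → c ≠ ⊥ → Odd N →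
    PrI a N → PrI c N → (∀ b : Ideal (OO k), b ≠ ⊥ → MP P (dO (a * b) - dO (c * b))) →
    (∀ b : Ideal (OO k), b ≠ ⊥ → ∀ z : ℂ, (N : ℂ) * z ∈ Lam b → z ∉ Lam b →
      MP P (xO (a * b) z - xO (c * b) z)) →
    (∀ b : Ideal (OO k), b ≠ ⊥ → dO (a * b) = dO (c * b)) ∧
    ∀ b : Ideal (OO k), b ≠ ⊥ → ∀ z : ℂ, (N : ℂ) * z ∈ Lam b → xO (a * b) z = xO (c * b) z

/-- MODULE `PsC` (120 lines; from `S_O3`, `S_L2`, `S_L5`, `S_R4`, `S_XOm`, `S_QpC`). CONJUGATION OF `Psi`. PROOF. `c ∘ c = 1` (`S_QpC`), `cjI (cjI a) = a`. `c (dO b) = (1 - 16 dO (cjI b))/16` (`S_R4`; the `c` of `S_R4` is the given one: `S_QpC`, last claim), so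
`c τ c⁻¹ (dO b) = c (τ ((1 - 16 dO (cjI b))/16)) = c ((1 - 16 dO (a cjI b))/16) = dO (cjI a * b)` (`cjI (a cjI b) = cjI a * b`). For `N z ∈ Lam b`, `z ∉ Lam b`: `c (xO b z) = - xO (cjI b) (conj z) - 1/4`, `N conj z ∈ Lam (cjI b)`, apply `τ`, and `conj z ∉ Lam (a cjI b)` (`S_L5`), apply `c`:
`xO (cjI a * b) z`. For `z ∈ Lam b`: the formula `-(1 + 16 d)/12` at `b` and at `cjI a * b`. Second and third claim: `(c τ c⁻¹) • (c x) = c (τ x)`; for `b' ∈ ZZ`: `c • ((τ • x) - x ^ 2)`. `c wO = 1 - wO` gives `c τ c⁻¹ ∈ GK`. -/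
def S_PsC : Prop :=
  ∀ (k : ℕ) [SqK k] (c : Gal(Om/ℚ)), (∀ x : Om, io (c x) = (starRingEnd ℂ) (io x)) →
    (∀ (τ : Gal(Om/ℚ)) (N : ℕ) (a : Ideal (OO k)), 0 < N → Psi τ N a → Psi (c * τ * c⁻¹) N (cjI a)) ∧
    (∀ (Q : Ideal ZZ) (l : ℕ) (τ : Gal(Om/ℚ)), Fro Q l τ → Fro (c • Q) l (c * τ * c⁻¹)) ∧
    (∀ (Q : Ideal ZZ) (τ : Gal(Om/ℚ)), τ ∈ Q.inertia Gal(Om/ℚ) → c * τ * c⁻¹ ∈ (c • Q).inertia Gal(Om/ℚ)) ∧
    ∀ τ ∈ GK k, c * τ * c⁻¹ ∈ GK k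

/-- MODULE `E3` (120 lines; from `S_O3`, `S_O4`, `S_O6`, `S_R2`, `S_R4`, `S_AbQ`, `S_XOm`, `S_D1`, `S_D2`, `S_QpC`, `S_ExA`, `S_E34`, `S_PsC`): `S_E3`. PROOF. `0 < N` as `N` is odd; `PrI (pp k) N`. `AbP k P`: `Psi τ N a` for some `a` (`S_ExA`). `dO (a b) = τ (dO b) ≡ (dO b) ^ 2 ≡ dO (pp b)` (`VP.frob`, `S_R2`). For
`N z ∈ Lam b`, `z ∉ Lam b`: `¬ IK P b z` (odd order), `xO (a b) z = τ (xO b z) ≡ (xO b z) ^ 2 ≡ xO (pp b) z` (`S_D2` (4)). `S_E34` with `c = pp k` gives `Psi τ N (pp k)`. `AbPb k P`: conjugate (`S_PsC`, `S_R4`): `AbP k (c • P)`, `c τ c⁻¹` is Frobenius at `c • P`, so `Psi (c τ c⁻¹) N (pp k)`,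
and again by `S_PsC`: `Psi τ N (cjI pp) = Psi τ N (ppb k)` (`c c = 1`, so `c (c τ c⁻¹) c⁻¹ = τ`). -/
abbrev M_E3 : Prop := S_E3

/-- MODULE `E4a` (100 lines; from `S_O3`, `S_R2`, `S_R4`, `S_AbQ`, `S_XOm`, `S_DUn`, `S_D1`, `S_QpC`, `S_ExA`, `S_E34`, `S_PsC`). INERTIA ABOVE `2`. PROOF. As `S_E3`: `AbP k Q`: `Psi τ N a`; `dO (a b) = τ (dO b) ≡ dO b = dO (⊤ b)` (`VP.inertia`), `xO (a b) z = τ (xO b z) ≡ xO b z`; `S_E34` with `c = ⊤`. Above `𝔭̄`: conjugate. -/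
def S_E4a : Prop :=
  ∀ (k : ℕ) [SqK k] (Q : Ideal ZZ), Npr Q → MP Q 2 → ∀ τ ∈ GK k, τ ∈ Q.inertia Gal(Om/ℚ) →
    ∀ N : ℕ, Odd N → Psi τ N (⊤ : Ideal (OO k))

/-- MODULE `E4b` (130 lines; from `S_O3`, `S_O6`, `S_L2`, `S_L5`, `S_R4`, `S_AbQ`, `S_XOm`, `S_DUn`, `S_D1`, `S_QpC`, `S_PsC`). INERTIA AND THE TORSION PRIME TO `Q`. PROOF. First `¬ AbPb k Q`. `z ∈ Lam (δ b)`; `N z ∈ Lam b` because `sp N ≤ δ`. `τ (xO b z) = xO (sp v * b) z = xO b (toC v z)` (`S_XOm`). If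
`z ∈ Lam b` then `toC v z ∈ Lam b` and both values agree (periodicity). Let `z ∉ Lam b`; `toC v z ∉ Lam b` (`z ∉ Lam (sp v * b)`: `S_L5`, `lam_sp`). `¬ Abv Q δ`: `α ∈ δ`, `¬ MP Q (toO α)`, `toC α z ∈ Lam b`, so `z`, `toC v z` are not in the kernel (`Qp`), `xO b z ∈ V`,
`xO b (toC v z) = τ (xO b z) ≡ xO b z`; `S_D1` (last): `toC v z ± z` is in the kernel and killed by `α`, so in `Lam b`. `AbPb k Q`: apply this to `c • Q`, `c τ c⁻¹`, `cjI b`, `cjI δ`, `cjO v` (`cjI (sp v) = sp (cjO v)`), `conj z`, and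
`c (xO b z) = - xO (cjI b) (conj z) - 1/4` for `z`, `toC v z ∉ Lam b`. -/
def S_E4b : Prop :=
  ∀ (k : ℕ) [SqK k] (Q : Ideal ZZ), Npr Q → ∀ τ ∈ GK k, τ ∈ Q.inertia Gal(Om/ℚ) →
    ∀ (v : OO k) (b δ : Ideal (OO k)) (N : ℕ), 0 < N → b ≠ ⊥ → δ ≠ ⊥ → sp (N : OO k) ≤ δ →
      ¬ Abv Q δ → Psi τ N (sp v) → ∀ z ∈ Lam (δ * b), xO b (toC v * z) = xO b z

/-- MODULE `E4` (10 lines; from `S_E4a`, `S_E4b`): `S_E4`. -/
abbrev M_E4 : Prop := S_E4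

/-! ## 4. `S_E10` -/

/-- MODULE `E10t` (80 lines; from `S_AbQ`, `S_O4`, `S_XOm`, `S_DUn`). THE NUMBER `θ`. PROOF. `th = tO b`, `d'' = dO (ppb b)`: `d'' (1 + 4 th) ^ 2 = th` and `th ^ 2 = dO b` give `th (1 - 8 d'') = d'' (1 + 16 dO b)`. `1 + 16 dO b ≠ 0`: at a prime `P` above `𝔭` (`S_AbQ`) `16 dO b ∈ m`, `1 ∉ m`. `d'' ≠ 0`. So `1 - 8 d'' ≠ 0` and
`th = d'' (1 + 16 dO b)/(1 - 8 d'')`. Apply `τ`: `τ (dO b) = dO (a b)`, `τ (dO (ppb b)) = dO (a (ppb b)) = dO (ppb (a b))`. -/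
def S_E10t : Prop :=
  ∀ (k : ℕ) [SqK k] (τ : Gal(Om/ℚ)) (N : ℕ) (a : Ideal (OO k)), Psi τ N a →
    ∀ b : Ideal (OO k), b ≠ ⊥ → τ (tO b) = tO (a * b)

/-- MODULE `PsK` (60 lines; from `S_AbQ`, `S_R2`). `Psi` IMPLIES `τ ∈ GK`. PROOF. `wO` is a root of `x ^ 2 - x + 2 k` (`wO_sq`), so `τ wO` is `wO` or `1 - wO` (`mem_GK_iff`). Suppose `τ wO = 1 - wO`. Let `P` be above `𝔭` (`S_AbQ`), `P' = τ⁻¹ • P`: `MP P wO` gives
`MP P' (τ⁻¹ wO) = MP P' (1 - wO)` (`DI.MP.smul`), so `AbPb k P'`. `dO (a * ⊤) = τ (dO ⊤)` is a unit at `P` (`S_R2`), so `dO ⊤` is a unit at `P'` (`DI.UP.smul`), and `(1 - 16 dO ⊤)/16` is a unit at `P'` (`S_R2`). The sum `1/16 = (1 - 16 dO ⊤)/16 + dO ⊤` is in `V`, and `16 ∈ m`: `1 ∈ m`. -/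
def S_PsK : Prop :=
  ∀ (k : ℕ) [SqK k] (τ : Gal(Om/ℚ)) (N : ℕ) (a : Ideal (OO k)), Psi τ N a → τ ∈ GK k

/-- MODULE `SyA` (60 lines; from `S_O6`, `S_L5`). SYSTEMS AND HALF SYSTEMS FOR `a b`. PROOF. `NI c ∣ N` and `PrI a N` give `a ⊔ c = ⊤` (`NI c ∈ c`). For `z ∈ Lam (c (a b))`: `1 = v + v'`, `v ∈ a`, `v' ∈ c`: `z = toC v z + toC v' z`, `toC v z ∈ Lam (c b)`, `toC v' z ∈ Lam (a b)`; if
`u ∈ Lam (c b) ∩ Lam (a b)` then `u ∈ Lam b`. Also `NI c * u ∈ Lam b` for `u ∈ Lam (c b)`. -/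
def S_SyA : Prop :=
  ∀ (k : ℕ) [SqK k] (a b c : Ideal (OO k)) (N : ℕ), a ≠ ⊥ → b ≠ ⊥ → c ≠ ⊥ → 0 < N → PrI a N → NI c ∣ N →
    a ⊔ c = ⊤ ∧ (∀ u ∈ Lam (c * b), (N : ℂ) * u ∈ Lam b) ∧
    (∀ R : Finset ℂ, IsSys c b R → IsSys c (a * b) R) ∧ ∀ S : Finset ℂ, IsHalf c b S → IsHalf c (a * b) S

/-- MODULE `ElA` (120 lines; from `S_L3`, `S_L6`, `S_O6`, `S_B1`, `S_B9`, `S_R4`, `S_R5a`, `S_XOm`, `S_SyA`). THE NUMBERS `laO c b`. PROOF. `S = ptS (c b)`, `T = ptT (c b)`; `xO (c b) S = 0`, `xO (c b) T = -1/4`: `S_B9` through `io`: `laO c b = 4 ∑ (u ∈ R) (xO b (S + u) - xO b (T + u))`, `R` a system for `(c, b)` (formula (1)). `2 S ∈ Lam (c b)`, so `N (S + u) ∈ Lam b`. Apply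
`τ`: `4 ∑ (xO (a b) (S + u) - xO (a b) (T + u))`; `R` is a system for `(c, a b)` (`S_SyA`), and `ptS (c (a b)) - S`, `ptT (c (a b)) - T ∈ Lam (c a b)` (`S_L6`; `a` is prime to `2` as `2 ∣ N`), so replacing `S` by `ptS (c (a b))` permutes the sum (it is `S` plus an element of `Lam (c a b)`, and
`u ↦ u + (this)` permutes the classes; or: both sums are `s2/s2 (X(S) - X(T))` by `S_B9`): it is `laO c (a b)`. -/
def S_ElA : Prop :=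
  ∀ (k : ℕ) [SqK k] (τ : Gal(Om/ℚ)) (N : ℕ) (a : Ideal (OO k)), 0 < N → Psi τ N a →
    ∀ b c : Ideal (OO k), b ≠ ⊥ → c ≠ ⊥ → 2 * NI c ∣ N → τ (laO c b) = laO c (a * b)

/-- The product `℘'(z) ℘'(1/f)/s2³` in `Om`. -/
def EWO {k : ℕ} (f : ℕ) (b : Ideal (OO k)) (z : ℂ) : Om := ofC (wdC b z * wdC b (1 / f) / s2 b ^ 3)

/-- The number `6 X² + (1 + 16 𝒟) X + 2 𝒟` at `1/f`. -/
def nO {k : ℕ} (f : ℕ) (b : Ideal (OO k)) : Om :=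
  6 * xO b (1 / f) ^ 2 + (1 + 16 * dO b) * xO b (1 / f) + 2 * dO b

/-- MODULE `EWg` (130 lines; from `S_L5`, `S_O6`, `S_B1`, `S_B2`, `S_B3`, `S_R4`, `S_R5b`, `S_XOm`). EVENNESS. PROOF. `p = 1/f`, a torsion point, `2 p ∉ Lam b` (`S_R5b`). `S_B3` (third formula): for `z`, `z ± p ∉ Lam b`: `EWO f b z = -(xO b (z + p) - xO b (z - p)) (xO b z - xO b p) ^ 2`. If `z - p ∈ Lam b`: `EWO f b z = W2 b p`
(`S_B2`), `z + p ∈ Lam b`: `- W2 b p`; `z ∈ Lam b`: `0` (`S_B1`). In particular `EWO` is algebraic. `τ`: `f ∣ N`, `N (z ± p) ∈ Lam b`; the case distinction is the same for `a b` (`S_L5`: for `N y ∈ Lam b`: `y ∈ Lam b ↔ y ∈ Lam (a b)`). -/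
def S_EWg : Prop :=
  ∀ (k : ℕ) [SqK k] (f : ℕ), Odd f → 3 ≤ f →
    (∀ (b : Ideal (OO k)) (z : ℂ), b ≠ ⊥ → PrI b f → Tor k z →
      io (EWO f b z) = wdC b z * wdC b (1 / f) / s2 b ^ 3) ∧
    ∀ (τ : Gal(Om/ℚ)) (N : ℕ) (a : Ideal (OO k)), 0 < N → Psi τ N a → f ∣ N →
      ∀ b : Ideal (OO k), b ≠ ⊥ → PrI b f →
        (∀ z : ℂ, (N : ℂ) * z ∈ Lam b → τ (EWO f b z) = EWO f (a * b) z) ∧
        τ (nO f b) = nO f (a * b) ∧ τ (W2 b (1 / f)) = W2 (a * b) (1 / f)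

/-- MODULE `Efr` (100 lines; from `S_O6`, `S_O7`, `S_B12`, `S_R5`). THE FRAMING IN A RAY CLASS. PROOF. `sp α * a = sp α' * a'`, `α - α' ∈ f O`, `α, α'` prime to `f`. `α β ≡ 1` modulo `f` (`cop_inv`; `β ≠ 0`), so `α' β ≡ 1`. `S_B12`: `fr f (sp (α β) * (a b)) = toC (α β) fr f (a b)`, `fr f (sp (α' β) * (a' b)) = toC (α' β) fr f (a' b)`, and the two ideals are equal:
`fr f (a b) toC α = fr f (a' b) toC α'`, for every `b`. So the quotients for `b` and `c` agree. -/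
def S_Efr : Prop :=
  ∀ (k : ℕ) [SqK k] (f : ℕ) (a a' : Ideal (OO k)), Odd f → 3 ≤ f → a ≠ ⊥ → a' ≠ ⊥ → PrI a f → PrI a' f →
    Ray f a a' → ∀ b c : Ideal (OO k), b ≠ ⊥ → c ≠ ⊥ → PrI b f → PrI c f →
      rO f (a * b) (a * c) = rO f (a' * b) (a' * c)

/-- MODULE `Ero` (150 lines; from `S_L3`, `S_O6`, `S_B1`, `S_B2`, `S_B9`, `S_B12`, `S_R4`, `S_R5`, `S_R5b`, `S_XOm`, `S_SyA`, `S_ElA`, `S_EWg`). THE QUOTIENT OF THE FRAMINGS, LARGE LEVEL. PROOF. `p = 1/f`. `fr f b = s2 b ^ 2 io (nO f b)/wdC b p` (`S_B12`). So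
`fr f (c b)/fr f b = (s2 (c b)/s2 b) ^ 2 (nO (c b)/nO b) (wdC b p/wdC (c b) p)`, and (`S_B9`, second formula, `R` a system for `(c, b)`) `wdC (c b) p = ∑ wdC b (p + u)`; multiply by `wdC b p`: `wdC (c b) p wdC b p = s2 b ^ 3 io (∑ EWO f b (p + u))`, `wdC b p ^ 2 = s2 b ^ 3 io (W2 b p)`.
So (1) `rO f b (c b) * nO f b * ∑ EWO f b (p + u) = laO c b ^ 2 * nO f (c b) * W2 b p`, and `∑ ≠ 0` (`wdC (c b) p ≠ 0`: `S_B12`), `nO ≠ 0` (`S_R5b`). Apply `τ` (level `N`, `2 f NI c ∣ N`: `N (p + u) ∈ Lam b`; `nO f (c b)`: `S_EWg` for `c b`): `S_ElA`, `S_EWg`, and (1) for `a b` (`R` is a system for `(c, a b)`: `S_SyA`). -/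
def S_Ero : Prop :=
  ∀ (k : ℕ) [SqK k] (f : ℕ), Odd f → 3 ≤ f → ∀ (τ : Gal(Om/ℚ)) (N : ℕ) (a : Ideal (OO k)), 0 < N →
    Psi τ N a → ∀ b c : Ideal (OO k), b ≠ ⊥ → c ≠ ⊥ → PrI b f → PrI c f → 2 * f * NI c ∣ N →
      τ (rO f b (c * b)) = rO f (a * b) (a * (c * b))

/-- MODULE `E10r` (80 lines; from `S_O2`, `S_O6`, `S_O7`, `S_R5`, `S_E1`, `S_PsK`, `S_Efr`, `S_Ero`). THE QUOTIENT OF THE FRAMINGS. PROOF. `τ ∈ GK k` (`S_PsK`). Let `M = 2 f N NI b NI c`; `S_E1`: `Psi τ M a₁`, and `Psi τ N a₁` (level), so `Ray N a₁ a`, `Ray f a₁ a`. `rO f b c = rO f b (c b)/rO f c (b c)`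
(`io`, `S_R5`; `c b = b c`), so by `S_Ero` `τ (rO f b c) = rO f (a₁ b) (a₁ c)`, and `S_Efr`. -/
def S_E10r : Prop :=
  ∀ (k : ℕ) [SqK k] (τ : Gal(Om/ℚ)) (N : ℕ) (a : Ideal (OO k)), 0 < N → Psi τ N a →
    ∀ f : ℕ, Odd f → 3 ≤ f → f ∣ N → ∀ b c : Ideal (OO k), b ≠ ⊥ → PrI b f → c ≠ ⊥ → PrI c f →
      τ (rO f b c) = rO f (a * b) (a * c)

/-- MODULE `E10v` (120 lines; from `S_O2`, `S_O6`, `S_L5`, `S_B1`, `S_B2`, `S_B11`, `S_B12`, `S_B14`, `S_R4`, `S_R5`, `S_R5b`, `S_XOm`, `S_HsP`, `S_SyA`, `S_EWg`). `vO` AND `gO`. PROOF. `fr f b = s2 b ^ 2 io (nO)/wdC b p`: `vO f b z = EWO f b z * W2 b p / nO f b ^ 3` (`wdC b p ^ 2 = s2 ^ 3 W2`), `wdC b z/(s2 fr) = EWO f b z / nO f b`, so by `S_B11`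
`gO f m b z = ∑ (u ∈ hs m b) EWO f b z / nO f b * (xO b z - xO b u)⁻¹`. Apply `τ` (`S_EWg`; `N u ∈ Lam b`: `S_SyA` for `c = m`): `∑ (u ∈ hs m b) EWO f (a b) z/nO f (a b) * (xO (a b) z - xO (a b) u)⁻¹`, and `hs m b` is a half system for `(m, a b)` (`S_SyA`), the sum is independent of the half system (as in `S_HsP`
with sums: use the map of half systems, or write the sum as a product-free statement: `S_HsP` is for products; prove the same for sums by `Finset.sum_bij`). -/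
def S_E10v : Prop :=
  ∀ (k : ℕ) [SqK k] (τ : Gal(Om/ℚ)) (N : ℕ) (a : Ideal (OO k)), 0 < N → Psi τ N a →
    ∀ f : ℕ, Odd f → 3 ≤ f → f ∣ N →
      (∀ b : Ideal (OO k), b ≠ ⊥ → PrI b f → ∀ z : ℂ, (N : ℂ) * z ∈ Lam b →
        τ (vO f b z) = vO f (a * b) z) ∧
      ∀ m b : Ideal (OO k), m ≠ ⊥ → b ≠ ⊥ → PrI m 2 → PrI m f → PrI b f →
        NI m ∣ N → ∀ z : ℂ, (N : ℂ) * z ∈ Lam b → z ∉ Lam (m * b) →
          τ (gO f m b z) = gO f m (a * b) z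

/-- MODULE `E10T` (80 lines; from `S_O6`, `S_L5`, `S_B14`, `S_D8`, `S_SyA`). `Theta`. PROOF. `Theta` is a rational expression in `xO b z`, `xO b u`, `dO b`; `N u ∈ Lam b` (`S_SyA`, `c = m`); `hs m b` is a half system for `(m, a b)` and `S_D8` (1) for `a b`. -/
def S_E10T : Prop :=
  ∀ (k : ℕ) [SqK k] (τ : Gal(Om/ℚ)) (N : ℕ) (a : Ideal (OO k)), 0 < N → Psi τ N a →
    ∀ m b : Ideal (OO k), m ≠ ⊥ → b ≠ ⊥ → PrI m 2 → NI m ∣ N → ∀ z : ℂ, (N : ℂ) * z ∈ Lam b →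
      τ (Theta m b z) = Theta m (a * b) z

/-- MODULE `E10` (20 lines; from `S_PsK`, `S_E10t`, `S_E10r`, `S_E10v`, `S_E10T`): `S_E10`. -/
abbrev M_E10 : Prop := S_E10

end Pool.Agent.DK
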