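import Pool.Agent.Lib.DK.R.Spec
import Pool.Agent.Lib.FW.SpecG

/-!
# Theorem DK, part E, second half: `S_E1`, `S_E6`, `S_E7`, `S_E8`, `S_E9`

Statements of the modules with complete proofs. The module `DK/E/<Name>.lean` proves its theorem in
`namespace Pool.Agent.DK.Eb` (first line `import Pool.Agent.Lib.DK.E.SpecB`); the name and the exact type are
at the end of the docstring. Read `DK/Defs.lean`, `DK/Iface.lean`, `DK/Base.lean` (lemmas `mem_GK_iff`, `GK_toO`,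
`lam_..`, `tor_..`, `toC_..`, `Nm_..`, `cop_..`) and the lemmas proved below (`psi_top`, `psi_mul`, `psi_level`,
`pri_mul`, `ne_mul`, ..). Most modules are adaptations of files of `DI/E` (elements `a` of `O` there, ideals `a` here;
`N ∣ a - a'` there, `Ray N a a'` here).
-/

set_option autoImplicit false

open scoped Pointwise nonZeroDivisors

noncomputable section

namespace Pool.Agent.DK.Eb

open Pool.Agent.MuZ Pool.Agent.FW NumberField IsDedekindDomain Pool.Agent.DK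
open Pool.Agent.DI (io ofC io_inj exists_io io_ofC ofC_io VP MP UP TP ex sqr sqr_sq kap)

variable {k : ℕ}

/-! ## Elementary lemmas (complete) -/

theorem ne_mul [SqK k] {a b : Ideal (OO k)} (ha : a ≠ ⊥) (hb : b ≠ ⊥) : a * b ≠ ⊥ :=
  fun h => (Ideal.mul_eq_bot.1 h).elim ha hb

theorem ne_top [SqK k] : (⊤ : Ideal (OO k)) ≠ ⊥ := top_ne_bot

theorem ne_sp [SqK k] {α : OO k} (h : α ≠ 0) : sp α ≠ ⊥ := by
  intro h'
  exact h (Ideal.span_singleton_eq_bot.1 h')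

theorem ne_pow [SqK k] {a : Ideal (OO k)} (ha : a ≠ ⊥) (n : ℕ) : a ^ n ≠ ⊥ := by
  rw [← Ideal.zero_eq_bot] at ha ⊢
  exact pow_ne_zero n ha

theorem pri_iff {a : Ideal (OO k)} {N : ℕ} : PrI a N ↔ IsCoprime a (Ideal.span {(N : OO k)}) :=
  (Ideal.isCoprime_iff_sup_eq).symm

theorem pri_mul {a b : Ideal (OO k)} {N : ℕ} (h : PrI a N) (h' : PrI b N) : PrI (a * b) N :=
  pri_iff.2 ((pri_iff.1 h).mul_left (pri_iff.1 h'))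

theorem pri_top (N : ℕ) : PrI (⊤ : Ideal (OO k)) N := by
  unfold PrI
  rw [top_sup_eq]

theorem pri_dvd {a : Ideal (OO k)} {N M : ℕ} (h : PrI a N) (hM : M ∣ N) : PrI a M := by
  unfold PrI at *
  rw [eq_top_iff, ← h]
  refine sup_le_sup_left ?_ a
  rw [Ideal.span_singleton_le_span_singleton]
  exact_mod_cast Nat.cast_dvd_cast hM

theorem psi_top [SqK k] (N : ℕ) : Psi 1 N (⊤ : Ideal (OO k)) where
  ne := ne_top
  cop := pri_top N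
  dd := fun b _ => by rw [Ideal.top_mul]; rfl
  xx := fun b _ z _ => by rw [Ideal.top_mul]; rfl

theorem psi_mul [SqK k] {τ τ' : Gal(Om/ℚ)} {N : ℕ} {a a' : Ideal (OO k)} (h : Psi τ N a)
    (h' : Psi τ' N a') : Psi (τ * τ') N (a * a') where
  ne := ne_mul h.ne h'.ne
  cop := pri_mul h.cop h'.cop
  dd := fun b hb => by
    rw [AlgEquiv.mul_apply, h'.dd b hb, h.dd _ (ne_mul h'.ne hb), mul_assoc]
  xx := fun b hb z hz => by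
    rw [AlgEquiv.mul_apply, h'.xx b hb z hz, h.xx _ (ne_mul h'.ne hb) z (lam_mono hz), mul_assoc]

theorem psi_level [SqK k] {τ : Gal(Om/ℚ)} {N M : ℕ} {a : Ideal (OO k)} (h : Psi τ N a) (hM : M ∣ N) :
    Psi τ M a where
  ne := h.ne
  cop := pri_dvd h.cop hM
  dd := h.dd
  xx := fun b hb z hz => by
    refine h.xx b hb z ?_
    obtain ⟨c, rfl⟩ := hM
    have h1 := lam_nat c hz
    have e : ((M * c : ℕ) : ℂ) * z = (c : ℂ) * ((M : ℂ) * z) := by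
      push_cast
      ring
    rw [e]
    exact h1

/-! ## Inputs from the first half of part E -/

/-- Finiteness (`T_FN`, first half of part E). -/
def S_FN : Prop :=
  ∀ (k : ℕ) [SqK k] (N : ℕ), 0 < N → ∃ A : Set Om, A.Finite ∧
    (∀ b : Ideal (OO k), b ≠ ⊥ → dO b ∈ A) ∧
    ∀ b : Ideal (OO k), b ≠ ⊥ → ∀ z : ℂ, (N : ℂ) * z ∈ Lam b → xO b z ∈ A

/-- `S_E1`, item 1 (first half of part E). -/
def S_Ex : Prop :=
  ∀ (k : ℕ) [SqK k] (N : ℕ), 0 < N → ∀ τ ∈ GK k, ∃ a : Ideal (OO k), Psi τ N a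

/-! ## `S_E1` -/

/-- MODULE `Ray` (70 lines; from `S_B1`, `S_B7`, `S_O7`). `S_E1`, ITEM 3. PROOF. `Ray N a a'`: `α a = α' a'` (`sp α * a = sp α' * a'`),
`α, α' ≠ 0` prime to `N`, `N ∣ α - α'`. `ne`, `cop`: `S_O7` (sixth item). `dd`: `S_B7` gives `DC (sp α * c) = DC c`, so
`DC (a * b) = DC (sp α * (a * b)) = DC (sp α' * (a' * b)) = DC (a' * b)` (`mul_assoc`). `xx`: let `N z ∈ Lam b`, `β` with `N ∣ α β - 1` (`cop_inv`). Then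
`toC (α β) z - z = toC c (N z) ∈ Lam b`, so also in `Lam (a b)` (`lam_mono`), the same for `α' β` (`N ∣ α' β - 1`). With the periods (`S_B1`) and
`XC (sp α * c) y = XC c (toC α y)` (`S_B7`): `X(a b, z) = X(a b, α β z) = X(sp α * (a b), β z) = X(sp α' * (a' b), β z) = X(a' b, α' β z) = X(a' b, z)`.
THEOREM `tRay : S_B1 → S_B7 → S_O7 → S_Ray`. -/
def S_Ray : Prop :=
  ∀ (k : ℕ) [SqK k] (N : ℕ), 0 < N → ∀ (τ : Gal(Om/ℚ)) (a a' : Ideal (OO k)), Psi τ N a →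
    Ray N a a' → Psi τ N a'

/-- MODULE `Uq` (170 lines; from `S_B1`, `S_B7`, `S_B13`, `S_L5`, `S_O6`, `S_R1`, `S_R4`). `S_E1`, ITEM 2. PROOF. `b = ⊤`: `dO a = τ (dO ⊤) = dO a'`
(`a * ⊤ = a`), so `DC a = DC a'` (`S_R1`), `sp α * a = sp α' * a'` with `α, α' ≠ 0` (`S_B13`). Let `μ = toC α / toC α'`.
(1) `XC a' z = XC a (μ z)` for all `z`: put `y = z / toC α'` in `XC (sp α' * a') y = XC a' (toC α' y)`, `XC (sp α * a) y = XC a (toC α y)` (`S_B7`).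
(2) `μ z ∈ Lam a ↔ z ∈ Lam a'` (`lam_sp` for `sp α * a = sp α' * a'` at `z / toC α'`). (3) Let `N z ∈ Lam ⊤`. `Psi` for `b = ⊤`: `xO a z = xO a' z`, so
`XC a z = XC a' z` (`S_R4`, first part; `Tor k z` by `tor_iff`). `z ∈ Lam a ↔ z ∈ Lam ⊤ ↔ z ∈ Lam a'` (`S_L5` first part with `b = ⊤`, and `lam_mono`; `a * ⊤ = a`).
(4) For `N z ∈ Lam ⊤`: `μ z - z ∈ Lam a` or `μ z + z ∈ Lam a`: if `z ∈ Lam a` then `z ∈ Lam a'`, `μ z ∈ Lam a`, clear; if `z ∉ Lam a` then `z ∉ Lam a'`, `μ z ∉ Lam a`, and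
`XC a z = XC a' z = XC a (μ z)`, `S_B1` (sixth item). (5) There is `e ∈ {1, -1}` with `(μ - e) z ∈ Lam a` for all `z` with `N z ∈ Lam ⊤`: otherwise there are
`z₁` with `(μ - 1) z₁ ∉ Lam a` and `z₂` with `(μ + 1) z₂ ∉ Lam a`; then `(μ + 1) z₁, (μ - 1) z₂ ∈ Lam a`, and `z₁ + z₂` contradicts (4). (6) In
particular `(μ - e) / N ∈ Lam a` (`z = 1 / N`, `one_div_lam`). `S_O6` (last item): `ν ∈ a`, `ν ≠ 0`, `N ∣ ν - 1`. From `sp α * a = sp α' * a'`: `α ν = α' ν'`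
with `ν' ∈ a'` (`Ideal.mem_span_singleton_mul`), `toC ν' = μ toC ν`. `(μ - e) / N * toC ν = toC u` (definition of `Lam a`), so `toC ν' - e toC ν = N toC u`,
`ν' - e ν = N u`. Put `β = e ν'`, `β' = ν`: `N ∣ β - β'`, `β' = 1` and `β = 1` modulo `N`, both are prime to `N` (`cop_congr`, `cop_one`) and
`≠ 0` (`μ ≠ 0`), and `sp ν' * a = sp ν * a'`: `sp (α' ν') * a = sp (α ν) * a = sp ν * (sp α * a) = sp ν * (sp α' * a') = sp α' * (sp ν * a')`; cancel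
`sp α'` (`Ideal.span_singleton_mul_right_inj`). `sp (e ν') = sp ν'` (`Ideal.span_singleton_neg`).
THEOREM `tUq : S_B1 → S_B7 → S_B13 → S_L5 → S_O6 → S_R1 → S_R4 → S_Uq`. -/
def S_Uq : Prop :=
  ∀ (k : ℕ) [SqK k] (N : ℕ), 0 < N → ∀ (τ : Gal(Om/ℚ)) (a a' : Ideal (OO k)), Psi τ N a →
    Psi τ N a' → Ray N a a'

/-- **`S_E1`** (complete). -/
theorem sE1 (h1 : S_Ex) (h2 : S_Uq) (h3 : S_Ray) : S_E1 := by
  intro k _ N hN
  exact ⟨h1 k N hN, h2 k N hN, h3 k N hN, fun τ τ' a a' h h' => psi_mul h h',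
    fun τ M a h hM => psi_level h hM⟩

/-! ## Open subgroups, generation, Frobenius elements -/

/-- MODULE `Op` (50 lines; from `S_FN`). Adapt `DI/E/OpN.lean`. AN OPEN SUBGROUP WHICH ACTS TRIVIALLY ON THE `N`-TORSION AND ON `μ_N`. PROOF. `A` from `S_FN`,
`A' = A ∪ {ζ | ζ ^ N = 1}` is finite; the fixing subgroup of `ℚ(A')` is open. `Psi τ N ⊤`: `⊤ * b = b`.
THEOREM `tOp : S_FN → S_Op`. -/
def S_Op : Prop :=
  ∀ (k : ℕ) [SqK k] (N : ℕ), 0 < N → ∃ O : OpenSubgroup Gal(Om/ℚ), ∀ τ ∈ O,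
    Psi τ N (⊤ : Ideal (OO k)) ∧ ∀ ζ : Om, ζ ^ N = 1 → τ ζ = ζ

/-- MODULE `Gn` (120 lines; `import Pool.Agent.Lib.DK.Gen`, no hypotheses). `Gal(Om/K)` IS GENERATED BY FROBENIUS ELEMENTS. PROOF. `KQ k` is a number
field (`DI/E/KFin.lean`). `gen_frob` (in `DK/Gen.lean`) for `K = KQ k`, `GK k = K.fixingSubgroup`. Let `l, Q, τ` be as in its last hypothesis. Let
`q = {v | MP Q (toO v)}`, the inverse image of `Q` under the ring homomorphism `OO k → ZZ`, `v ↦ toO v` (`toO_integral`; `MP.coe_iff`), a prime ideal, `Abv Q q`.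
`(l : OO k) ∈ q`, so `q ≠ ⊥`. `NI q = l`: the ring homomorphism `OO k → 𝓞 K`, `v ↦ toO v` (`toO v ∈ K`) induces an injective homomorphism
`OO k ⧸ q → 𝓞 K ⧸ Q.comap (iO K)` (see the definition of `iO` in `FW/RDefs.lean` or `FW/Defs.lean`), so `NI q` divides `l` (Lagrange: the range is an additive
subgroup, `Nat.card` of the range divides `Nat.card` of the group), and `NI q ≠ 1` because `q ≠ ⊤`. `l.Coprime M` since `l` is prime, `¬ l ∣ M`.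
THEOREM `tGn : S_Gn`. -/
def S_Gn : Prop :=
  ∀ (k : ℕ) [SqK k] (H : Subgroup Gal(Om/ℚ)) (O : OpenSubgroup Gal(Om/ℚ)) (M : ℕ),
    GK k ⊓ (O : Subgroup Gal(Om/ℚ)) ≤ H → 0 < M →
    (∀ (q : Ideal (OO k)) (l : ℕ) (Q : Ideal ZZ) (τ : Gal(Om/ℚ)), Deg1 q l → l.Coprime M → Npr Q →
      Abv Q q → (l : ZZ) ∈ Q → τ ∈ GK k → Fro Q l τ → τ ∈ H) → GK k ≤ H

/-- MODULE `F0` (complete copy, 110 lines; no hypotheses). FROBENIUS ELEMENTS OVER `ℚ`. PROOF. `DI/E/FrQ.lean`, the private theorem `FrQ_frob`. THEOREM `tF0 : S_F0`. -/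
def S_F0 : Prop :=
  ∀ (Q : Ideal ZZ) (l : ℕ), Npr Q → l.Prime → (l : ZZ) ∈ Q → ∃ σ : Gal(Om/ℚ), Fro Q l σ

/-- MODULE `Fr` (90 lines; from `S_F0`, `S_AbQ`). FROBENIUS ELEMENTS IN `Gal(Om/K)`. Compare the end of `DI/E/FrQ.lean`. PROOF. `Q` over `q`: `S_AbQ` (2); `MP Q l`:
`S_AbQ` (6), so `(l : ZZ) ∈ Q`; `τ` from `S_F0`. Claim `τ wO = wO` (`mem_GK_iff`). `τ wO` is a root of `X ^ 2 - X + 2 k`, so `wO` or `1 - wO`. `OO k ⧸ q` has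
`NI q = l` elements, it is a field (finite domain), so `v ^ l - v ∈ q` for all `v` (`FiniteField.pow_card`, or: the additive group is generated by `1`, so `v = m`
modulo `q` with `m ∈ ℤ` and Fermat), so `MP Q (wO ^ l - wO)` (`Abv Q q`, `toO_wI`). `MP Q (τ wO - wO ^ l)` (`VP.frob`). If `τ wO = 1 - wO` then `MP Q (1 - 2 wO)`, the
square `(1 - 2 wO) ^ 2 = 1 - 8 k = - Dk k` (`wO_sq`, `Dk_cast`), so `MP Q (Dk k)`, but `l` does not divide `Dk k` and `MP Q l` (`S_AbQ` (6): `UP Q (Dk k)`): contradiction.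
THEOREM `tFr : S_F0 → S_AbQ → S_Fr`. -/
def S_Fr : Prop :=
  ∀ (k : ℕ) [SqK k] (q : Ideal (OO k)) (l : ℕ), Deg1 q l → ¬ l ∣ Dk k →
    ∃ (Q : Ideal ZZ) (τ : Gal(Om/ℚ)), Npr Q ∧ Abv Q q ∧ τ ∈ GK k ∧ Fro Q l τ

/-! ## `S_E6`, `S_E7` -/

/-- MODULE `Cyc` (150 lines; from `S_E1`, `S_E2`, `S_O9`, `S_Op`, `S_Gn`). Adapt `DI/E/Cyc6.lean`. THE CYCLOTOMIC CHARACTER. PROOF. Let
`H = {τ ∈ GK k | ∀ a, Psi τ N a → ∀ ζ, ζ ^ N = 1 → τ ζ = ζ ^ NI a}`. `ζ ^ NI a` depends only on `NI a` modulo `N` and `N ∣ NI a - NI a'` if `Psi τ N a`, `Psi τ N a'`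
(`S_E1` (2), `S_O9`), so for `τ ∈ GK k` the condition may be checked for one `a`. SUBGROUP: `1`: `psi_top`, `NI ⊤ = 1`. Products: `psi_mul`, `NI (a a') = NI a NI a'` (`S_O2`: add
the hypothesis `S_O2`). Inverses: `Psi τ N a`, `Psi τ⁻¹ N a'` (`S_E1` (1)), `Psi 1 N (a a')`, so `NI a NI a' = 1` modulo `N`. OPEN: `S_Op`. FROBENIUS: `S_Gn` with
`M = N B`, `B` from `S_E2`: `Psi τ N q`, `NI q = l`, and `τ ζ = ζ ^ l` as in `DI/E/Cyc6.lean` (`Cyc6_frob`, `hroot`).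
THEOREM `sE6 : S_E1 → S_E2 → S_O2 → S_O9 → S_Op → S_Gn → S_E6`. -/
def S_Cyc : Prop := S_E1 → S_E2 → S_O2 → S_O9 → S_Op → S_Gn → S_E6

/-- MODULE `Srj` (50 lines; from `S_E1`, `S_E2`, `S_O7`, `S_O8`, `S_Fr`). SURJECTIVITY. PROOF. `S_O8` for `N`, `M = B * Dk k` (`B` from `S_E2`; `0 < Dk k`) and
`C a := ∃ τ ∈ GK k, Psi τ N a`: `C ⊤` (`psi_top`), products (`psi_mul`), `C q` for `Deg1 q l`, `l.Coprime (N * M)`: `Q, τ` from `S_Fr` (`¬ l ∣ Dk k`), `S_E2`. So there is `a'` with `C a'`,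
`Ray N a a'`; `Ray N a' a` (`S_O7` (2)) and `S_E1` (3). THEOREM `sE7 : S_E1 → S_E2 → S_O7 → S_O8 → S_Fr → S_E7`. -/
def S_Srj : Prop := S_E1 → S_E2 → S_O7 → S_O8 → S_Fr → S_E7

/-! ## `S_E8` -/

/-- MODULE `Fix` (150 lines; from `S_E1`, `S_O7`, `S_Op`). Adapt `DI/E/Fix8.lean`. GALOIS THEORY FOR `FixI`. PROOF. INVERSES: if `H a`, `a' ≠ ⊥`, `PrI a' N`, `Ray N (a * a') ⊤` then `H a'`:
`S_O7` (10) gives a finite set of representatives, so there are `i < j` with `Ray N (a ^ i) (a ^ j)` (both have the same representative: `S_O7` (2), (3)), by `S_O7` (5) with `c = a ^ i` (`⊤ * c`, `a ^ (j - i) * c`)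
`Ray N ⊤ (a ^ (j - i))`, `j - i = m + 1`; `Ray N (a * a') (a * a ^ m)`, cancel `a`: `Ray N a' (a ^ m)`, `H (a ^ m)`. Let `W = {τ ∈ GK k | ∀ a, Psi τ N a → H a}`; the condition may be checked for one `a`
(`S_E1` (1), (2), invariance of `H`). `W` is a subgroup, contains `GK k ⊓ O`, `O` from `S_Op`; `FixI N H` is its fixed field. The rest as in `DI/E/Fix8.lean` (`GK k` is open: `KQ k` is
finite over `ℚ`, `DI/E/KFin.lean`). THEOREM `sE8 : S_E1 → S_O7 → S_Op → S_E8`. -/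
def S_Fix : Prop := S_E1 → S_O7 → S_Op → S_E8

/-! ## `S_E9` -/

/-- MODULE `Ab` (40 lines; from `S_E1`, `S_O7`). Adapt the first part of `DI/E/Ab8.lean`. `FixI` IS STABLE UNDER `Gal(Om/K)`. PROOF. Let `σ ∈ GK k`, `Psi σ N a`, `H a`; `Psi τ N t`, `Psi τ⁻¹ N t'`
(`S_E1` (1)), `Psi (τ⁻¹ * τ) N (t' * t)`, so `Ray N (t' * t) ⊤` (`S_E1` (2), `psi_top`), `Ray N a (t' * (a * t))` (`S_O7` (1), (2), (4)), so `H (t' * (a * t))` and `τ⁻¹ σ τ x = x`.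
THEOREM `tAb : S_E1 → S_O7 → S_Ab`. -/
def S_Ab : Prop :=
  ∀ (k : ℕ) [SqK k] (N : ℕ) (H : Ideal (OO k) → Prop), 0 < N →
    (∀ a a', H a → Ray N a a' → H a') → ∀ τ ∈ GK k, ∀ x ∈ FixI N H, τ x ∈ FixI N H

/-- MODULE `Cj` (150 lines; from `S_Ab`, `S_B1`, `S_L2`, `S_L5`, `S_O3`, `S_R1`, `S_R4`). Adapt `DI/E/Cj9.lean`. COMPLEX CONJUGATION. PROOF. `c` from `S_R4`. `c (c x) = x`, `c⁻¹ = c`, `c wO = 1 - wO` (apply `io`; `conj_wC`, `io_wO`).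
(1) `c τ c⁻¹ ∈ GK k` as in `DI/E/Cj9.lean`. `Psi (c τ c⁻¹) N (cjI a)`: `ne`: `cjI (cjI a) = a` (`S_O3`), `cjI ⊥ = ⊥`; `cop`: `S_O3` (5). `dd`: `c τ c (dO b) = c τ ((1 - 16 dO (cjI b)) / 16) =
c ((1 - 16 dO (a * cjI b)) / 16) = (1 - 16 (1 - 16 dO (cjI (a * cjI b))) / 16) / 16 = dO (cjI a * b)` (`cjI (a * cjI b) = cjI a * b`: `S_O3` (2), (3)). `xx`: `N z ∈ Lam b`. If `z ∈ Lam b`:
`xO b z = -(1 + 16 dO b) / 12` (`S_B1` (9), `S_R1`, `S_R4`, apply `io`), the same for `cjI a * b` (`lam_mono`), and `dd`. If `z ∉ Lam b`, `z' = conj z`: `z' ∈ Lam (cjI b) ↔ z ∈ Lam b`, `N z' ∈ Lam (cjI b)` (`S_L2` (7)), `Tor k z`,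
`Tor k z'`, `z' ∉ Lam (a * cjI b)` (`S_L5` first part for `cjI b`, `PrI a N`): `c (xO b z) = - xO (cjI b) z' - 1/4`, `τ` of it is `- xO (a * cjI b) z' - 1/4`, and `c` of this is
`xO (cjI (a * cjI b)) z` (`conj z' = z`). (2) `g ∈ GK k` or `c g ∈ GK k`: `g wO` is a root of `X ^ 2 - X + 2 k`. (3) as in `DI/E/Cj9.lean`.
THEOREM `tCj : S_Ab → S_B1 → S_L2 → S_L5 → S_O3 → S_R1 → S_R4 → S_Cj`. -/
def S_Cj : Prop :=
  ∃ c : Gal(Om/ℚ), (∀ x : Om, io (c x) = (starRingEnd ℂ) (io x)) ∧ ∀ (k : ℕ) [SqK k],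
    (∀ τ ∈ GK k, c * τ * c⁻¹ ∈ GK k ∧ ∀ (N : ℕ) (a : Ideal (OO k)), 0 < N → Psi τ N a →
      Psi (c * τ * c⁻¹) N (cjI a)) ∧
    (∀ g : Gal(Om/ℚ), g ∈ GK k ∨ c * g ∈ GK k) ∧
    ∀ (N : ℕ) (H : Ideal (OO k) → Prop), 0 < N → (∀ a a', H a → Ray N a a' → H a') →
      (∀ a, H a → H (cjI a)) → ∀ g : Gal(Om/ℚ), ∀ x ∈ FixI N H, g x ∈ FixI N H

/-- The hypotheses on `H` in `S_E8` and `S_Cj`. -/
structure HG (N : ℕ) (H : Ideal (OO k) → Prop) : Prop where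
  top : H ⊤
  cop : ∀ a, H a → a ≠ ⊥ ∧ PrI a N
  ray : ∀ a a', H a → Ray N a a' → H a'
  mul : ∀ a a', H a → H a' → H (a * a')
  cj : ∀ a, H a → H (cjI a)

/-- MODULE `H2M` (120 lines; from `S_O2`, `S_O3`, `S_O6`, `S_O7`, `S_O9`). THE GROUPS `H2 f`, `H2N f N`. PROOF. (A) `H2 f`. `top`: `j = 0`, `S_O7` (1). `cop`: `Ray f (a ^ 2 ^ j) ⊤`, so `a ^ 2 ^ j ≠ ⊥` and `PrI (a ^ 2 ^ j) f`
(`S_O7` (6)), so `a ≠ ⊥` and `PrI a f` (`a ^ 2 ^ j ≤ a`). `ray`: `Ray f (a ^ n) (a' ^ n)` by induction (`S_O7` (1), (4)), (2), (3). `mul`: `(a a') ^ 2 ^ (j + j') = (a ^ 2 ^ j) ^ 2 ^ j' * (a' ^ 2 ^ j') ^ 2 ^ j`, and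
`Ray f (⊤ ^ n) ⊤`. `cj`: `cjI (a ^ n) = (cjI a) ^ n` (`S_O3` (2), induction, `cjI ⊤ = ⊤`: `cjI (sp 1) = sp (cjO 1)`), `S_O3` (6). (B) `H2N f N` modulo `f * 2 ^ N`. `cop`: `PrI a f`; `PrI a (2 ^ N)`: `NI a` is prime to `2 ^ N`
(`S_O6` (3)); `S_O6` (2). `ray`: `S_O7` (7) for `f`, `S_O9` for `f * 2 ^ N` (`PrI a'`: `S_O7` (6)). `mul`: `NI (a a') = NI a NI a'` (`S_O2`); products of numbers `±1` modulo `2 ^ N`. `cj`: `NI (cjI a) = NI a` (`S_O3` (3)).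
THEOREM `tH2M : S_O2 → S_O3 → S_O6 → S_O7 → S_O9 → S_H2M`. -/
def S_H2M : Prop :=
  ∀ (k : ℕ) [SqK k] (f : ℕ), Odd f → 3 ≤ f →
    HG f (H2 (k := k) f) ∧ ∀ N : ℕ, HG (f * 2 ^ N) (H2N (k := k) f N)

/-- MODULE `HPM` (150 lines; from `S_O2`, `S_O3`, `S_O6`, `S_O7`, `S_O9`, `S_H2M`). THE GROUPS `HP f`, `HPN f N`. PROOF. (A) `HP f`: `Ray f a (sp v)`, `v ≠ 0`, `Hf f v` (`Cop v f`, `f ∣ v ^ 2 ^ j - 1`). `top`: `v = 1`, `sp 1 = ⊤`. `cop`: `sp v ≠ ⊥`,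
`PrI (sp v) f ↔ Cop v f` (`S_O6` (4)), `S_O7` (6). `ray`: `S_O7` (2), (3). `mul`: `sp v * sp v' = sp (v v')` (`Ideal.span_singleton_mul_span_singleton`), `S_O7` (4), `cop_mul`, `v ^ 2 ^ j = 1` modulo `f` implies `v ^ 2 ^ i = 1` for `i ≥ j`
(`sub_dvd_pow_sub_pow`). `cj`: `S_O3` (6), (4), `cop_cj`, `cjO (v ^ n - 1) = cjO v ^ n - 1`, `cjO_nat`. (B) `HPN f N` modulo `f * 2 ^ N`: the same with `HN f N v`, `Cop v (2 * f)`; `Cop v (f * 2 ^ N)` follows from `Cop v (2 * f)` (`IsCoprime.pow_right` ..);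
`Nm (v v') = Nm v Nm v'`, `Nm (cjO v) = Nm v`. (C) `HP f a` implies `H2 f a`: `Ray f (a ^ n) (sp (v ^ n))`, `n = 2 ^ j`, and `Ray f (sp (v ^ n)) (sp 1)` by `S_O7` (8) (`f ∣ v ^ n - 1`). `HPN f N a` implies
`H2N f N a`: `Ray f a (sp v)` by `S_O7` (7), and (C); `NI a = NI (sp v) = Nm v` modulo `f * 2 ^ N` by `S_O9`, `S_O2` (4).
THEOREM `tHPM : S_O2 → S_O3 → S_O6 → S_O7 → S_O9 → S_H2M → S_HPM`. -/
def S_HPM : Prop :=
  ∀ (k : ℕ) [SqK k] (f : ℕ), Odd f → 3 ≤ f →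
    HG f (HP (k := k) f) ∧ (∀ N : ℕ, HG (f * 2 ^ N) (HPN (k := k) f N)) ∧
    (∀ a : Ideal (OO k), HP f a → H2 f a) ∧ ∀ (N : ℕ) (a : Ideal (OO k)), HPN f N a → H2N f N a

/-- MODULE `Inr` (90 lines; from `FW.S_Ine`, `S_E4`, `S_E8`, `S_HPM`). Adapt `DI/E/Inr9.lean`. UNRAMIFIEDNESS AT `2`. PROOF. (1) `P` contains `2`, `τ ∈ P.inertia`: `τ ∈ GK k` as in `DI/E/Inr9.lean` (`τ wO` is `wO` or `1 - wO`, and
`1 - 2 wO` is a unit modulo `P`). `S_E4`: `Psi τ f ⊤` (`f` is odd), `HP f ⊤` (`S_HPM`), so `τ x = x` for `x ∈ Mf k f = FixI f (HP f)`. (2) as in `DI/E/Inr9.lean` with `KQ k`, `Mf k f` (`S_E8` for `HP f`).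
THEOREM `tInr : FW.S_Ine → S_E4 → S_E8 → S_HPM → S_Inr`. -/
def S_Inr : Prop :=
  ∀ (k : ℕ) [SqK k] (f : ℕ), Odd f → 3 ≤ f → (∀ τ ∈ GK k, ∀ x ∈ Mf k f, τ x ∈ Mf k f) →
    (∀ P : Ideal ZZ, Npr P → MP P 2 → ∀ τ ∈ P.inertia Gal(Om/ℚ), ∀ x ∈ Mf k f, τ x = x) ∧
    ∀ P : Ideal ZZ, Npr P → MP P 2 → ∀ τ ∈ GK k, (∀ x ∈ Mf k f, VP P x → MP P (τ x - x)) →
      ∀ x ∈ Mf k f, τ x = x

/-- **`S_E9`** (complete). -/
theorem sE9 (hC : S_Cj) (h2 : S_H2M) (hP : S_HPM) (hI : S_Inr) : S_E9 := by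
  intro k _ f hf h3
  obtain ⟨c, -, hc⟩ := hC
  obtain ⟨-, -, hst⟩ := hc k
  obtain ⟨a1, a2⟩ := h2 k f hf h3
  obtain ⟨b1, b2, b3, b4⟩ := hP k f hf h3
  have hf0 : 0 < f := hf.pos
  have hfN : ∀ N : ℕ, 0 < f * 2 ^ N := fun N => Nat.mul_pos hf0 (by positivity)
  have s1 : ∀ τ : Gal(Om/ℚ), ∀ x ∈ Mf k f, τ x ∈ Mf k f := hst f _ hf0 b1.ray b1.cj
  obtain ⟨i1, i2⟩ := hI k f hf h3 (fun τ _ x hx => s1 τ x hx)
  refine ⟨s1, fun N => hst _ _ (hfN N) (b2 N).ray (b2 N).cj, hst f _ hf0 a1.ray a1.cj,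
    fun N => hst _ _ (hfN N) (a2 N).ray (a2 N).cj, i1, i2, ?_, ?_⟩
  · intro x hx τ hτ a h1 h2
    exact hx τ hτ a h1 (b3 a h2)
  · intro N x hx τ hτ a h1 h2
    exact hx τ hτ a h1 (b4 N a h2)

end Pool.Agent.DK.Eb
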